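import Mathlib

set_option autoImplicit false

open FirstOrder FirstOrder.Language

namespace Pool.Agent.H439Z.RG

/-- bounded formulas of the language of graphs -/
abbrev BF (m : ℕ) := BoundedFormula Language.graph Empty m

/-- the closure rules of the depth predicate -/
def Rules (Q : (m : ℕ) → BF m → ℕ → Prop) : Prop :=
  (∀ (m k' : ℕ), Q m BoundedFormula.falsum k') ∧
  (∀ (m k' : ℕ) (t₁ t₂ : Term Language.graph (Empty ⊕ Fin m)),
    Q m (BoundedFormula.equal t₁ t₂) k') ∧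
  (∀ (m k' l : ℕ) (R : Language.graph.Relations l)
    (ts : Fin l → Term Language.graph (Empty ⊕ Fin m)), Q m (BoundedFormula.rel R ts) k') ∧
  (∀ (m k' : ℕ) (ψ χ : BF m), Q m ψ k' → Q m χ k' → Q m (BoundedFormula.imp ψ χ) k') ∧
  (∀ (m k' : ℕ) (ψ : BF (m + 1)), Q (m + 1) ψ k' → Q m (BoundedFormula.all ψ) (k' + 1))

/-- quantifier depth at most `k` -/
def Dp (m : ℕ) (φ : BF m) (k : ℕ) : Prop := ∀ Q, Rules Q → Q m φ k

theorem Dp.mono {m : ℕ} {φ : BF m} {k k' : ℕ} (h : Dp m φ k) (hk : k ≤ k') : Dp m φ k' := by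
  refine h (fun m φ k => ∀ k', k ≤ k' → Dp m φ k') ⟨?_, ?_, ?_, ?_, ?_⟩ k' hk
  · exact fun m _ k' _ Q hQ => hQ.1 m k'
  · exact fun m _ t₁ t₂ k' _ Q hQ => hQ.2.1 m k' t₁ t₂
  · exact fun m _ l R ts k' _ Q hQ => hQ.2.2.1 m k' l R ts
  · exact fun m _ ψ χ h1 h2 k' hk' Q hQ => hQ.2.2.2.1 m k' ψ χ (h1 k' hk' Q hQ) (h2 k' hk' Q hQ)
  · intro m k ψ h1 k' hk' Q hQ
    obtain ⟨j, rfl⟩ : ∃ j, k' = j + 1 := ⟨k' - 1, by omega⟩
    exact hQ.2.2.2.2 m j ψ (h1 j (by omega) Q hQ)

/-- properties of tuples of vertices of finite graphs -/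
abbrev Pred (m : ℕ) := ∀ n : ℕ, SimpleGraph (Fin n) → (Fin m → Fin n) → Prop

/-- definable in depth `k` -/
def Df (m k : ℕ) (P : Pred m) : Prop :=
  ∃ φ : BF m, Dp m φ k ∧ ∀ (n : ℕ) (H : SimpleGraph (Fin n)) (xs : Fin m → Fin n),
    @BoundedFormula.Realize _ _ H.structure _ _ φ default xs ↔ P n H xs

variable {m k : ℕ}

theorem Df.congr {P P' : Pred m} (h : Df m k P) (e : ∀ n H xs, P n H xs ↔ P' n H xs) :
    Df m k P' := by
  obtain ⟨φ, h1, h2⟩ := h
  exact ⟨φ, h1, fun n H xs => (h2 n H xs).trans (e n H xs)⟩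

theorem Df.mono {P : Pred m} {k' : ℕ} (h : Df m k P) (hk : k ≤ k') : Df m k' P := by
  obtain ⟨φ, h1, h2⟩ := h
  exact ⟨φ, h1.mono hk, h2⟩

theorem df_false : Df m k fun _ _ _ => False :=
  ⟨BoundedFormula.falsum, fun _ hQ => hQ.1 m k, fun _ _ _ => Iff.rfl⟩

theorem df_eq (i j : Fin m) : Df m k fun _ _ xs => xs i = xs j :=
  ⟨BoundedFormula.equal (Term.var (Sum.inr i)) (Term.var (Sum.inr j)),
    fun _ hQ => hQ.2.1 m k _ _, fun _ _ _ => Iff.rfl⟩

theorem df_adj (i j : Fin m) : Df m k fun _ H xs => H.Adj (xs i) (xs j) :=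
  ⟨BoundedFormula.rel adj ![Term.var (Sum.inr i), Term.var (Sum.inr j)],
    fun _ hQ => hQ.2.2.1 m k _ _ _, fun _ _ _ => Iff.rfl⟩

theorem Df.imp {P P' : Pred m} (h : Df m k P) (h' : Df m k P') :
    Df m k fun n H xs => P n H xs → P' n H xs := by
  obtain ⟨φ, h1, h2⟩ := h
  obtain ⟨ψ, h3, h4⟩ := h'
  exact ⟨φ.imp ψ, fun Q hQ => hQ.2.2.2.1 m k _ _ (h1 Q hQ) (h3 Q hQ),
    fun n H xs => imp_congr (h2 n H xs) (h4 n H xs)⟩

theorem Df.all {P : Pred (m + 1)} (h : Df (m + 1) k P) :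
    Df m (k + 1) fun n H xs => ∀ a, P n H (Fin.snoc xs a) := by
  obtain ⟨φ, h1, h2⟩ := h
  exact ⟨φ.all, fun Q hQ => hQ.2.2.2.2 m k _ (h1 Q hQ),
    fun n H xs => forall_congr' fun a => h2 n H _⟩

theorem Df.not {P : Pred m} (h : Df m k P) : Df m k fun n H xs => ¬ P n H xs := h.imp df_false

theorem Df.and {P P' : Pred m} (h : Df m k P) (h' : Df m k P') :
    Df m k fun n H xs => P n H xs ∧ P' n H xs :=
  (h.imp h'.not).not.congr fun _ _ _ => by tauto

theorem Df.iff {P P' : Pred m} (h : Df m k P) (h' : Df m k P') :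
    Df m k fun n H xs => P n H xs ↔ P' n H xs :=
  ((h.imp h').and (h'.imp h)).congr fun _ _ _ => by tauto

theorem df_const (c : Prop) : Df m k fun _ _ _ => c := by
  by_cases h : c
  · exact df_false.not.congr fun _ _ _ => by tauto
  · exact df_false.congr fun _ _ _ => by tauto

theorem Df.ex {P : Pred (m + 1)} (h : Df (m + 1) k P) :
    Df m (k + 1) fun n H xs => ∃ a, P n H (Fin.snoc xs a) :=
  h.not.all.not.congr fun _ _ _ => by push Not; rfl

theorem df_forall {ι : Type*} [Fintype ι] {P : ι → Pred m} (h : ∀ i, Df m k (P i)) :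
    Df m k fun n H xs => ∀ i, P i n H xs := by
  classical
  have : ∀ s : Finset ι, Df m k fun n H xs => ∀ i ∈ s, P i n H xs := by
    intro s
    induction s using Finset.induction_on with
    | empty => exact (df_const True).congr fun _ _ _ => by simp
    | insert i s _ ih => exact ((h i).and ih).congr fun _ _ _ => by simp
  exact (this Finset.univ).congr fun _ _ _ => by simp

theorem df_exists {ι : Type*} [Fintype ι] {P : ι → Pred m} (h : ∀ i, Df m k (P i)) :
    Df m k fun n H xs => ∃ i, P i n H xs :=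
  (df_forall fun i => (h i).not).not.congr fun _ _ _ => by push Not; rfl

theorem df_close (j : ℕ) : ∀ (d : ℕ) (P : Pred j), Df j d P →
    Df 0 (d + j) fun n H _ => ∃ xs, P n H xs := by
  induction j with
  | zero =>
    intro d P h
    refine h.congr fun n H xs => ⟨fun h => ⟨xs, h⟩, fun ⟨ys, h⟩ => ?_⟩
    rwa [Subsingleton.elim xs ys]
  | succ j ih =>
    intro d P h
    refine ((ih _ _ h.ex).mono (by omega)).congr fun n H _ => ⟨fun ⟨xs, a, h⟩ => ⟨_, h⟩, ?_⟩
    rintro ⟨xs, h⟩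
    exact ⟨Fin.init xs, xs (Fin.last j), by rwa [Fin.snoc_init_self]⟩

/-- bisimulation of depth `r` inside the ground sets `S`, `T` -/
def bis {V W : Type*} (G : SimpleGraph V) (H : SimpleGraph W) (S : Set V) (T : Set W)
    (E : V → W → Prop) : ℕ → V → W → Prop
  | 0 => E
  | r + 1 => fun u v => bis G H S T E r u v ∧
      (∀ w ∈ S, G.Adj u w → ∃ w' ∈ T, H.Adj v w' ∧ bis G H S T E r w w') ∧
      (∀ w' ∈ T, H.Adj v w' → ∃ w ∈ S, G.Adj u w ∧ bis G H S T E r w w')

theorem df_bis {n k : ℕ} (G : SimpleGraph (Fin n)) (W : Fin k → Fin n) (r : ℕ) :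
    ∀ (m : ℕ) (ι : Fin k → Fin m) (i : Fin m) (u : Fin n), Df m r fun _ H xs =>
      bis G H Set.univ Set.univ (fun u v => ∀ j, u = W j ↔ v = xs (ι j)) r u (xs i) := by
  induction r with
  | zero =>
    intro m ι i u
    exact df_forall fun j => (df_const (u = W j)).iff (df_eq i (ι j))
  | succ r ih =>
    intro m ι i u
    have h1 := fun w => ih (m + 1) (fun j => (ι j).castSucc) (Fin.last m) w
    refine (((ih m ι i u).mono (Nat.le_succ r)).and ((df_forall fun w => (df_const (G.Adj u w)).imp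
      ((df_adj i.castSucc (Fin.last m)).and (h1 w)).ex).and ((df_adj i.castSucc (Fin.last m)).imp
      (df_exists fun w => (df_const (G.Adj u w)).and (h1 w))).all)).congr fun _ H xs => ?_
    simp [bis]

theorem bis_refl {V : Type*} (G : SimpleGraph V) (S : Set V) {E : V → V → Prop} (h : ∀ u, E u u)
    (r : ℕ) : ∀ u, bis G G S S E r u u := by
  induction r with
  | zero => exact h
  | succ r ih => exact fun u => ⟨ih u, fun w hw ha => ⟨w, hw, ha, ih w⟩, fun w hw ha => ⟨w, hw, ha, ih w⟩⟩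

theorem bis_iso {V W : Type*} {G : SimpleGraph V} {H : SimpleGraph W} (e : G ≃g H)
    {E : V → V → Prop} {E' : V → W → Prop} (h : ∀ u v, E' u (e v) ↔ E u v) (r : ℕ) :
    ∀ u v, bis G H Set.univ Set.univ E' r u (e v) ↔ bis G G Set.univ Set.univ E r u v := by
  induction r with
  | zero => exact h
  | succ r ih =>
    intro u v
    simp only [bis, Set.mem_univ, true_and, forall_const, e.surjective.forall, e.surjective.exists,
      ih, e.map_adj_iff]

theorem defined_of_discrete {n k r : ℕ} (G : SimpleGraph (Fin n)) (W : Fin k → Fin n)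
    (h : ∀ u v, bis G G Set.univ Set.univ (fun u v => ∀ j, u = W j ↔ v = W j) r u v → u = v) :
    ∃ φ : Language.graph.Sentence, Dp 0 φ (r + 2 + k) ∧ ∀ (m : ℕ) (H : SimpleGraph (Fin m)),
      @Sentence.Realize Language.graph (Fin m) H.structure φ ↔ Nonempty (G ≃g H) := by
  have h1 := fun u => df_bis G W r (k + 1) Fin.castSucc (Fin.last k) u
  have h2 := fun u => df_bis G W r (k + 2) (fun j => j.castSucc.castSucc) (Fin.last k).castSucc u
  have h3 := fun u => df_bis G W r (k + 2) (fun j => j.castSucc.castSucc) (Fin.last (k + 1)) u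
  have h4 := (((df_exists h1).all.mono (Nat.le_succ _)).and
    (((df_forall fun u => (h1 u).ex).mono (Nat.le_succ _)).and
    (df_forall fun u => df_forall fun v => (h2 u).imp ((h3 v).imp
      (((df_eq (Fin.last k).castSucc (Fin.last (k + 1))).iff (df_const (u = v))).and
      ((df_adj (Fin.last k).castSucc (Fin.last (k + 1))).iff (df_const (G.Adj u v)))))).all.all))
  obtain ⟨φ, hφ1, hφ2⟩ := df_close k _ _ h4
  refine ⟨φ, hφ1, fun m H => (hφ2 m H default).trans ?_⟩
  simp only [Fin.snoc_castSucc, Fin.snoc_last]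
  constructor
  · rintro ⟨xs, a1, a2, a3⟩
    choose f hf using a2
    refine ⟨⟨Equiv.ofBijective f ⟨fun u v huv => (a3 _ _ u v (hf u) (hf v)).1.mp huv, fun x => ?_⟩,
      fun {u v} => (a3 _ _ u v (hf u) (hf v)).2⟩⟩
    obtain ⟨u, hu⟩ := a1 x
    exact ⟨u, (a3 _ _ u u (hf u) hu).1.mpr rfl⟩
  · rintro ⟨e⟩
    have key : ∀ u v, bis G H Set.univ Set.univ (fun u v => ∀ j, u = W j ↔ v = e (W j)) r u (e v)
        ↔ u = v := fun u v =>
      (bis_iso e (fun u v => by simp) r u v).trans ⟨h u v, fun huv => huv ▸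
        bis_refl G _ (fun _ _ => Iff.rfl) r u⟩
    refine ⟨fun j => e (W j), fun x => ?_, fun u => ⟨e u, (key u u).mpr rfl⟩, fun x y u v hu hv => ?_⟩
    · obtain ⟨v, rfl⟩ := e.surjective x
      exact ⟨v, (key v v).mpr rfl⟩
    · obtain ⟨x, rfl⟩ := e.surjective x
      obtain ⟨y, rfl⟩ := e.surjective y
      rw [(key u x).mp hu, (key v y).mp hv]
      exact ⟨e.injective.eq_iff, e.map_adj_iff⟩

end Pool.Agent.H439Z.RG
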