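import Mathlib

set_option autoImplicit false

open Finset

namespace Pool.Agent.H439Z.RG

open Classical in
/-- indicator of a proposition -/
noncomputable def ind (P : Prop) : ℝ := if P then 1 else 0

theorem ind_pos {P : Prop} (h : P) : ind P = 1 := if_pos h
theorem ind_neg {P : Prop} (h : ¬ P) : ind P = 0 := if_neg h
theorem ind_nonneg (P : Prop) : 0 ≤ ind P := by unfold ind; split_ifs <;> norm_num
theorem ind_le_one (P : Prop) : ind P ≤ 1 := by unfold ind; split_ifs <;> norm_num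
theorem ind_and (P Q : Prop) : ind (P ∧ Q) = ind P * ind Q := by
  by_cases hP : P <;> by_cases hQ : Q <;> simp [ind, hP, hQ]
theorem ind_not (P : Prop) : ind (¬ P) = 1 - ind P := by by_cases hP : P <;> simp [ind, hP]
theorem ind_mono {P Q : Prop} (h : P → Q) : ind P ≤ ind Q := by
  by_cases hP : P
  · rw [ind_pos hP, ind_pos (h hP)]
  · rw [ind_neg hP]; exact ind_nonneg Q
theorem ind_congr {P Q : Prop} (h : P ↔ Q) : ind P = ind Q := by rw [propext h]
theorem ind_forall {α : Type*} (s : Finset α) (P : α → Prop) :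
    ind (∀ a ∈ s, P a) = ∏ a ∈ s, ind (P a) := by
  classical
  induction s using Finset.induction_on with
  | empty => simp [ind]
  | insert a s ha ih => rw [prod_insert ha, ← ih, ← ind_and]; simp
theorem ind_iff (P Q : Prop) : ind (P ↔ Q) = ind P * ind Q + ind (¬ P) * ind (¬ Q) := by
  by_cases hP : P <;> by_cases hQ : Q <;> simp [ind, hP, hQ]

variable {ι : Type*} [Fintype ι] [DecidableEq ι]

/-- weight of a coin -/
def wt (p : ℝ) (b : Bool) : ℝ := if b then p else 1 - p

/-- product weight -/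
def Wt (p : ℝ) (ω : ι → Bool) : ℝ := ∏ e, wt p (ω e)

/-- expectation -/
def Ex (p : ℝ) (f : (ι → Bool) → ℝ) : ℝ := ∑ ω, Wt p ω * f ω

/-- probability -/
noncomputable def Pr (p : ℝ) (E : (ι → Bool) → Prop) : ℝ := Ex p fun ω => ind (E ω)

variable {p : ℝ}

theorem Ex_prod (h : ι → Bool → ℝ) :
    Ex p (fun ω => ∏ e, h e (ω e)) = ∏ e, (p * h e true + (1 - p) * h e false) := by
  have := prod_univ_sum (fun _ : ι => (univ : Finset Bool)) fun e b => wt p b * h e b
  rw [Fintype.piFinset_univ] at this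
  simp only [Ex, Wt, ← prod_mul_distrib, ← this]
  simp [wt]

theorem sum_Wt : ∑ ω : ι → Bool, Wt p ω = 1 := by
  simpa [Ex] using Ex_prod (ι := ι) (p := p) fun _ _ => 1

theorem Ex_const (c : ℝ) : Ex p (fun _ : ι → Bool => c) = c := by
  rw [Ex, ← sum_mul, sum_Wt, one_mul]

theorem Ex_add (f g : (ι → Bool) → ℝ) : Ex p (fun ω => f ω + g ω) = Ex p f + Ex p g := by
  simp only [Ex, mul_add, sum_add_distrib]

theorem Ex_sub (f g : (ι → Bool) → ℝ) : Ex p (fun ω => f ω - g ω) = Ex p f - Ex p g := by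
  simp only [Ex, mul_sub, sum_sub_distrib]

theorem Ex_mul (c : ℝ) (f : (ι → Bool) → ℝ) : Ex p (fun ω => c * f ω) = c * Ex p f := by
  simp only [Ex, mul_sum]
  exact sum_congr rfl fun _ _ => by ring

theorem Ex_sum {α : Type*} (s : Finset α) (f : α → (ι → Bool) → ℝ) :
    Ex p (fun ω => ∑ a ∈ s, f a ω) = ∑ a ∈ s, Ex p (f a) := by
  simp only [Ex, mul_sum]
  exact sum_comm

theorem Wt_nonneg (h0 : 0 ≤ p) (h1 : p ≤ 1) (ω : ι → Bool) : 0 ≤ Wt p ω :=
  prod_nonneg fun e _ => by unfold wt; split_ifs <;> linarith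

theorem Ex_mono (h0 : 0 ≤ p) (h1 : p ≤ 1) {f g : (ι → Bool) → ℝ} (h : ∀ ω, f ω ≤ g ω) :
    Ex p f ≤ Ex p g :=
  sum_le_sum fun ω _ => mul_le_mul_of_nonneg_left (h ω) (Wt_nonneg h0 h1 ω)

theorem Ex_diag (S : Set ι) (F : (ι → Bool) → (ι → Bool) → ℝ)
    (h1 : ∀ ω', DependsOn (fun ω => F ω ω') S) (h2 : ∀ ω, DependsOn (F ω) Sᶜ) :
    Ex p (fun ω => F ω ω) = Ex p fun ω => Ex p (F ω) := by
  classical
  let σ : (ι → Bool) × (ι → Bool) → (ι → Bool) × (ι → Bool) := fun x =>
    (S.piecewise x.1 x.2, S.piecewise x.2 x.1)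
  have hσ : Function.Involutive σ := by
    rintro ⟨a, b⟩
    ext e <;> by_cases he : e ∈ S <;> simp [σ, he]
  have e1 : Ex p (fun ω => F ω ω) =
      ∑ x : (ι → Bool) × (ι → Bool), Wt p x.1 * Wt p x.2 * F x.1 x.1 := by
    rw [Fintype.sum_prod_type, Ex]
    refine sum_congr rfl fun a _ => ?_
    simp only
    rw [← sum_mul, ← mul_sum, sum_Wt, mul_one]
  have e2 : Ex p (fun ω => Ex p (F ω)) =
      ∑ x : (ι → Bool) × (ι → Bool), Wt p x.1 * Wt p x.2 * F x.1 x.2 := by
    rw [Fintype.sum_prod_type, Ex]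
    refine sum_congr rfl fun a _ => ?_
    simp only [Ex, mul_sum, mul_assoc]
  rw [e1, e2, ← hσ.bijective.sum_comp]
  refine sum_congr rfl fun x _ => ?_
  congr 1
  · simp only [Wt, ← prod_mul_distrib, σ]
    refine prod_congr rfl fun e _ => ?_
    by_cases he : e ∈ S <;> simp [he, mul_comm]
  · refine (h1 _ (y := x.1) fun e he => by simp [σ, he]).trans (h2 _ fun e he => ?_)
    have : e ∉ S := he
    simp [σ, this]

theorem Ex_indep {S T : Set ι} {f g : (ι → Bool) → ℝ} (hf : DependsOn f S) (hg : DependsOn g T)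
    (h : Disjoint S T) : Ex p (fun ω => f ω * g ω) = Ex p f * Ex p g := by
  rw [Ex_diag S (fun ω ω' => f ω * g ω') (fun ω' a b hab => by simp only [hf hab])
    (fun ω a b hab => congrArg (f ω * ·) (hg.mono h.subset_compl_left hab))]
  simp only [Ex_mul]
  rw [mul_comm, ← Ex_mul]
  simp only [mul_comm]

theorem Ex_prod_indep {α : Type*} (s : Finset α) (S : α → Set ι) (f : α → (ι → Bool) → ℝ)
    (hf : ∀ a ∈ s, DependsOn (f a) (S a)) (h : (s : Set α).PairwiseDisjoint S) :
    Ex p (fun ω => ∏ a ∈ s, f a ω) = ∏ a ∈ s, Ex p (f a) := by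
  classical
  induction s using Finset.induction_on with
  | empty => simpa using Ex_const 1
  | insert a s ha ih =>
    simp only [prod_insert ha]
    rw [Ex_indep (S := S a) (T := ⋃ b ∈ s, S b) (hf a (mem_insert_self a s)),
      ih (fun b hb => hf b (mem_insert_of_mem hb)) (h.subset (by simp))]
    · intro x y hxy
      exact prod_congr rfl fun b hb => hf b (mem_insert_of_mem hb) fun e he =>
        hxy e (Set.mem_biUnion hb he)
    · rw [Set.disjoint_iUnion₂_right]
      intro b hb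
      exact h (by simp) (by simp [hb]) (fun e => ha (e ▸ hb))

theorem Pr_coord (e : ι) : Pr p (fun ω : ι → Bool => ¬ ω e = true) = 1 - p := by
  have := Ex_prod (p := p) fun (e' : ι) (b : Bool) => if e' = e then ind (¬ b = true) else 1
  simp only [prod_ite_eq', mem_univ, if_true] at this
  rw [Pr, this, prod_eq_single e] <;> simp +contextual [ind]

theorem Pr_not (E : (ι → Bool) → Prop) : Pr p (fun ω => ¬ E ω) = 1 - Pr p E := by
  simp only [Pr, ind_not]
  rw [Ex_sub, Ex_const]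

theorem Pr_mono (h0 : 0 ≤ p) (h1 : p ≤ 1) {E F : (ι → Bool) → Prop} (h : ∀ ω, E ω → F ω) :
    Pr p E ≤ Pr p F := Ex_mono h0 h1 fun ω => ind_mono (h ω)

theorem Pr_or (h0 : 0 ≤ p) (h1 : p ≤ 1) (E F : (ι → Bool) → Prop) :
    Pr p (fun ω => E ω ∨ F ω) ≤ Pr p E + Pr p F := by
  rw [Pr, Pr, Pr, ← Ex_add]
  refine Ex_mono h0 h1 fun ω => ?_
  by_cases hE : E ω <;> by_cases hF : F ω <;> simp [ind, hE, hF]

theorem Pr_exists (h0 : 0 ≤ p) (h1 : p ≤ 1) {α : Type*} (s : Finset α)
    (E : α → (ι → Bool) → Prop) : Pr p (fun ω => ∃ a ∈ s, E a ω) ≤ ∑ a ∈ s, Pr p (E a) := by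
  simp only [Pr]
  rw [← Ex_sum]
  refine Ex_mono h0 h1 fun ω => ?_
  by_cases h : ∃ a ∈ s, E a ω
  · obtain ⟨a, ha, hE⟩ := h
    refine (ind_le_one _).trans ?_
    rw [← ind_pos hE]
    exact single_le_sum (f := fun a => ind (E a ω)) (fun _ _ => ind_nonneg _) ha
  · rw [ind_neg h]; exact sum_nonneg fun _ _ => ind_nonneg _

theorem markov (h0 : 0 ≤ p) (h1 : p ≤ 1) {f : (ι → Bool) → ℝ} (hf : ∀ ω, 0 ≤ f ω) {c : ℝ}
    (hc : 0 < c) : Pr p (fun ω => c ≤ f ω) ≤ Ex p f / c := by
  rw [div_eq_inv_mul, ← Ex_mul]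
  refine Ex_mono h0 h1 fun ω => ?_
  by_cases h : c ≤ f ω
  · rw [ind_pos h, ← div_eq_inv_mul, one_le_div hc]; exact h
  · rw [ind_neg h]; exact mul_nonneg (inv_nonneg.mpr hc.le) (hf ω)

omit [Fintype ι] [DecidableEq ι] in
theorem dep_ind {S : Set ι} {E : (ι → Bool) → Prop} (h : DependsOn E S) :
    DependsOn (fun ω => ind (E ω)) S := fun _ _ hxy => congrArg ind (h hxy)

/-- first and second moment of a count of pairwise independent events -/
theorem count_moments {α : Type*} (R : Finset α) (S : α → Set ι)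
    (E : α → (ι → Bool) → Prop) (hE : ∀ v ∈ R, DependsOn (E v) (S v))
    (hS : (R : Set α).PairwiseDisjoint S) {π : ℝ} (hπ : ∀ v ∈ R, Pr p (E v) = π) :
    Ex p (fun ω => ∑ v ∈ R, ind (E v ω)) = R.card * π ∧
    Ex p (fun ω => (∑ v ∈ R, ind (E v ω)) ^ 2) ≤ (R.card * π) ^ 2 + R.card * π := by
  classical
  constructor
  · rw [Ex_sum]
    exact (sum_congr rfl hπ).trans (by simp)
  · simp only [sq, sum_mul_sum]
    rw [Ex_sum]
    have : ∀ u ∈ R, Ex p (fun ω => ∑ v ∈ R, ind (E u ω) * ind (E v ω)) ≤ R.card * π * π + π := by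
      intro u hu
      rw [Ex_sum, ← add_sum_erase _ _ hu]
      have e1 : Ex p (fun ω => ind (E u ω) * ind (E u ω)) = π := by
        simp only [← ind_and, and_self]; exact hπ u hu
      have e2 : ∑ v ∈ R.erase u, Ex p (fun ω => ind (E u ω) * ind (E v ω)) =
          (R.erase u).card * (π * π) := by
        rw [sum_congr rfl (g := fun _ => π * π) fun v hv => ?_]
        · simp
        · have hv' := mem_of_mem_erase hv
          rw [Ex_indep (dep_ind (hE u hu)) (dep_ind (hE v hv'))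
            (hS hu hv' (ne_of_mem_erase hv).symm)]
          exact congrArg₂ _ (hπ u hu) (hπ v hv')
      rw [e1, e2]
      have : ((R.erase u).card : ℝ) ≤ R.card := by exact_mod_cast card_erase_le
      nlinarith [mul_self_nonneg π]
    refine (sum_le_sum this).trans (le_of_eq ?_)
    simp; ring

/-- the graph of a configuration -/
def gr {V : Type*} (ω : Sym2 V → Bool) : SimpleGraph V where
  Adj u v := u ≠ v ∧ ω s(u, v) = true
  symm := ⟨fun u v h => ⟨h.1.symm, by rw [Sym2.eq_swap]; exact h.2⟩⟩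
  loopless := ⟨fun u h => h.1 rfl⟩

open Classical in
theorem sum_graph {n : ℕ} (P : SimpleGraph (Fin n) → Prop) :
    ∑ G ∈ univ.filter P, p ^ G.edgeSet.ncard * (1 - p) ^ (n.choose 2 - G.edgeSet.ncard) =
      Pr p fun ω : Sym2 (Fin n) → Bool => P (gr ω) := by
  have h1 : ∀ G : SimpleGraph (Fin n), Pr p (fun ω : Sym2 (Fin n) → Bool => gr ω = G) =
      p ^ G.edgeSet.ncard * (1 - p) ^ (n.choose 2 - G.edgeSet.ncard) := by
    intro G
    have := Ex_prod (p := p) fun (e : Sym2 (Fin n)) (b : Bool) =>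
      ind (¬ e.IsDiag → (b = true ↔ e ∈ G.edgeSet))
    have e0 : ∀ ω : Sym2 (Fin n) → Bool, ind (gr ω = G) =
        ∏ e, ind (¬ e.IsDiag → (ω e = true ↔ e ∈ G.edgeSet)) := by
      intro ω
      rw [← ind_forall]
      refine ind_congr ⟨fun h e _ => ?_, fun h => ?_⟩
      · induction e using Sym2.ind with
        | h u v => subst h; simp +contextual [gr]
      · ext u v
        by_cases huv : u = v
        · simp [huv]
        · have := h s(u, v) (mem_univ _) (by simpa using huv)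
          simp [gr, huv, this]
    simp only [Pr, e0]
    rw [this]
    have e1 : ∀ e : Sym2 (Fin n), p * ind (¬ e.IsDiag → (true = true ↔ e ∈ G.edgeSet)) +
        (1 - p) * ind (¬ e.IsDiag → (false = true ↔ e ∈ G.edgeSet)) =
        (if e ∈ G.edgeFinset then p else 1) *
          (if e ∈ (univ.filter fun e : Sym2 (Fin n) => ¬ e.IsDiag) \ G.edgeFinset then 1 - p
            else 1) := by
      intro e
      by_cases h : e ∈ G.edgeSet
      · have := G.not_isDiag_of_mem_edgeSet h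
        simp [ind, h, this]
      · by_cases hd : e.IsDiag <;> simp [ind, h, hd]
    rw [prod_congr rfl fun e _ => e1 e]
    simp only [prod_mul_distrib, prod_ite_mem, univ_inter, prod_const]
    have e2 : G.edgeSet.ncard = G.edgeFinset.card := by
      rw [← SimpleGraph.coe_edgeFinset, Set.ncard_coe_finset]
    have e3 : (univ.filter fun e : Sym2 (Fin n) => ¬ e.IsDiag).card = n.choose 2 := by
      rw [← Fintype.card_subtype, Sym2.card_subtype_not_diag, Fintype.card_fin]
    rw [card_sdiff_of_subset (fun e he => by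
      simpa using G.not_isDiag_of_mem_edgeSet (SimpleGraph.mem_edgeFinset.mp he)), e2, e3]
  simp only [← h1, Pr]
  rw [← Ex_sum]
  congr 1
  funext ω
  by_cases h : P (gr ω)
  · rw [ind_pos h, sum_eq_single (gr ω)]
    · exact ind_pos rfl
    · exact fun G _ hG => ind_neg (Ne.symm hG)
    · simp [h]
  · rw [ind_neg h]
    exact sum_eq_zero fun G hG => ind_neg fun e => h (e ▸ (mem_filter.mp hG).2)

end Pool.Agent.H439Z.RG
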