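import Mathlib
import Pool.Agent.H439Z.RG1
import Pool.Agent.H439Z.RG2

set_option autoImplicit false

open Finset

namespace Pool.Agent.H439Z.RG

variable {V : Type*}

/-- `v` has a neighbour in `A` -/
def hit (G : SimpleGraph V) (v : V) (A : Finset V) : Prop := ∃ a ∈ A, G.Adj v a

/-- the ground set of a state -/
def ground {k : ℕ} (A : Fin k → Finset V) (R : Finset V) : Set V := {v | v ∈ R ∨ ∃ j, v ∈ A j}

/-- the refinement of depth `r` separates the points of the ground set -/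
def Good (G : SimpleGraph V) (r : ℕ) {k : ℕ} (A : Fin k → Finset V) (R : Finset V) : Prop :=
  ∀ u ∈ ground A R, ∀ v ∈ ground A R,
    bis G G (ground A R) (ground A R) (fun u v => ∀ j, u ∈ A j ↔ v ∈ A j) r u v → u = v

/-- the points of the coins have different neighbourhoods in the rest -/
def Nb (G : SimpleGraph V) {k : ℕ} (A : Fin k → Finset V) (R : Finset V) : Prop :=
  ∀ u v, (∃ j, u ∈ A j) → (∃ j, v ∈ A j) → (∀ z ∈ R, G.Adj u z ↔ G.Adj v z) → u = v

/-- the new coins are unions of pattern classes -/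
def Valid (G : SimpleGraph V) {k k' : ℕ} (A : Fin k → Finset V) (R : Finset V)
    (A' : Fin k' → Finset V) : Prop :=
  (∀ j, A' j ⊆ R) ∧ ∀ u ∈ R, ∀ v ∈ R, (∀ j, hit G u (A j) ↔ hit G v (A j)) →
    ∀ j, u ∈ A' j ↔ v ∈ A' j

theorem bis_le {G : SimpleGraph V} {S : Set V} {E : V → V → Prop} {r r' : ℕ} (h : r ≤ r')
    {u v : V} (hb : bis G G S S E r' u v) : bis G G S S E r u v := by
  induction h with
  | refl => exact hb
  | step _ ih => exact ih hb.1

theorem Good.mono {G : SimpleGraph V} {r r' k : ℕ} {A : Fin k → Finset V} {R : Finset V}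
    (h : Good G r A R) (hr : r ≤ r') : Good G r' A R :=
  fun u hu v hv hb => h u hu v hv (bis_le hr hb)

section step

variable {G : SimpleGraph V} {k : ℕ} {A : Fin k → Finset V} {R : Finset V}

theorem memR (hd : ∀ j, Disjoint (A j) R) {u v : V} (hu : u ∈ ground A R) (hv : v ∈ ground A R)
    {r : ℕ} (h : bis G G (ground A R) (ground A R) (fun u v => ∀ j, u ∈ A j ↔ v ∈ A j) r u v) :
    u ∈ R ↔ v ∈ R := by
  have h0 : ∀ j, u ∈ A j ↔ v ∈ A j := bis_le (Nat.zero_le r) h
  constructor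
  · intro h1
    rcases hv with h2 | ⟨j, h2⟩
    · exact h2
    · exact absurd h1 (disjoint_left.mp (hd j) ((h0 j).mpr h2))
  · intro h1
    rcases hu with h2 | ⟨j, h2⟩
    · exact h2
    · exact absurd h1 (disjoint_left.mp (hd j) ((h0 j).mp h2))

theorem hit_of_bis {u v : V}
    (h : bis G G (ground A R) (ground A R) (fun u v => ∀ j, u ∈ A j ↔ v ∈ A j) 1 u v) (j : Fin k) :
    hit G u (A j) ↔ hit G v (A j) := by
  constructor
  · rintro ⟨a, ha, h1⟩
    obtain ⟨w, _, h2, h3⟩ := h.2.1 a (Or.inr ⟨j, ha⟩) h1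
    exact ⟨w, (h3 j).mp ha, h2⟩
  · rintro ⟨a, ha, h1⟩
    obtain ⟨w, _, h2, h3⟩ := h.2.2 a (Or.inr ⟨j, ha⟩) h1
    exact ⟨w, (h3 j).mpr ha, h2⟩

theorem good_of_rest (hd : ∀ j, Disjoint (A j) R) {r : ℕ} (h : ∀ u ∈ R, ∀ v ∈ R,
    bis G G (ground A R) (ground A R) (fun u v => ∀ j, u ∈ A j ↔ v ∈ A j) (r + 1) u v → u = v)
    (hN : Nb G A R) : Good G (r + 2) A R := by
  intro u hu v hv hb
  by_cases huR : u ∈ R
  · exact h u huR v ((memR hd hu hv hb).mp huR) hb.1
  · have hvR : v ∉ R := fun h => huR ((memR hd hu hv hb).mpr h)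
    refine hN u v (hu.resolve_left huR) (hv.resolve_left hvR) fun z hz => ⟨fun h1 => ?_, fun h1 => ?_⟩
    · obtain ⟨w, hw, h2, h3⟩ := hb.2.1 z (Or.inl hz) h1
      rwa [h z hz w ((memR hd (Or.inl hz) hw h3).mp hz) h3]
    · obtain ⟨w, hw, h2, h3⟩ := hb.2.2 z (Or.inl hz) h1
      rwa [← h w ((memR hd hw (Or.inl hz) h3).mpr hz) z hz h3]

theorem good_final (hd : ∀ j, Disjoint (A j) R)
    (h : ∀ u ∈ R, ∀ v ∈ R, (∀ j, hit G u (A j) ↔ hit G v (A j)) → u = v) (hN : Nb G A R) :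
    Good G 2 A R :=
  good_of_rest hd (r := 0) (fun u hu v hv hb => h u hu v hv (hit_of_bis hb)) hN

theorem ground_next [DecidableEq V] {k' : ℕ} {A' : Fin k' → Finset V} (h : ∀ j, A' j ⊆ R) :
    ground A' (R \ univ.biUnion A') = R := by
  ext v
  simp only [ground, Set.mem_setOf_eq, mem_sdiff, mem_biUnion, mem_univ, true_and, mem_coe]
  constructor
  · rintro (h1 | ⟨j, h1⟩)
    · exact h1.1
    · exact h j h1
  · tauto

theorem good_step [DecidableEq V] (hd : ∀ j, Disjoint (A j) R) {k' r : ℕ} {A' : Fin k' → Finset V}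
    (hV : Valid G A R A') (hG : Good G r A' (R \ univ.biUnion A')) (hN : Nb G A R) :
    Good G (r + 2) A R := by
  refine good_of_rest hd (fun u hu v hv hb => ?_) hN
  unfold Good at hG
  rw [ground_next hV.1] at hG
  refine hG u hu v hv ?_
  clear hG
  induction r generalizing u v with
  | zero => exact hV.2 u hu v hv (hit_of_bis hb)
  | succ r ih =>
    refine ⟨ih u hu v hv hb.1, fun w hw h1 => ?_, fun w hw h1 => ?_⟩
    · obtain ⟨w', hw', h2, h3⟩ := hb.2.1 w (Or.inl hw) h1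
      have := (memR hd (Or.inl hw) hw' h3).mp hw
      exact ⟨w', this, h2, ih w hw w' this h3⟩
    · obtain ⟨w', hw', h2, h3⟩ := hb.2.2 w (Or.inl hw) h1
      have := (memR hd hw' (Or.inl hw) h3).mpr hw
      exact ⟨w', this, h2, ih w' this w hw h3⟩

end step

theorem bis_congr {G G' : SimpleGraph V} {S : Set V} {E : V → V → Prop}
    (h : ∀ u ∈ S, ∀ v ∈ S, G.Adj u v ↔ G'.Adj u v) (r : ℕ) :
    ∀ u ∈ S, ∀ v ∈ S, bis G G S S E r u v ↔ bis G' G' S S E r u v := by
  induction r with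
  | zero => exact fun _ _ _ _ => Iff.rfl
  | succ r ih =>
    intro u hu v hv
    refine and_congr (ih u hu v hv) (and_congr ?_ ?_)
    · exact forall₂_congr fun w hw => imp_congr (h u hu w hw) (exists_congr fun w' =>
        and_congr_right fun hw' => and_congr (h v hv w' hw') (ih w hw w' hw'))
    · exact forall₂_congr fun w hw => imp_congr (h v hv w hw) (exists_congr fun w' =>
        and_congr_right fun hw' => and_congr (h u hu w' hw') (ih w' hw' w hw))

/-- the pairs between two sets -/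
def es (X Y : Set V) : Set (Sym2 V) := {e | ∃ x ∈ X, ∃ y ∈ Y, e = s(x, y)}

theorem es_disjoint {X Y X' Y' : Set V} (h1 : Disjoint X X' ∨ Disjoint Y Y')
    (h2 : Disjoint X Y' ∨ Disjoint Y X') : Disjoint (es X Y) (es X' Y') := by
  rw [Set.disjoint_left]
  rintro _ ⟨x, hx, y, hy, rfl⟩ ⟨x', hx', y', hy', h⟩
  rcases Sym2.eq_iff.mp h with ⟨rfl, rfl⟩ | ⟨rfl, rfl⟩
  · exact h1.elim (fun h => Set.disjoint_left.mp h hx hx') fun h => Set.disjoint_left.mp h hy hy'
  · exact h2.elim (fun h => Set.disjoint_left.mp h hx hy') fun h => Set.disjoint_left.mp h hy hx'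

theorem es_mono {X Y X' Y' : Set V} (h1 : X ⊆ X') (h2 : Y ⊆ Y') : es X Y ⊆ es X' Y' :=
  fun _ ⟨x, hx, y, hy, h⟩ => ⟨x, h1 hx, y, h2 hy, h⟩

theorem adj_congr {ω ω' : Sym2 V → Bool} {X Y : Set V} (h : ∀ e ∈ es X Y, ω e = ω' e) {u v : V}
    (hu : u ∈ X) (hv : v ∈ Y) : (gr ω).Adj u v ↔ (gr ω').Adj u v := by
  simp only [gr, h _ ⟨u, hu, v, hv, rfl⟩]

theorem hit_congr {ω ω' : Sym2 V → Bool} {X Y : Set V} (h : ∀ e ∈ es X Y, ω e = ω' e) {u : V}
    (hu : u ∈ X) {A : Finset V} (hA : ↑A ⊆ Y) : hit (gr ω) u A ↔ hit (gr ω') u A :=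
  exists_congr fun _ => and_congr_right fun ha => adj_congr h hu (hA ha)

theorem good_congr {ω ω' : Sym2 V → Bool} {k r : ℕ} {A : Fin k → Finset V} {R : Finset V}
    (h : ∀ e ∈ es (ground A R) (ground A R), ω e = ω' e) :
    Good (gr ω) r A R ↔ Good (gr ω') r A R :=
  forall₂_congr fun u hu => forall₂_congr fun v hv => imp_congr_left
    (bis_congr (fun _ ha _ hb => adj_congr h ha hb) r u hu v hv)

theorem merge {Y : Type*} [DecidableEq Y] (w : Y → ℕ) {θ : ℕ} (hθ : 1 ≤ θ) (k : ℕ) :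
    ∀ s : Finset Y, (∀ y ∈ s, w y ≤ θ) → k * (2 * θ) ≤ ∑ y ∈ s, w y →
      ∃ T : Fin k → Finset Y, (∀ j, T j ⊆ s) ∧ (∀ i j, i ≠ j → Disjoint (T i) (T j)) ∧
        ∀ j, θ ≤ ∑ y ∈ T j, w y ∧ ∑ y ∈ T j, w y < 2 * θ := by
  induction k with
  | zero => exact fun s _ _ => ⟨Fin.elim0, fun j => j.elim0, fun j => j.elim0, fun j => j.elim0⟩
  | succ k ih =>
    intro s hs hk
    obtain ⟨t, ht, hmin⟩ := exists_min_image (s.powerset.filter fun t => θ ≤ ∑ y ∈ t, w y) card
      ⟨s, by rw [mem_filter, mem_powerset]; exact ⟨subset_rfl, by nlinarith⟩⟩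
    rw [mem_filter, mem_powerset] at ht
    have hne : t.Nonempty := by
      rw [nonempty_iff_ne_empty]
      rintro rfl
      simp at ht
      omega
    obtain ⟨y, hy⟩ := hne
    have h1 : ∑ y ∈ t, w y < 2 * θ := by
      by_contra hc
      have e := add_sum_erase t w hy
      have := hs y (ht.1 hy)
      have := hmin (t.erase y) (by
        rw [mem_filter, mem_powerset]
        exact ⟨(erase_subset _ _).trans ht.1, by omega⟩)
      have := card_erase_lt_of_mem hy
      omega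
    have e := sum_sdiff (f := w) ht.1
    obtain ⟨T, a1, a2, a3⟩ := ih (s \ t) (fun y hy => hs y (sdiff_subset hy)) (by nlinarith)
    have hdj : ∀ j, Disjoint t (T j) := fun j => disjoint_sdiff.mono_right (a1 j)
    refine ⟨Fin.cons t T, fun j => ?_, fun i j hij => ?_, fun j => ?_⟩
    · refine Fin.cases ht.1 (fun j => (a1 j).trans sdiff_subset) j
    · revert hij
      refine Fin.cases ?_ (fun i => ?_) i <;> refine Fin.cases ?_ (fun j => ?_) j
      · simp
      · exact fun _ => hdj j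
      · exact fun _ => (hdj i).symm
      · exact fun h => a2 i j fun e => h (congrArg Fin.succ e)
    · exact Fin.cases ⟨ht.2, h1⟩ a3 j

variable [Fintype V] [DecidableEq V] {p : ℝ}

/-- the probability of hitting `A` -/
def qq (p : ℝ) (A : Finset V) : ℝ := 1 - (1 - p) ^ A.card

omit [Fintype V] [DecidableEq V] in
theorem dep_hit (v : V) (A : Finset V) :
    DependsOn (fun ω : Sym2 V → Bool => hit (gr ω) v A) (es {v} A) :=
  fun _ _ h => propext (hit_congr h rfl subset_rfl)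

theorem Pr_not_hit {v : V} {A : Finset V} (hv : v ∉ A) :
    Pr p (fun ω : Sym2 V → Bool => ¬ hit (gr ω) v A) = 1 - qq p A := by
  have e : ∀ ω : Sym2 V → Bool, ind (¬ hit (gr ω) v A) = ∏ a ∈ A, ind (¬ ω s(v, a) = true) := by
    intro ω
    rw [← ind_forall]
    refine ind_congr ?_
    simp only [hit, not_exists, not_and, gr]
    exact forall₂_congr fun a ha => ⟨fun h => h fun e => hv (e ▸ ha), fun h _ => h⟩
  simp only [Pr, e]
  rw [Ex_prod_indep A (fun a => {s(v, a)}) (fun a ω => ind (¬ ω s(v, a) = true))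
    (fun a _ x y h => by simp only [h _ rfl])
    (fun a _ b _ hab => Set.disjoint_singleton.mpr fun h => hab (Sym2.congr_right.mp h))]
  refine (prod_congr rfl fun a _ => Pr_coord (p := p) s(v, a)).trans ?_
  simp [qq]

theorem Pr_hit {v : V} {A : Finset V} (hv : v ∉ A) :
    Pr p (fun ω : Sym2 V → Bool => hit (gr ω) v A) = qq p A := by
  have := Pr_not_hit (p := p) hv
  rw [Pr_not] at this
  linarith

theorem Pr_same (h0 : 0 ≤ p) (h1 : p ≤ 1) {κ : Type*} (s : Finset κ) (B : κ → Finset V)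
    (hB : ∀ i ∈ s, ∀ j ∈ s, i ≠ j → Disjoint (B i) (B j)) {u v : V} (huv : u ≠ v)
    (hu : ∀ j ∈ s, u ∉ B j) (hv : ∀ j ∈ s, v ∉ B j) (hq : ∀ j ∈ s, qq p (B j) ≤ 1 / 2) :
    Pr p (fun ω : Sym2 V → Bool => ∀ j ∈ s, (hit (gr ω) u (B j) ↔ hit (gr ω) v (B j))) ≤
      Real.exp (-∑ j ∈ s, qq p (B j)) := by
  simp only [Pr, ind_forall]
  rw [Ex_prod_indep s (fun j => es {u, v} (B j))
    (fun j ω => ind (hit (gr ω) u (B j) ↔ hit (gr ω) v (B j)))
    (fun j _ x y h => ind_congr (iff_congr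
    (hit_congr h (by simp) subset_rfl) (hit_congr h (by simp) subset_rfl)))
    (fun i hi j hj hij => es_disjoint (Or.inr (by simpa using hB i hi j hj hij))
      (Or.inl (by simp [hu j hj, hv j hj]))), ← sum_neg_distrib, Real.exp_sum]
  refine prod_le_prod (fun j _ => ?_) fun j hj => ?_
  · rw [← Ex_const (ι := Sym2 V) (p := p) 0]
    exact Ex_mono h0 h1 fun ω => ind_nonneg _
  · have hd : Disjoint (es {u} (B j)) (es {v} (B j : Set V)) :=
      es_disjoint (Or.inl (by simpa using huv)) (Or.inl (by simp [hu j hj]))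
    simp only [ind_iff]
    rw [Ex_add, Ex_indep (dep_ind (dep_hit u _)) (dep_ind (dep_hit v _)) hd,
      Ex_indep (S := es {u} (B j)) (T := es {v} (B j))
        (dep_ind fun x y h => congrArg Not (dep_hit u _ h))
        (dep_ind fun x y h => congrArg Not (dep_hit v _ h)) hd]
    have e1 := Pr_hit (p := p) (hu j hj)
    have e2 := Pr_hit (p := p) (hv j hj)
    have e3 := Pr_not_hit (p := p) (hu j hj)
    have e4 := Pr_not_hit (p := p) (hv j hj)
    unfold Pr at e1 e2 e3 e4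
    rw [e1, e2, e3, e4]
    have k1 := hq j hj
    have k2 : 0 ≤ qq p (B j) := sub_nonneg.mpr (pow_le_one₀ (by linarith) (by linarith))
    have k3 := Real.add_one_le_exp (-qq p (B j))
    nlinarith

theorem Pr_atom {k : ℕ} {A : Fin k → Finset V} (hA : ∀ i j, i ≠ j → Disjoint (A i) (A j)) {v : V}
    (hv : ∀ j, v ∉ A j) {P Z : Finset (Fin k)} (hPZ : Disjoint P Z) :
    Pr p (fun ω : Sym2 V → Bool => (∀ j ∈ P, hit (gr ω) v (A j)) ∧ ∀ j ∈ Z, ¬ hit (gr ω) v (A j)) =
      (∏ j ∈ P, qq p (A j)) * ∏ j ∈ Z, (1 - qq p (A j)) := by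
  have e : ∀ ω : Sym2 V → Bool,
      ind ((∀ j ∈ P, hit (gr ω) v (A j)) ∧ ∀ j ∈ Z, ¬ hit (gr ω) v (A j)) =
      ∏ j ∈ P ∪ Z, ind (hit (gr ω) v (A j) ↔ j ∈ P) := by
    intro ω
    rw [prod_union hPZ, ind_and, ind_forall, ind_forall]
    congr 1
    · exact prod_congr rfl fun j hj => ind_congr (by simp [hj])
    · exact prod_congr rfl fun j hj => ind_congr (by simp [disjoint_right.mp hPZ hj])
  simp only [Pr, e]
  rw [Ex_prod_indep (P ∪ Z) (fun j => es {v} (A j)) (fun j ω => ind (hit (gr ω) v (A j) ↔ j ∈ P))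
    (fun j _ x y h => ind_congr (iff_congr (hit_congr h rfl subset_rfl) Iff.rfl))
    (fun i _ j _ hij => es_disjoint (Or.inr (by simpa using hA i j hij)) (Or.inl (by simp [hv j]))),
    prod_union hPZ]
  congr 1
  · refine prod_congr rfl fun j hj => ?_
    simp only [hj, iff_true]
    exact Pr_hit (hv j)
  · refine prod_congr rfl fun j hj => ?_
    simp only [disjoint_right.mp hPZ hj, iff_false]
    exact Pr_not_hit (hv j)

end Pool.Agent.H439Z.RG
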