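import Mathlib
import Pool.Agent.H439Z.RG3

set_option autoImplicit false

open Finset

namespace Pool.Agent.H439Z.RG

variable {V : Type*}

/-- disjoint coins of size between `θ` and `2θ - 1`, outside the rest `R` -/
structure Coins {k : ℕ} (A : Fin k → Finset V) (R : Finset V) (θ : ℕ) : Prop where
  dj : ∀ i j, i ≠ j → Disjoint (A i) (A j)
  dR : ∀ j, Disjoint (A j) R
  lo : ∀ j, θ ≤ (A j).card
  hi : ∀ j, (A j).card < 2 * θ

/-- the next coins exist -/
def StageOK [DecidableEq V] (G : SimpleGraph V) {k : ℕ} (A : Fin k → Finset V) (R : Finset V)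
    (k' θ' : ℕ) : Prop :=
  ∃ A' : Fin k' → Finset V, Valid G A R A' ∧ Coins A' (R \ univ.biUnion A') θ'

/-- the vertex `v` lies in the atom `y` -/
def atm (G : SimpleGraph V) {k : ℕ} (A : Fin k → Finset V) (D T y : Finset (Fin k)) (v : V) : Prop :=
  (∀ j ∈ y ∪ T, hit G v (A j)) ∧ ∀ j ∈ D \ y, ¬ hit G v (A j)

theorem atm_unique {G : SimpleGraph V} {k : ℕ} {A : Fin k → Finset V} {D T y y' : Finset (Fin k)}
    {v : V} (hy : y ⊆ D) (hy' : y' ⊆ D) (h : atm G A D T y v) (h' : atm G A D T y' v) : y = y' := by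
  ext j
  constructor
  · intro hj
    by_contra hc
    exact h'.2 j (mem_sdiff.mpr ⟨hy hj, hc⟩) (h.1 j (mem_union_left _ hj))
  · intro hj
    by_contra hc
    exact h.2 j (mem_sdiff.mpr ⟨hy' hj, hc⟩) (h'.1 j (mem_union_left _ hj))

theorem ind_exists_unique {α : Type*} (s : Finset α) (P : α → Prop)
    (h : ∀ a ∈ s, ∀ b ∈ s, P a → P b → a = b) : ind (∃ a ∈ s, P a) = ∑ a ∈ s, ind (P a) := by
  by_cases hc : ∃ a ∈ s, P a
  · rw [ind_pos hc]
    obtain ⟨a, ha, hP⟩ := hc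
    rw [sum_eq_single a (fun b hb hne => ind_neg fun hb' => hne (h b hb a ha hb' hP))
      (fun h => absurd ha h), ind_pos hP]
  · rw [ind_neg hc]
    exact (sum_eq_zero fun a ha => ind_neg fun hP => hc ⟨a, ha, hP⟩).symm

theorem card_ind {α : Type*} (s : Finset α) (P : α → Prop) [DecidablePred P] :
    ((s.filter P).card : ℝ) = ∑ a ∈ s, ind (P a) := by
  rw [card_filter]
  push_cast
  refine sum_congr rfl fun a _ => ?_
  by_cases h : P a <;> simp [ind, h]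

theorem stage_det [DecidableEq V] {G : SimpleGraph V} {k : ℕ} {A : Fin k → Finset V} {R : Finset V}
    {D T : Finset (Fin k)} {Y : Finset (Finset (Fin k))} (hY : ∀ y ∈ Y, y ⊆ D) {k' θ' : ℕ}
    (hθ : 1 ≤ θ') (h : (k' * (2 * θ') : ℝ) ≤ ∑ y ∈ Y, (∑ v ∈ R, ind (atm G A D T y v)) -
      ∑ y ∈ Y, (∑ v ∈ R, ind (atm G A D T y v)) * ind ((θ' : ℝ) < ∑ v ∈ R, ind (atm G A D T y v))) :
    StageOK G A R k' θ' := by
  classical
  let w : Finset (Fin k) → ℕ := fun y => (R.filter (atm G A D T y)).card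
  have hw : ∀ y, ∑ v ∈ R, ind (atm G A D T y v) = w y := fun y => (card_ind R _).symm
  simp only [hw] at h
  obtain ⟨S, a1, a2, a3⟩ := merge w hθ k' (Y.filter fun y => w y ≤ θ')
    (fun y hy => (mem_filter.mp hy).2) (by
      have : ((∑ y ∈ Y.filter fun y => w y ≤ θ', w y : ℕ) : ℝ) =
          ∑ y ∈ Y, (w y : ℝ) - ∑ y ∈ Y, (w y : ℝ) * ind ((θ' : ℝ) < w y) := by
        rw [← sum_sub_distrib, sum_filter]
        push_cast
        refine sum_congr rfl fun y _ => ?_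
        split_ifs with hy
        · rw [ind_neg (by exact_mod_cast not_lt.mpr hy)]; ring
        · rw [ind_pos (by exact_mod_cast not_le.mp hy)]; ring
      rw [← this] at h
      exact_mod_cast h)
  have hSD : ∀ j, ∀ y ∈ S j, y ⊆ D := fun j y hy => hY y (mem_filter.mp (a1 j hy)).1
  let A' : Fin k' → Finset V := fun j => R.filter fun v => ∃ y ∈ S j, atm G A D T y v
  have hcard : ∀ j, (A' j).card = ∑ y ∈ S j, w y := by
    intro j
    have : ((A' j).card : ℝ) = ((∑ y ∈ S j, w y : ℕ) : ℝ) := by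
      simp only [A']
      rw [card_ind]
      push_cast
      simp only [← hw]
      rw [sum_comm]
      exact sum_congr rfl fun v _ => ind_exists_unique _ _ fun a ha b hb =>
        atm_unique (hSD j a ha) (hSD j b hb)
    exact_mod_cast this
  refine ⟨A', ⟨fun j => filter_subset _ _, fun u hu v hv huv j => ?_⟩, fun i j hij => ?_,
    fun j => ?_, fun j => ?_, fun j => ?_⟩
  · simp only [A', mem_filter, hu, hv, true_and, atm, huv]
  · rw [disjoint_left]
    intro v h1 h2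
    obtain ⟨y, hy, h3⟩ := (mem_filter.mp h1).2
    obtain ⟨y', hy', h4⟩ := (mem_filter.mp h2).2
    rw [atm_unique (hSD i y hy) (hSD j y' hy') h3 h4] at hy
    exact disjoint_left.mp (a2 i j hij) hy hy'
  · exact disjoint_sdiff.mono_left (subset_biUnion_of_mem A' (mem_univ j))
  · rw [hcard]; exact (a3 j).1
  · rw [hcard]; exact (a3 j).2

variable [Fintype V] [DecidableEq V] {p : ℝ}

/-- probability of an atom -/
def piA (p : ℝ) {k : ℕ} (A : Fin k → Finset V) (D T y : Finset (Fin k)) : ℝ :=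
  (∏ j ∈ y ∪ T, qq p (A j)) * ∏ j ∈ D \ y, (1 - qq p (A j))

theorem stage (h0 : 0 ≤ p) (h1 : p ≤ 1) {k θ : ℕ} {A : Fin k → Finset V} {R : Finset V}
    (hc : Coins A R θ) {D T : Finset (Fin k)} (hDT : Disjoint D T) {Y : Finset (Finset (Fin k))}
    (hY : ∀ y ∈ Y, y ⊆ D) {k' θ' : ℕ} (hθ : 1 ≤ θ') {s M₀ β : ℝ}
    (hs : ∀ y ∈ Y, R.card * piA p A D T y ≤ s) (hM : M₀ ≤ ∑ y ∈ Y, R.card * piA p A D T y)
    (hM0 : 0 < M₀) (hβ : s / θ' ≤ β ∨ (2 * s ≤ θ' ∧ 4 / θ' ≤ β))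
    (hk : (k' * (2 * θ') : ℝ) ≤ M₀ / 4) :
    Pr p (fun ω : Sym2 V → Bool => ¬ StageOK (gr ω) A R k' θ') ≤ 4 / M₀ + 4 * β := by
  classical
  set M := ∑ y ∈ Y, R.card * piA p A D T y with hMdef
  have hMpos : 0 < M := hM0.trans_le hM
  have hθR : (0 : ℝ) < θ' := by exact_mod_cast hθ
  have hnot : ∀ v ∈ R, ∀ j, v ∉ A j := fun v hv j => disjoint_right.mp (hc.dR j) hv
  have hdisj : (R : Set V).PairwiseDisjoint fun v => es {v} (↑R : Set V)ᶜ :=
    fun u hu v hv huv => es_disjoint (Or.inl (by simpa using huv)) (Or.inl (by simpa using hu))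
  have hsubA : ∀ j, (A j : Set V) ⊆ (↑R : Set V)ᶜ := fun j a ha => disjoint_left.mp (hc.dR j) ha
  have hdep : ∀ y v, DependsOn (fun ω : Sym2 V → Bool => atm (gr ω) A D T y v)
      (es {v} (↑R : Set V)ᶜ) := fun y v ω ω' h => by
    simp only [atm, hit_congr h rfl (hsubA _)]
  have hpr : ∀ y ∈ Y, ∀ v ∈ R, Pr p (fun ω : Sym2 V → Bool => atm (gr ω) A D T y v) =
      piA p A D T y := fun y hy v hv => Pr_atom hc.dj (hnot v hv) (by
        rw [disjoint_union_left]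
        exact ⟨disjoint_sdiff, (hDT.symm.mono_right sdiff_subset)⟩)
  let N : Finset (Fin k) → (Sym2 V → Bool) → ℝ := fun y ω => ∑ v ∈ R, ind (atm (gr ω) A D T y v)
  have hN0 : ∀ y ω, 0 ≤ N y ω := fun y ω => sum_nonneg fun _ _ => ind_nonneg _
  have hvar : ∀ (f : (Sym2 V → Bool) → ℝ) (m : ℝ), Ex p f = m →
      Ex p (fun ω => f ω ^ 2) ≤ m ^ 2 + m → Ex p (fun ω => (f ω - m) ^ 2) ≤ m := by
    intro f m e1 e2
    have : (fun ω => (f ω - m) ^ 2) = fun ω => (f ω ^ 2 - (2 * m) * f ω) + m ^ 2 := by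
      funext ω; ring
    rw [this, Ex_add, Ex_sub, Ex_mul, Ex_const, e1]
    nlinarith
  have hTot : Pr p (fun ω : Sym2 V → Bool => M ^ 2 / 4 ≤ (∑ y ∈ Y, N y ω - M) ^ 2) ≤ 4 / M₀ := by
    have e : ∀ ω : Sym2 V → Bool, ∀ v, ind (∃ y ∈ Y, atm (gr ω) A D T y v) =
        ∑ y ∈ Y, ind (atm (gr ω) A D T y v) := fun ω v =>
      ind_exists_unique _ _ fun a ha b hb => atm_unique (hY a ha) (hY b hb)
    obtain ⟨m1, m2⟩ := count_moments (p := p) R (fun v => es {v} (↑R : Set V)ᶜ)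
      (fun v ω => ∃ y ∈ Y, atm (gr ω) A D T y v) (fun v _ ω ω' h => by
        simp only [show ∀ y, atm (gr ω) A D T y v = atm (gr ω') A D T y v from
          fun y => hdep y v h]) hdisj
      (π := ∑ y ∈ Y, piA p A D T y) (fun v hv => by
        simp only [Pr, e]
        rw [Ex_sum]
        exact sum_congr rfl fun y hy => hpr y hy v hv)
    have e2 : ∀ ω : Sym2 V → Bool, ∑ v ∈ R, ind (∃ y ∈ Y, atm (gr ω) A D T y v) =
        ∑ y ∈ Y, N y ω := fun ω => by simp only [e]; exact sum_comm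
    simp only [e2, mul_sum, ← hMdef] at m1 m2
    refine (markov h0 h1 (fun ω => sq_nonneg _) (by positivity)).trans ?_
    refine (div_le_div_of_nonneg_right (hvar _ _ m1 m2) (by positivity)).trans ?_
    rw [div_le_div_iff₀ (by positivity) hM0]
    nlinarith
  have hBad : Pr p (fun ω : Sym2 V → Bool =>
      M / 4 ≤ ∑ y ∈ Y, N y ω * ind ((θ' : ℝ) < N y ω)) ≤ 4 * β := by
    refine (markov h0 h1 (fun ω => sum_nonneg fun y _ => mul_nonneg (hN0 y ω) (ind_nonneg _))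
      (by positivity)).trans ?_
    rw [div_le_iff₀ (by positivity), Ex_sum]
    have : 4 * β * (M / 4) = ∑ y ∈ Y, β * (R.card * piA p A D T y) := by
      rw [← mul_sum]; ring
    rw [this]
    refine sum_le_sum fun y hy => ?_
    obtain ⟨m1, m2⟩ := count_moments (p := p) R (fun v => es {v} (↑R : Set V)ᶜ)
      (fun v ω => atm (gr ω) A D T y v) (fun v _ => hdep y v) hdisj (hpr y hy)
    set σ := R.card * piA p A D T y with hσ
    have hσ0 : 0 ≤ σ := by
      rw [← m1, ← Ex_const (ι := Sym2 V) (p := p) 0]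
      exact Ex_mono h0 h1 (hN0 y)
    have hσs := hs y hy
    rcases hβ with hβ | ⟨hβ1, hβ2⟩
    · have k1 : Ex p (fun ω => N y ω * ind ((θ' : ℝ) < N y ω)) ≤
          Ex p fun ω => (θ' : ℝ)⁻¹ * (N y ω ^ 2 - N y ω) := by
        refine Ex_mono h0 h1 fun ω => ?_
        obtain ⟨m, hm⟩ : ∃ m : ℕ, N y ω = m := ⟨_, (card_ind R _).symm⟩
        rw [hm, ← div_eq_inv_mul, le_div_iff₀ hθR]
        by_cases hlt : θ' < m
        · rw [ind_pos (by exact_mod_cast hlt)]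
          have : (θ' : ℝ) + 1 ≤ m := by exact_mod_cast hlt
          nlinarith
        · rw [ind_neg (by exact_mod_cast hlt)]
          rcases Nat.eq_zero_or_pos m with h | h
          · simp [h]
          · have : (1 : ℝ) ≤ m := by exact_mod_cast h
            nlinarith
      rw [Ex_mul, Ex_sub, m1] at k1
      refine k1.trans ?_
      rw [← div_eq_inv_mul, div_le_iff₀ hθR]
      rw [div_le_iff₀ hθR] at hβ
      nlinarith
    · have k1 : Ex p (fun ω => N y ω * ind ((θ' : ℝ) < N y ω)) ≤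
          Ex p fun ω => (4 / θ' : ℝ) * (N y ω - σ) ^ 2 := by
        refine Ex_mono h0 h1 fun ω => ?_
        by_cases hlt : (θ' : ℝ) < N y ω
        · rw [ind_pos hlt, div_mul_eq_mul_div, le_div_iff₀ hθR]
          nlinarith
        · rw [ind_neg hlt, mul_zero]; positivity
      rw [Ex_mul] at k1
      exact k1.trans (mul_le_mul hβ2 (hvar _ _ m1 m2) (by
        rw [← Ex_const (ι := Sym2 V) (p := p) 0]
        exact Ex_mono h0 h1 fun ω => sq_nonneg _) (le_trans (by positivity) hβ2))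
  refine le_trans (Pr_mono h0 h1 fun ω hω => ?_) ((Pr_or h0 h1 _ _).trans (add_le_add hTot hBad))
  by_contra hcon
  push Not at hcon
  refine hω (stage_det (T := T) hY hθ ?_)
  have k1 : M / 2 < ∑ y ∈ Y, N y ω := by
    by_contra hh
    push Not at hh
    nlinarith [hcon.1]
  have k2 := hcon.2
  simp only [N] at k1 k2
  linarith

omit [Fintype V] [DecidableEq V] in
theorem qq_bounds (h0 : 0 ≤ p) {θ : ℕ} (hθ1 : 1 ≤ θ) (hθ : p * (2 * θ - 1) ≤ 1 / 2) {B : Finset V}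
    (hlo : θ ≤ B.card) (hhi : B.card < 2 * θ) :
    p * θ / 2 ≤ qq p B ∧ qq p B ≤ 2 * (p * θ) ∧ qq p B ≤ 1 / 2 := by
  have hθR : (1 : ℝ) ≤ θ := by exact_mod_cast hθ1
  have hp : p ≤ 1 / 2 := by nlinarith
  have hx : p * θ ≤ 1 / 2 := by nlinarith
  have k1 : qq p B ≤ p * B.card := by
    have := one_add_mul_le_pow (a := -p) (by linarith) B.card
    unfold qq
    rw [← sub_eq_add_neg] at this
    linarith
  have k2 : (B.card : ℝ) + 1 ≤ 2 * θ := by exact_mod_cast hhi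
  refine ⟨?_, by nlinarith, by nlinarith⟩
  have k3 : (1 - p) ^ B.card ≤ (1 - p) ^ θ := pow_le_pow_of_le_one (by linarith) (by linarith) hlo
  have k4 : 1 + θ * p ≤ (1 + p) ^ θ := one_add_mul_le_pow (by linarith) θ
  have k5 : (1 - p) ^ θ * (1 + p) ^ θ ≤ 1 := by
    rw [← mul_pow]; exact pow_le_one₀ (by nlinarith) (by nlinarith)
  have k6 : 0 ≤ (1 - p) ^ θ := pow_nonneg (by linarith) _
  have k7 : (1 - p) ^ θ * (1 + θ * p) ≤ 1 := (mul_le_mul_of_nonneg_left k4 k6).trans k5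
  have k8 : 0 ≤ p * θ := by positivity
  unfold qq
  by_contra hc
  push Not at hc
  nlinarith

omit [Fintype V] [DecidableEq V] in
theorem piA_bounds {k : ℕ} {A : Fin k → Finset V} {x : ℝ} (hx : 0 ≤ x)
    (hq : ∀ j, x / 2 ≤ qq p (A j) ∧ qq p (A j) ≤ 2 * x ∧ qq p (A j) ≤ 1 / 2)
    {D T y : Finset (Fin k)} (hDT : Disjoint D T) (hy : y ⊆ D) :
    (∏ j ∈ T, qq p (A j)) * (∏ j ∈ D, (1 - qq p (A j))) * (x / 2) ^ y.card ≤ piA p A D T y ∧
    piA p A D T y ≤ (∏ j ∈ T, qq p (A j)) * (∏ j ∈ D, (1 - qq p (A j))) * (4 * x) ^ y.card := by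
  have hq0 : ∀ j, 0 ≤ qq p (A j) := fun j => le_trans (by positivity) (hq j).1
  have hq1 : ∀ j, 0 ≤ 1 - qq p (A j) := fun j => by linarith [(hq j).2.2]
  have hΦ : 0 ≤ ∏ j ∈ T, qq p (A j) := prod_nonneg fun j _ => hq0 j
  have hF : 0 ≤ ∏ j ∈ D \ y, (1 - qq p (A j)) := prod_nonneg fun j _ => hq1 j
  rw [piA, prod_union (hDT.mono_left hy), ← prod_sdiff hy, ← prod_const, ← prod_const]
  have k1 : (∏ j ∈ y, (1 - qq p (A j))) * ∏ _j ∈ y, x / 2 ≤ ∏ j ∈ y, qq p (A j) := by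
    rw [← prod_mul_distrib]
    exact prod_le_prod (fun j _ => mul_nonneg (hq1 j) (by positivity))
      fun j _ => by nlinarith [hq j, hq0 j]
  have k2 : ∏ j ∈ y, qq p (A j) ≤ (∏ j ∈ y, (1 - qq p (A j))) * ∏ _j ∈ y, 4 * x := by
    rw [← prod_mul_distrib]
    exact prod_le_prod (fun j _ => hq0 j) fun j _ => by nlinarith [hq j, hq0 j]
  constructor
  · nlinarith [mul_le_mul_of_nonneg_left k1 (mul_nonneg hΦ hF)]
  · nlinarith [mul_le_mul_of_nonneg_left k2 (mul_nonneg hΦ hF)]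

omit [Fintype V] [DecidableEq V] in
theorem prod_fail {k : ℕ} {A : Fin k → Finset V} {x : ℝ} (hx : 0 ≤ x)
    (hq : ∀ j, x / 2 ≤ qq p (A j) ∧ qq p (A j) ≤ 2 * x ∧ qq p (A j) ≤ 1 / 2) (D : Finset (Fin k)) :
    Real.exp (-(4 * x * D.card)) ≤ ∏ j ∈ D, (1 - qq p (A j)) ∧ ∏ j ∈ D, (1 - qq p (A j)) ≤ 1 := by
  have hq0 : ∀ j, 0 ≤ qq p (A j) := fun j => le_trans (by positivity) (hq j).1
  constructor
  · have : Real.exp (-(4 * x * D.card)) = ∏ _j ∈ D, Real.exp (-(4 * x)) := by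
      rw [prod_const, ← Real.exp_nat_mul]; congr 1; ring
    rw [this]
    refine prod_le_prod (fun _ _ => (Real.exp_pos _).le) fun j _ => ?_
    have k1 := Real.add_one_le_exp (4 * x)
    rw [Real.exp_neg, inv_le_comm₀ (Real.exp_pos _) (by linarith [(hq j).2.2])]
    refine le_trans ?_ k1
    rw [inv_le_iff_one_le_mul₀ (by linarith [(hq j).2.2])]
    nlinarith [hq j, hq0 j]
  · exact prod_le_one (fun j _ => by linarith [(hq j).2.2]) fun j _ => by linarith [hq0 j]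

/-- the stage estimate for all subsets of `D` of size `b` -/
theorem stage' (h0 : 0 ≤ p) (h1 : p ≤ 1) {k θ : ℕ} {A : Fin k → Finset V} {R : Finset V}
    (hc : Coins A R θ) {x : ℝ} (hx : 0 ≤ x)
    (hq : ∀ j, x / 2 ≤ qq p (A j) ∧ qq p (A j) ≤ 2 * x ∧ qq p (A j) ≤ 1 / 2)
    (hR : (Fintype.card V : ℝ) / 2 ≤ R.card)
    {D T : Finset (Fin k)} (hDT : Disjoint D T) (b : ℕ) {k' θ' : ℕ} (hθ : 1 ≤ θ') {s M₀ β : ℝ}
    (hs : s = Fintype.card V * ((∏ j ∈ T, qq p (A j)) * (∏ j ∈ D, (1 - qq p (A j))) * (4 * x) ^ b))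
    (hM : M₀ ≤ D.card.choose b * (s / (2 * 8 ^ b)))
    (hM0 : 0 < M₀) (hβ : s / θ' ≤ β ∨ (2 * s ≤ θ' ∧ 4 / θ' ≤ β))
    (hk : (k' * (2 * θ') : ℝ) ≤ M₀ / 4) :
    Pr p (fun ω : Sym2 V → Bool => ¬ StageOK (gr ω) A R k' θ') ≤ 4 / M₀ + 4 * β := by
  have hq0 : ∀ j, 0 ≤ qq p (A j) := fun j => le_trans (by positivity) (hq j).1
  have hψ : 0 ≤ (∏ j ∈ T, qq p (A j)) * (∏ j ∈ D, (1 - qq p (A j))) :=
    mul_nonneg (prod_nonneg fun j _ => hq0 j) (prod_nonneg fun j _ => by linarith [(hq j).2.2])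
  refine stage h0 h1 hc hDT (Y := powersetCard b D) (fun y hy => (mem_powersetCard.mp hy).1) hθ
    (fun y hy => ?_) (hM.trans ?_) hM0 hβ hk
  · obtain ⟨y1, y2⟩ := mem_powersetCard.mp hy
    obtain ⟨k1, k2⟩ := piA_bounds hx hq hDT y1
    rw [hs, ← y2]
    exact mul_le_mul (by exact_mod_cast card_le_univ R) k2 (le_trans (by positivity) k1)
      (by positivity)
  · rw [← card_powersetCard, ← nsmul_eq_mul, ← sum_const]
    refine sum_le_sum fun y hy => ?_
    obtain ⟨y1, y2⟩ := mem_powersetCard.mp hy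
    obtain ⟨k1, _⟩ := piA_bounds hx hq hDT y1
    rw [y2] at k1
    refine le_trans (le_of_eq ?_) (mul_le_mul hR k1 (by positivity) (by positivity))
    have : (4 * x) ^ b = 8 ^ b * (x / 2) ^ b := by rw [← mul_pow]; congr 1; ring
    rw [hs, this]
    field_simp

end Pool.Agent.H439Z.RG
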