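import Mathlib
import Pool.Agent.H439Z.RG4

set_option autoImplicit false

open Finset

namespace Pool.Agent.H439Z.RG

/-- the numerical hypotheses -/
structure Par (n p ℓ K ε : ℝ) (Θ : ℕ) : Prop where
  p0 : 0 < p
  t1 : 1 ≤ Θ
  t2 : p * (2 * Θ - 1) ≤ 1 / 2
  t3 : 1 / 8 ≤ p * Θ
  nle : n ≤ Real.exp ℓ
  k1 : 1 ≤ K
  k2 : K ^ 2 ≤ ℓ
  e0 : 0 < ε
  e1 : ε ≤ 1
  big : 10 ^ 8 * K ≤ ε ^ 2 * ℓ
  np : Real.exp (4 * ε * ℓ) * ℓ ^ 3 ≤ n * p

section

variable {n p ℓ K ε : ℝ} {Θ : ℕ}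

theorem Par.l0 (h : Par n p ℓ K ε Θ) : 0 < ℓ := by nlinarith [h.k1, h.k2]

theorem Par.el (h : Par n p ℓ K ε Θ) : 10 ^ 8 * K ≤ ε * ℓ := by
  have := mul_pos h.e0 h.l0
  nlinarith [h.big, h.e1]

theorem Par.lK (h : Par n p ℓ K ε Θ) : 10 ^ 8 * K ≤ ℓ := by nlinarith [h.el, h.e1, h.l0]

theorem Par.l1 (h : Par n p ℓ K ε Θ) : 10 ^ 8 ≤ ℓ := by nlinarith [h.lK, h.k1]

theorem Par.np3 (h : Par n p ℓ K ε Θ) : ℓ ^ 3 ≤ n * p := by
  have h1 : 1 ≤ Real.exp (4 * ε * ℓ) := Real.one_le_exp (by have := h.e0; have := h.l0; positivity)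
  have := pow_pos h.l0 3
  nlinarith [h.np]

theorem Par.np1 (h : Par n p ℓ K ε Θ) : 10 ^ 8 * ℓ ≤ n * p := by
  refine le_trans ?_ h.np3
  have := h.l1
  nlinarith [mul_le_mul this this (by norm_num) h.l0.le]

theorem Par.pt (h : Par n p ℓ K ε Θ) : p * Θ ≤ 1 / 2 := by
  have : (1 : ℝ) ≤ Θ := by exact_mod_cast h.t1
  nlinarith [h.t2, h.p0]

theorem Par.p1 (h : Par n p ℓ K ε Θ) : p ≤ 1 / 2 := by
  have : (1 : ℝ) ≤ Θ := by exact_mod_cast h.t1
  nlinarith [h.pt, h.p0]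

theorem Par.n0 (h : Par n p ℓ K ε Θ) : 0 < n := by
  have : 0 < n * p := by nlinarith [h.np1, h.l0]
  exact (mul_pos_iff_of_pos_right h.p0).mp this

end

variable {V : Type*} [Fintype V] [DecidableEq V] {p ℓ K ε : ℝ} {Θ : ℕ}

omit [DecidableEq V] in
theorem coin_q (h : Par (Fintype.card V) p ℓ K ε Θ) {k θ : ℕ} {A : Fin k → Finset V}
    {R : Finset V} (hc : Coins A R θ) (h1 : 1 ≤ θ) (h2 : θ ≤ Θ) (j : Fin k) :
    p * θ / 2 ≤ qq p (A j) ∧ qq p (A j) ≤ 2 * (p * θ) ∧ qq p (A j) ≤ 1 / 2 := by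
  have : (θ : ℝ) ≤ Θ := by exact_mod_cast h2
  exact qq_bounds h.p0.le h1 (by nlinarith [h.t2, h.p0]) (hc.lo j) (hc.hi j)

theorem stepA (h : Par (Fintype.card V) p ℓ K ε Θ) {k θ : ℕ} {A : Fin k → Finset V}
    {R : Finset V} (hc : Coins A R θ) (h1 : 1 ≤ θ) (h2 : θ ≤ Θ)
    (hR : (Fintype.card V : ℝ) / 2 ≤ R.card) (hk : 10 * ℓ ≤ k)
    (hA : 8 * (p * θ) * Fintype.card V ≤ Θ) :
    ∃ θ' κ : ℕ, 1 ≤ θ' ∧ θ' ≤ Θ ∧ (∀ k' ≤ κ,
      Pr p (fun ω : Sym2 V → Bool => ¬ StageOK (gr ω) A R k' θ') ≤ 8 / K) ∧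
      (6 * ℓ ≤ κ * (p * θ') ∨ (θ * (Fintype.card V * p) ≤ θ' ∧ (k : ℝ) ≤ 1000 * κ)) := by
  have hq := coin_q h hc h1 h2
  set n : ℝ := (Fintype.card V : ℝ) with hn
  set x : ℝ := p * θ with hx
  have hθ1 : (1 : ℝ) ≤ θ := by exact_mod_cast h1
  have hp := h.p0
  have hn0 := h.n0
  have hl := h.l1
  have hnp := h.np1
  have hx0 : 0 < x := by positivity
  have hxp : n * p ≤ x * n := by nlinarith [mul_pos hn0 hp]
  have hxs : x * (16 * (n * p)) ≤ 1 := by nlinarith [h.pt]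
  have hfl : 1 / (8 * x) ≤ (⌊1 / (4 * x)⌋₊ : ℝ) := by
    have k1 := Nat.lt_floor_add_one (1 / (4 * x))
    have k2 : 1 / (4 * x) = 2 * (1 / (8 * x)) := by field_simp; norm_num
    have k3 : 1 ≤ 1 / (8 * x) := by rw [le_div_iff₀ (by positivity)]; nlinarith
    linarith
  have hfl2 : 2 * (n * p) ≤ 1 / (8 * x) := by rw [le_div_iff₀ (by positivity)]; nlinarith
  obtain ⟨m, hm⟩ : ∃ m, m = min k ⌊1 / (4 * x)⌋₊ := ⟨_, rfl⟩
  have hm1 : 6400 ≤ m := by
    rw [hm, le_min_iff]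
    constructor
    · exact_mod_cast (show (6400 : ℝ) ≤ k by linarith)
    · exact_mod_cast (show (6400 : ℝ) ≤ (⌊1 / (4 * x)⌋₊ : ℕ) by linarith)
  have hm1' : (6400 : ℝ) ≤ m := by exact_mod_cast hm1
  have hm2 : 4 * x * m ≤ 1 := by
    have : (m : ℝ) ≤ 1 / (4 * x) :=
      le_trans (by exact_mod_cast hm ▸ min_le_right _ _) (Nat.floor_le (by positivity))
    rwa [le_div_iff₀ (by positivity), mul_comm] at this
  obtain ⟨D, _, hD⟩ := exists_subset_card_eq (s := (univ : Finset (Fin k))) (n := m)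
    (by simpa using hm ▸ min_le_left _ _)
  obtain ⟨f1, f2⟩ := prod_fail hx0.le hq D
  have f3 : 1 / 3 ≤ ∏ j ∈ D, (1 - qq p (A j)) := by
    refine le_trans ?_ ((Real.exp_le_exp.mpr (show -1 ≤ -(4 * x * D.card) by rw [hD]; linarith)).trans f1)
    rw [Real.exp_neg, one_div]
    exact inv_anti₀ (Real.exp_pos _) (by linarith [Real.exp_one_lt_d9])
  set F := ∏ j ∈ D, (1 - qq p (A j)) with hF
  have c1 : 8 * x * n ≤ (⌈8 * x * n⌉₊ : ℝ) := Nat.le_ceil _
  have c2 : (⌈8 * x * n⌉₊ : ℝ) ≤ 9 * (x * n) := by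
    have := Nat.ceil_lt_add_one (show 0 ≤ 8 * x * n by positivity)
    nlinarith
  have c3 : 1 ≤ ⌈8 * x * n⌉₊ := Nat.ceil_pos.mpr (by positivity)
  have hκ : (m : ℝ) ≤ 1000 * (m / 864 : ℕ) := by
    exact_mod_cast (show m ≤ 1000 * (m / 864) by omega)
  have hκ2 : 864 * ((m / 864 : ℕ) : ℝ) ≤ m := by exact_mod_cast Nat.mul_div_le m 864
  refine ⟨⌈8 * x * n⌉₊, m / 864, c3, Nat.ceil_le.mpr hA, fun k' hk' => ?_, ?_⟩
  · have hk'' : (k' : ℝ) ≤ (m / 864 : ℕ) := by exact_mod_cast hk'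
    have hxn : 0 < x * n := by positivity
    refine (stage' hp.le (by linarith [h.p1]) hc hx0.le hq hR (D := D) (T := ∅) (by simp) 1 c3
      (M₀ := m * (x * n) / 12) (β := 4 / ⌈8 * x * n⌉₊) rfl ?_ (by positivity)
      (Or.inr ⟨?_, le_rfl⟩) ?_).trans ?_
    · rw [hD, Nat.choose_one_right, prod_empty, ← hF, ← hn]
      have : 0 ≤ m * (x * n) := by positivity
      nlinarith
    · rw [prod_empty, ← hF, ← hn]
      nlinarith
    · have : (k' : ℝ) * (2 * ⌈8 * x * n⌉₊) ≤ (m / 864 : ℕ) * (2 * (9 * (x * n))) :=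
        mul_le_mul hk'' (by linarith) (by positivity) (by positivity)
      nlinarith
    · have k1 : 4 / (m * (x * n) / 12) ≤ 4 / K :=
        div_le_div_of_nonneg_left (by norm_num) (by linarith [h.k1]) (by nlinarith [h.lK, h.k1])
      have k2 : 4 / (⌈8 * x * n⌉₊ : ℝ) ≤ 1 / K := by
        rw [div_le_div_iff₀ (by positivity) (by linarith [h.k1])]
        nlinarith [h.lK, h.k1]
      have : 8 / K = 4 / K + 4 * (1 / K) := by ring
      linarith
  · rcases min_choice k ⌊1 / (4 * x)⌋₊ with e | e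
    · right
      rw [← hm] at e
      refine ⟨?_, by rw [← e]; exact hκ⟩
      have : θ * (n * p) = x * n := by rw [hx]; ring
      nlinarith [mul_pos hx0 hn0]
    · left
      rw [← hm] at e
      rw [← e, div_le_iff₀ (by positivity)] at hfl
      have k1 : ((m / 864 : ℕ) : ℝ) * (p * (8 * x * n)) ≤ (m / 864 : ℕ) * (p * ⌈8 * x * n⌉₊) :=
        mul_le_mul_of_nonneg_left (mul_le_mul_of_nonneg_left c1 hp.le) (by positivity)
      have k2 : 1 ≤ 1000 * ((m / 864 : ℕ) : ℝ) * (8 * x) :=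
        hfl.trans (mul_le_mul_of_nonneg_right hκ (by positivity))
      have k3 := mul_le_mul_of_nonneg_right k2 (mul_pos hn0 hp).le
      nlinarith

theorem lam_bound {n : ℝ} (h : Par n p ℓ K ε Θ) {x : ℝ} (hx0 : 0 < x) (hx1 : x ≤ 1 / 2)
    (hx : 1 / 64 ≤ x * (n * p)) :
    0 < Real.log (256 * (x * (n * p))) / 4 ∧
      (ε * ℓ) ^ 2 * x ≤ (Real.log (256 * (x * (n * p))) / 4) ^ 2 := by
  have hl := h.l1
  have k0 : 1 / 3 ≤ Real.log (256 * (x * (n * p))) / 4 := by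
    have k1 : Real.log (2 ^ 2) ≤ Real.log (256 * (x * (n * p))) :=
      Real.log_le_log (by norm_num) (by linarith)
    rw [Real.log_pow] at k1
    have := Real.log_two_gt_d9
    push_cast at k1
    linarith
  refine ⟨by linarith, ?_⟩
  have hel : 0 < ε * ℓ := mul_pos h.e0 h.l0
  by_cases hs : x * ℓ ^ 3 ≤ 1
  · have k1 : (ε * ℓ) ^ 2 ≤ ℓ ^ 2 := pow_le_pow_left₀ hel.le (by nlinarith [h.e1]) 2
    have k2 : 9 * (ℓ ^ 2 * x) ≤ x * ℓ ^ 3 := by
      have : 0 < ℓ ^ 2 * x := by positivity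
      nlinarith
    nlinarith
  · push Not at hs
    have k1 : ε * ℓ ≤ Real.log (256 * (x * (n * p))) / 4 := by
      rw [le_div_iff₀ (by norm_num), Real.le_log_iff_exp_le (by linarith)]
      have k2 := mul_le_mul_of_nonneg_left h.np hx0.le
      have k3 := Real.exp_pos (4 * ε * ℓ)
      have e : ε * ℓ * 4 = 4 * ε * ℓ := by ring
      rw [e]
      nlinarith
    have := pow_le_pow_left₀ hel.le k1 2
    nlinarith [sq_nonneg (ε * ℓ)]

theorem stepB (h : Par (Fintype.card V) p ℓ K ε Θ) {k θ : ℕ} {A : Fin k → Finset V}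
    {R : Finset V} (hc : Coins A R θ) (h1 : 1 ≤ θ) (h2 : θ ≤ Θ)
    (hR : (Fintype.card V : ℝ) / 2 ≤ R.card) (hk : 10 * ℓ ≤ k)
    (hB : (Θ : ℝ) < 8 * (p * θ) * Fintype.card V) :
    ∃ θ' κ : ℕ, 1 ≤ θ' ∧ θ' ≤ Θ ∧ (∀ k' ≤ κ,
      Pr p (fun ω : Sym2 V → Bool => ¬ StageOK (gr ω) A R k' θ') ≤ 8 / K) ∧
      (6 * ℓ ≤ κ * (p * θ') ∨ ((θ : ℝ) ≤ 16 * θ' ∧ (k : ℝ) ^ 2 ≤ 2 * 10 ^ 6 * K * κ)) := by
  have hq := coin_q h hc h1 h2
  set n : ℝ := (Fintype.card V : ℝ) with hn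
  set x : ℝ := p * θ with hx
  have hθ1 : (1 : ℝ) ≤ θ := by exact_mod_cast h1
  have hθ2 : (θ : ℝ) ≤ Θ := by exact_mod_cast h2
  have hΘ1 : (1 : ℝ) ≤ Θ := by linarith
  have hp := h.p0
  have hn0 := h.n0
  have hl := h.l1
  have hK := h.k1
  have hel := h.el
  have hx0 : 0 < x := by positivity
  have hx1 : x ≤ 1 / 2 := le_trans (by nlinarith) h.pt
  have hxnp : 1 / 64 ≤ x * (n * p) := by nlinarith [h.t3]
  obtain ⟨l0, l1⟩ := lam_bound h hx0 hx1 hxnp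
  set lam := Real.log (256 * (x * (n * p))) / 4 with hlam
  have l2 : ε * ℓ ≤ lam / x := by
    rw [le_div_iff₀ hx0]
    refine le_of_sq_le_sq (le_trans ?_ l1) l0.le
    have : 0 ≤ (ε * ℓ) ^ 2 * x := by positivity
    nlinarith
  have hfl : lam / x / 2 ≤ (⌊lam / x⌋₊ : ℝ) := by
    have k1 := Nat.lt_floor_add_one (lam / x)
    nlinarith
  have hk3 : (k : ℝ) ≤ 3 * (k / 2 : ℕ) := by
    have : 3 ≤ k := by exact_mod_cast (show (3 : ℝ) ≤ k by linarith)
    exact_mod_cast (show k ≤ 3 * (k / 2) by omega)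
  obtain ⟨m, hm⟩ : ∃ m, m = min (k / 2) ⌊lam / x⌋₊ := ⟨_, rfl⟩
  have hm1 : ε * ℓ / 2 ≤ m := by
    rw [hm]
    push_cast
    refine le_min ?_ (by linarith)
    nlinarith [h.e1]
  have hm2 : x * m ≤ lam := by
    have : (m : ℝ) ≤ lam / x :=
      le_trans (by exact_mod_cast hm ▸ min_le_right _ _) (Nat.floor_le (by positivity))
    rwa [le_div_iff₀ hx0, mul_comm] at this
  have hm3 : m ≤ k / 2 := hm ▸ min_le_left _ _
  have hm4 : 10 ^ 15 * K ^ 2 ≤ (m : ℝ) ^ 2 := by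
    have : (10 ^ 8 * K / 2) ^ 2 ≤ (m : ℝ) ^ 2 := pow_le_pow_left₀ (by positivity) (by linarith) 2
    nlinarith
  obtain ⟨D, _, hD⟩ := exists_subset_card_eq (s := (univ : Finset (Fin k))) (n := m)
    (by simpa using by omega)
  obtain ⟨f1, f2⟩ := prod_fail hx0.le hq D
  have f3 : 1 ≤ 256 * (x * (n * p)) * ∏ j ∈ D, (1 - qq p (A j)) := by
    have k1 : Real.exp (-(4 * lam)) ≤ ∏ j ∈ D, (1 - qq p (A j)) :=
      (Real.exp_le_exp.mpr (by rw [hD]; linarith)).trans f1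
    have k2 : 4 * lam = Real.log (256 * (x * (n * p))) := by rw [hlam]; ring
    rw [k2, Real.exp_neg, Real.exp_log (by positivity), inv_le_iff_one_le_mul₀' (by positivity)] at k1
    exact k1
  have f0 : 0 ≤ ∏ j ∈ D, (1 - qq p (A j)) := (Real.exp_pos _).le.trans f1
  set F := ∏ j ∈ D, (1 - qq p (A j)) with hF
  have hq0 : ∀ j, 0 ≤ qq p (A j) := fun j => le_trans (by positivity) (hq j).1
  obtain ⟨T, hT, hmin⟩ := exists_min_image ((Dᶜ).powerset.filter fun T =>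
    K * (n * ((∏ j ∈ T, qq p (A j)) * F * (4 * x) ^ 2)) ≤ Θ) card ⟨Dᶜ, by
      rw [mem_filter, mem_powerset]
      refine ⟨subset_rfl, le_trans ?_ hΘ1⟩
      have k1 : ∏ j ∈ Dᶜ, qq p (A j) ≤ Real.exp (-(3 * ℓ)) := by
        have k2 : ∏ j ∈ Dᶜ, qq p (A j) ≤ ∏ _j ∈ Dᶜ, Real.exp (-Real.log 2) :=
          prod_le_prod (fun j _ => hq0 j) fun j _ => by
            rw [Real.exp_neg, Real.exp_log (by norm_num)]; linarith [(hq j).2.2]
        rw [prod_const, ← Real.exp_nat_mul, card_compl, Fintype.card_fin, hD] at k2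
        refine k2.trans (Real.exp_le_exp.mpr ?_)
        have k3 : (k : ℝ) ≤ 2 * (k - m : ℕ) := by exact_mod_cast (show k ≤ 2 * (k - m) by omega)
        nlinarith [Real.log_two_gt_d9]
      have k2 : 4 * K ≤ Real.exp (2 * ℓ) := by
        have := Real.add_one_le_exp (2 * ℓ)
        nlinarith [h.lK]
      have k3 : Real.exp (2 * ℓ) * (Real.exp ℓ * Real.exp (-(3 * ℓ))) = 1 := by
        rw [← Real.exp_add, ← Real.exp_add, ← Real.exp_zero]; congr 1; ring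
      have k4 : (∏ j ∈ Dᶜ, qq p (A j)) * F * (4 * x) ^ 2 ≤ Real.exp (-(3 * ℓ)) * 1 * 4 :=
        mul_le_mul (mul_le_mul k1 f2 f0 (Real.exp_pos _).le) (by nlinarith) (by positivity)
          (by positivity)
      have k5 := mul_le_mul h.nle k4 (mul_nonneg (mul_nonneg (prod_nonneg fun j _ => hq0 j) f0)
        (by positivity)) (Real.exp_pos _).le
      have k6 := mul_le_mul_of_nonneg_left k5 (by linarith : 0 ≤ K)
      have k7 := mul_le_mul_of_nonneg_right k2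
        (mul_pos (Real.exp_pos ℓ) (Real.exp_pos (-(3 * ℓ)))).le
      nlinarith⟩
  rw [mem_filter, mem_powerset] at hT
  set s := n * ((∏ j ∈ T, qq p (A j)) * F * (4 * x) ^ 2) with hs
  have hs1 : θ ≤ 16 * (K * s) := by
    rcases T.eq_empty_or_nonempty with e | ⟨j, hj⟩
    · have k1 : θ ≤ 16 * s := by
        rw [hs, e, prod_empty]
        have : 16 * (n * (1 * F * (4 * x) ^ 2)) = θ * (256 * (x * (n * p)) * F) := by
          rw [hx]; ring
        rw [this]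
        nlinarith
      nlinarith
    · have k1 : ¬ K * (n * ((∏ j ∈ T.erase j, qq p (A j)) * F * (4 * x) ^ 2)) ≤ Θ := fun hh => by
        have := hmin (T.erase j) (by
          rw [mem_filter, mem_powerset]; exact ⟨(erase_subset _ _).trans hT.1, hh⟩)
        have := card_erase_lt_of_mem hj
        omega
      push Not at k1
      have k2 : K * s = qq p (A j) *
          (K * (n * ((∏ j ∈ T.erase j, qq p (A j)) * F * (4 * x) ^ 2))) := by
        rw [hs, ← mul_prod_erase T _ hj]; ring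
      have k3 : x / 2 * Θ ≤ K * s := by
        rw [k2]; exact mul_le_mul (hq j).1 k1.le (by positivity) (hq0 j)
      have k4 : x / 2 * Θ = θ * (p * Θ) / 2 := by rw [hx]; ring
      nlinarith [h.t3]
  have hKs : 0 < K * s := by linarith
  have hs0 : 0 < s := (mul_pos_iff_of_pos_left (by linarith)).mp hKs
  have c1 : K * s ≤ (⌈K * s⌉₊ : ℝ) := Nat.le_ceil _
  have c2 : (⌈K * s⌉₊ : ℝ) ≤ 17 * (K * s) := by
    have := Nat.ceil_lt_add_one hKs.le
    linarith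
  have c3 : 1 ≤ ⌈K * s⌉₊ := Nat.ceil_pos.mpr hKs
  have c4 : (0 : ℝ) < ⌈K * s⌉₊ := by linarith
  set θ' := ⌈K * s⌉₊ with hθ'
  have hm0 : (0 : ℝ) < m := by nlinarith
  set κ := ⌊(m : ℝ) ^ 2 * s / 512 / (8 * θ')⌋₊ with hκ
  have hκ1 : (κ : ℝ) * (8 * θ') ≤ (m : ℝ) ^ 2 * s / 512 := by
    rw [← le_div_iff₀ (by positivity)]
    exact Nat.floor_le (by positivity)
  have hκ2 : (m : ℝ) ^ 2 ≤ 140000 * K * κ := by
    have k1 := Nat.lt_floor_add_one ((m : ℝ) ^ 2 * s / 512 / (8 * θ'))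
    rw [← hκ, div_lt_iff₀ (by positivity)] at k1
    have k2 : ((κ : ℝ) + 1) * (8 * θ') ≤ (κ + 1) * (8 * (17 * (K * s))) :=
      mul_le_mul_of_nonneg_left (by linarith) (by positivity)
    have k3 : (m : ℝ) ^ 2 * s ≤ (69632 * K * (κ + 1)) * s := by nlinarith
    have k4 := le_of_mul_le_mul_right k3 hs0
    nlinarith
  refine ⟨θ', κ, c3, Nat.ceil_le.mpr hT.2, fun k' hk' => ?_, ?_⟩
  · have hk'' : (k' : ℝ) ≤ κ := by exact_mod_cast hk'
    refine (stage' hp.le (by linarith [h.p1]) hc hx0.le hq hR (D := D) (T := T)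
      (disjoint_compl_right.mono_right hT.1) 2 c3
      (M₀ := (m : ℝ) ^ 2 * s / 512) (β := 1 / K) rfl ?_ (by positivity) (Or.inl ?_) ?_).trans ?_
    · rw [hD, Nat.cast_choose_two, ← hF, ← hn, ← hs]
      have : (2 : ℝ) ≤ m := by nlinarith
      have : 0 ≤ (m : ℝ) * (m - 2) * s := by positivity
      nlinarith
    · rw [← hF, ← hn, ← hs, div_le_div_iff₀ c4 (by linarith)]
      linarith
    · have := mul_le_mul_of_nonneg_right hk'' c4.le
      linarith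
    · have k1 : 4 / ((m : ℝ) ^ 2 * s / 512) ≤ 4 / K := by
        refine div_le_div_of_nonneg_left (by norm_num) (by linarith) ?_
        have := mul_le_mul_of_nonneg_right hm4 hs0.le
        nlinarith
      have : 8 / K = 4 / K + 4 * (1 / K) := by ring
      linarith
  · rcases min_choice (k / 2) ⌊lam / x⌋₊ with e | e
    · right
      rw [← hm] at e
      refine ⟨by linarith, ?_⟩
      rw [← e] at hk3
      have : (k : ℝ) ^ 2 ≤ (3 * m) ^ 2 := pow_le_pow_left₀ (by positivity) hk3 2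
      have : 0 ≤ K * κ := by positivity
      nlinarith
    · left
      rw [← hm] at e
      rw [← e] at hfl
      have k1 : lam ≤ 2 * m * x := by
        rw [div_div, div_le_iff₀ (by positivity)] at hfl
        linarith
      have k2 : (ε * ℓ) ^ 2 * x ≤ (4 * (m : ℝ) ^ 2 * x) * x :=
        l1.trans ((pow_le_pow_left₀ l0.le k1 2).trans (le_of_eq (by ring)))
      have k3 := le_of_mul_le_mul_right k2 hx0
      have k4 : x ≤ 16 * (p * θ') := by rw [hx]; nlinarith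
      have k5 : (m : ℝ) ^ 2 * x ≤ (140000 * K * κ) * (16 * (p * θ')) :=
        mul_le_mul hκ2 k4 hx0.le (by positivity)
      have k6 := mul_le_mul_of_nonneg_right h.big h.l0.le
      have k7 : K * (6 * ℓ) ≤ K * (κ * (p * θ')) := by
        have : 0 < K * ℓ := by positivity
        nlinarith
      exact le_of_mul_le_mul_left k7 (by linarith)

end Pool.Agent.H439Z.RG
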