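import Mathlib
import Pool.Agent.H439Z.RG5

set_option autoImplicit false

open Finset

namespace Pool.Agent.H439Z.RG

variable {V : Type*} [Fintype V] [DecidableEq V] {p ℓ K ε : ℝ} {Θ : ℕ}

omit [Fintype V] [DecidableEq V] in
theorem valid_congr {ω ω' : Sym2 V → Bool} {k k' : ℕ} {A : Fin k → Finset V} {R : Finset V}
    (hd : ∀ j, Disjoint (A j) R) (h : ∀ e ∈ (es (R : Set V) R)ᶜ, ω e = ω' e)
    (A' : Fin k' → Finset V) : Valid (gr ω) A R A' ↔ Valid (gr ω') A R A' := by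
  have h' : ∀ e ∈ es (R : Set V) (↑R : Set V)ᶜ, ω e = ω' e := fun e he =>
    h e (Set.disjoint_left.mp (es_disjoint (Or.inr disjoint_compl_left)
      (Or.inr disjoint_compl_left)) he)
  have hA : ∀ j, (A j : Set V) ⊆ (↑R : Set V)ᶜ := fun j a ha => disjoint_left.mp (hd j) ha
  refine and_congr_right fun _ => forall₂_congr fun u hu => forall₂_congr fun v hv =>
    imp_congr_left (forall_congr' fun j => ?_)
  rw [hit_congr h' hu (hA j), hit_congr h' hv (hA j)]

theorem adapt (h0 : 0 ≤ p) (h1 : p ≤ 1) {k : ℕ} {A : Fin k → Finset V} {R : Finset V}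
    (hd : ∀ j, Disjoint (A j) R) {k' θ' r : ℕ} {β : ℝ} (hβ0 : 0 ≤ β)
    (hβ : ∀ A' : Fin k' → Finset V, (∀ j, A' j ⊆ R) → Coins A' (R \ univ.biUnion A') θ' →
      Pr p (fun ω : Sym2 V → Bool => ¬ Good (gr ω) r A' (R \ univ.biUnion A')) ≤ β) :
    Pr p (fun ω : Sym2 V → Bool => ¬ Good (gr ω) (r + 2) A R) ≤
      Pr p (fun ω : Sym2 V → Bool => ¬ Nb (gr ω) A R) +
      (Pr p (fun ω : Sym2 V → Bool => ¬ StageOK (gr ω) A R k' θ') + β) := by
  let E : (Sym2 V → Bool) → (Sym2 V → Bool) → Prop := fun ω ω' =>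
    StageOK (gr ω) A R k' θ' ∧ ∀ A' : Fin k' → Finset V, Valid (gr ω) A R A' →
      Coins A' (R \ univ.biUnion A') θ' → ¬ Good (gr ω') r A' (R \ univ.biUnion A')
  have hE : Pr p (fun ω => E ω ω) ≤ β := by
    rw [Pr, Ex_diag (es (R : Set V) R)ᶜ (fun ω ω' => ind (E ω ω')) (fun ω' a b hab => by
      simp only [E, StageOK, valid_congr hd hab]) (fun ω a b hab => by
      refine ind_congr (and_congr_right fun _ => forall₂_congr fun A' hA' =>
        imp_congr_right fun _ => not_congr (good_congr ?_))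
      rw [ground_next hA'.1]
      simpa using hab), ← Ex_const (ι := Sym2 V) (p := p) β]
    refine Ex_mono h0 h1 fun ω => ?_
    by_cases hs : StageOK (gr ω) A R k' θ'
    · obtain ⟨A', a1, a2⟩ := hs
      exact le_trans (Pr_mono h0 h1 fun ω' hω' => hω'.2 A' a1 a2) (hβ A' a1.1 a2)
    · rw [← Ex_const (ι := Sym2 V) (p := p) β]
      exact Ex_mono h0 h1 fun ω' => (ind_neg fun h => hs h.1).le.trans hβ0
  refine le_trans (Pr_mono h0 h1 fun ω hω => ?_) ((Pr_or h0 h1 _ _).trans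
    (add_le_add le_rfl ((Pr_or h0 h1 _ _).trans (add_le_add le_rfl hE))))
  by_contra hc
  simp only [not_or, not_not, E] at hc
  exact hc.2.2 ⟨hc.2.1, fun A' a1 _ hg => hω (good_step hd a1 hg hc.1)⟩

theorem pairs (h : Par (Fintype.card V) p ℓ K ε Θ) (E : V → V → (Sym2 V → Bool) → Prop)
    (hE : ∀ u v, Pr p (E u v) ≤ Real.exp (-(3 * ℓ))) :
    Pr p (fun ω => ∃ u v, E u v ω) ≤ 1 / K := by
  have h0 := h.p0.le
  have h1 : p ≤ 1 := by linarith [h.p1]
  have k1 := Pr_exists h0 h1 (univ : Finset (V × V)) fun x ω => E x.1 x.2 ω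
  have k2 : ∑ x : V × V, Pr p (E x.1 x.2) ≤ ∑ _x : V × V, Real.exp (-(3 * ℓ)) :=
    sum_le_sum fun x _ => hE _ _
  refine le_trans (Pr_mono h0 h1 fun ω ⟨u, v, hω⟩ => ⟨(u, v), mem_univ _, hω⟩) (k1.trans
    (k2.trans ?_))
  rw [sum_const, card_univ, Fintype.card_prod, nsmul_eq_mul, le_div_iff₀ (by linarith [h.k1])]
  push_cast
  have k3 : K ≤ Real.exp ℓ := by nlinarith [Real.add_one_le_exp ℓ, h.lK, h.k1]
  have k4 : Real.exp ℓ * Real.exp ℓ * Real.exp (-(3 * ℓ)) * Real.exp ℓ = 1 := by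
    rw [← Real.exp_add, ← Real.exp_add, ← Real.exp_add, ← Real.exp_zero]; congr 1; ring
  rw [← k4]
  have := h.nle
  have := h.k1
  gcongr

theorem nb_fail (h : Par (Fintype.card V) p ℓ K ε Θ) {k : ℕ} {A : Fin k → Finset V} {R : Finset V}
    (hd : ∀ j, Disjoint (A j) R) (hR : (Fintype.card V : ℝ) / 2 ≤ R.card) :
    Pr p (fun ω : Sym2 V → Bool => ¬ Nb (gr ω) A R) ≤ 1 / K := by
  have h0 := h.p0.le
  have h1 : p ≤ 1 := by linarith [h.p1]
  refine le_trans (Pr_mono h0 h1 fun ω hω => ?_) (pairs h (fun u v ω => u ≠ v ∧ u ∉ R ∧ v ∉ R ∧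
    ∀ z ∈ R, (hit (gr ω) u {z} ↔ hit (gr ω) v {z})) fun u v => ?_)
  · simp only [Nb, not_forall] at hω
    obtain ⟨u, v, ⟨i, hi⟩, ⟨j, hj⟩, a1, a2⟩ := hω
    exact ⟨u, v, a2, disjoint_left.mp (hd i) hi, disjoint_left.mp (hd j) hj, by simpa [hit] using a1⟩
  · by_cases hc : u ≠ v ∧ u ∉ R ∧ v ∉ R
    · refine (Pr_mono h0 h1 fun ω hω => hω.2.2.2).trans ((Pr_same h0 h1 R (fun z => {z})
        (fun i _ j _ hij => by simpa using hij) hc.1
        (fun j hj e => hc.2.1 (mem_singleton.mp e ▸ hj))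
        (fun j hj e => hc.2.2 (mem_singleton.mp e ▸ hj))
        (fun j _ => by simpa [qq] using h.p1)).trans (Real.exp_le_exp.mpr ?_))
      simp only [qq, card_singleton, pow_one, sub_sub_cancel, sum_const, nsmul_eq_mul]
      nlinarith [h.np1, h.l0]
    · refine le_trans ?_ (Real.exp_pos _).le
      rw [← Ex_const (ι := Sym2 V) (p := p) 0]
      exact Ex_mono h0 h1 fun ω => (ind_neg fun hh => hc ⟨hh.1, hh.2.1, hh.2.2.1⟩).le

theorem finish (h : Par (Fintype.card V) p ℓ K ε Θ) {k θ : ℕ} {A : Fin k → Finset V}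
    {R : Finset V} (hc : Coins A R θ) (h1 : 1 ≤ θ) (h2 : θ ≤ Θ)
    (hR : (Fintype.card V : ℝ) / 2 ≤ R.card) (hk : 6 * ℓ ≤ k * (p * θ)) :
    Pr p (fun ω : Sym2 V → Bool => ¬ Good (gr ω) 2 A R) ≤ 2 / K := by
  have h0 := h.p0.le
  have hp1 : p ≤ 1 := by linarith [h.p1]
  have hq := coin_q h hc h1 h2
  have k1 := pairs h (fun u v ω => u ≠ v ∧ u ∈ R ∧ v ∈ R ∧
    ∀ j ∈ univ, (hit (gr ω) u (A j) ↔ hit (gr ω) v (A j))) fun u v => by
      by_cases hh : u ≠ v ∧ u ∈ R ∧ v ∈ R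
      · refine (Pr_mono h0 hp1 fun ω hω => hω.2.2.2).trans ((Pr_same h0 hp1 univ A
          (fun i _ j _ hij => hc.dj i j hij) hh.1
          (fun j _ => disjoint_right.mp (hc.dR j) hh.2.1)
          (fun j _ => disjoint_right.mp (hc.dR j) hh.2.2)
          (fun j _ => (hq j).2.2)).trans (Real.exp_le_exp.mpr ?_))
        have : ∑ _j : Fin k, p * θ / 2 ≤ ∑ j, qq p (A j) := sum_le_sum fun j _ => (hq j).1
        rw [sum_const, card_univ, Fintype.card_fin, nsmul_eq_mul] at this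
        linarith
      · refine le_trans ?_ (Real.exp_pos _).le
        rw [← Ex_const (ι := Sym2 V) (p := p) 0]
        exact Ex_mono h0 hp1 fun ω => (ind_neg fun e => hh ⟨e.1, e.2.1, e.2.2.1⟩).le
  refine le_trans (Pr_mono h0 hp1 fun ω hω => ?_) ((Pr_or h0 hp1 _ _).trans
    ((add_le_add k1 (nb_fail h hc.dR hR)).trans (le_of_eq (by ring))))
  by_contra hh
  rw [not_or, not_not] at hh
  refine hω (good_final hc.dR (fun u hu v hv e => ?_) hh.2)
  by_contra huv
  exact hh.1 ⟨u, v, huv, hu, hv, fun j _ => e j⟩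

omit [DecidableEq V] in
theorem Coins.k_le {k θ : ℕ} {A : Fin k → Finset V} {R : Finset V} (hc : Coins A R θ)
    (h1 : 1 ≤ θ) : k ≤ Fintype.card V := by
  have : ∀ j, ∃ a, a ∈ A j := fun j => card_pos.mp (lt_of_lt_of_le h1 (hc.lo j))
  choose f hf using this
  simpa using Fintype.card_le_of_injective f fun i j e => by
    by_contra hij
    exact disjoint_left.mp (hc.dj i j hij) (hf i) (e ▸ hf j)

/-- the invariant of the unfinished stages -/
def Inv (n p ℓ K : ℝ) (Θ a b k θ : ℕ) : Prop :=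
  10 * ℓ * 1000 ^ a ≤ k ∧ n < (k / (1000 ^ a * (2 * 10 ^ 6 * K))) ^ 2 ^ b ∧
    (16 : ℝ) ^ b * Θ < θ * (n * p) ^ a

theorem main_ind (h : Par (Fintype.card V) p ℓ K ε Θ) (r : ℕ) : ∀ (a b k θ : ℕ)
    (A : Fin k → Finset V) (R : Finset V), a + b = r → Coins A R θ → 1 ≤ θ → θ ≤ Θ →
    (Fintype.card V : ℝ) / 2 + r * ((12 * ℓ + 1) / p) ≤ R.card →
    (6 * ℓ ≤ k * (p * θ) ∨ Inv (Fintype.card V) p ℓ K Θ a b k θ) →
    Pr p (fun ω : Sym2 V → Bool => ¬ Good (gr ω) (2 * r + 2) A R) ≤ (r + 1) * (10 / K) := by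
  have h0 := h.p0
  have hp1 : p ≤ 1 := by linarith [h.p1]
  have hK := h.k1
  have hl := h.l0
  have hn0 := h.n0
  have hfin : ∀ (r k θ : ℕ) (A : Fin k → Finset V) (R : Finset V), Coins A R θ → 1 ≤ θ → θ ≤ Θ →
      (Fintype.card V : ℝ) / 2 + r * ((12 * ℓ + 1) / p) ≤ R.card → 6 * ℓ ≤ k * (p * θ) →
      Pr p (fun ω : Sym2 V → Bool => ¬ Good (gr ω) (2 * r + 2) A R) ≤ (r + 1) * (10 / K) := by
    intro r k θ A R hc h1 h2 hR hk
    have e := finish h hc h1 h2 (le_trans (le_add_of_nonneg_right (by positivity)) hR) hk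
    refine le_trans (Pr_mono h0.le hp1 (F := fun ω : Sym2 V → Bool => ¬ Good (gr ω) 2 A R)
      fun ω hω hg => hω (Good.mono hg (by omega))) (e.trans ?_)
    have : 2 / K ≤ 10 / K := by gcongr; norm_num
    have : 0 ≤ (r : ℝ) * (10 / K) := by positivity
    linarith
  have ha : ∀ {a b k θ : ℕ}, θ ≤ Θ → Inv (Fintype.card V) p ℓ K Θ a b k θ → a ≠ 0 := by
    rintro a b k θ h2 hI rfl
    have k1 := hI.2.2
    have k2 : (θ : ℝ) ≤ Θ := by exact_mod_cast h2
    have k3 : (1 : ℝ) ≤ 16 ^ b := one_le_pow₀ (by norm_num)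
    rw [pow_zero, mul_one] at k1
    nlinarith [Nat.cast_nonneg (α := ℝ) Θ]
  induction r with
  | zero =>
    intro a b k θ A R hab hc h1 h2 hR hI
    exact hI.elim (hfin 0 k θ A R hc h1 h2 hR) fun hI => absurd (by omega) (ha h2 hI)
  | succ r ih =>
    intro a b k θ A R hab hc h1 h2 hR hI
    refine hI.elim (hfin _ k θ A R hc h1 h2 hR) fun hI => ?_
    have hB : 0 < (12 * ℓ + 1) / p := by positivity
    have hR' : (Fintype.card V : ℝ) / 2 ≤ R.card :=
      le_trans (le_add_of_nonneg_right (by positivity)) hR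
    have ha1 : (1 : ℝ) ≤ 1000 ^ a := one_le_pow₀ (by norm_num)
    have hk : 10 * ℓ ≤ k := le_trans (by nlinarith) hI.1
    have hn1 : (1 : ℝ) ≤ Fintype.card V := by exact_mod_cast (show 0 < Fintype.card V by exact_mod_cast hn0)
    obtain ⟨θ', κ, t1, t2, hS, hN⟩ : ∃ θ' κ : ℕ, 1 ≤ θ' ∧ θ' ≤ Θ ∧ (∀ k' ≤ κ,
        Pr p (fun ω : Sym2 V → Bool => ¬ StageOK (gr ω) A R k' θ') ≤ 8 / K) ∧
        (6 * ℓ ≤ κ * (p * θ') ∨ ∃ a' b', a' + b' = r ∧ Inv (Fintype.card V) p ℓ K Θ a' b' κ θ') := by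
      rcases le_or_gt (8 * (p * θ) * Fintype.card V) (Θ : ℝ) with hh | hh
      · obtain ⟨θ', κ, t1, t2, hS, hN⟩ := stepA h hc h1 h2 hR' hk hh
        refine ⟨θ', κ, t1, t2, hS, hN.imp id fun ⟨n1, n2⟩ => ?_⟩
        obtain ⟨a, rfl⟩ := Nat.exists_eq_succ_of_ne_zero (ha h2 hI)
        obtain ⟨i1, i2, i3⟩ := hI
        refine ⟨a, b, by omega, ?_, i2.trans_le (pow_le_pow_left₀ (by positivity) ?_ _),
          i3.trans_le ?_⟩
        · rw [pow_succ] at i1; linarith
        · rw [div_le_div_iff₀ (by positivity) (by positivity), Nat.succ_eq_add_one, pow_succ _ a]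
          have : (0 : ℝ) < 1000 ^ a * (2 * 10 ^ 6 * K) := by positivity
          nlinarith
        · rw [pow_succ', ← mul_assoc]
          exact mul_le_mul_of_nonneg_right n1 (by positivity)
      · obtain ⟨θ', κ, t1, t2, hS, hN⟩ := stepB h hc h1 h2 hR' hk hh
        refine ⟨θ', κ, t1, t2, hS, hN.imp id fun ⟨n1, n2⟩ => ?_⟩
        obtain ⟨i1, i2, i3⟩ := hI
        have hc0 : (0 : ℝ) < 2 * 10 ^ 6 * K := by positivity
        have hc1 : (1 : ℝ) ≤ 2 * 10 ^ 6 * K := by linarith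
        have j1 : (1000 : ℝ) ^ a * (2 * 10 ^ 6 * K) ≤ k := by
          by_contra hlt
          have := pow_le_one₀ (n := 2 ^ b) (by positivity)
            ((div_le_one (by positivity)).mpr (not_le.mp hlt).le)
          linarith
        have hb : b ≠ 0 := by
          rintro rfl
          have k1 : (k : ℝ) ≤ Fintype.card V := by exact_mod_cast hc.k_le h1
          rw [pow_zero, pow_one, lt_div_iff₀ (by positivity)] at i2
          have := mul_le_mul ha1 hc1 zero_le_one (by positivity)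
          nlinarith
        obtain ⟨b, rfl⟩ := Nat.exists_eq_succ_of_ne_zero hb
        set c := 2 * 10 ^ 6 * K with hcdef
        have j2 : (k : ℝ) ≤ κ := by
          have k1 : c ≤ k := le_trans (by nlinarith) j1
          have k2 : c * k ≤ c * κ := by nlinarith
          exact le_of_mul_le_mul_left k2 hc0
        refine ⟨a, b, by omega, i1.trans j2, i2.trans_le ?_, ?_⟩
        · rw [Nat.succ_eq_add_one, pow_succ' 2 b, pow_mul]
          refine pow_le_pow_left₀ (by positivity) ?_ _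
          rw [div_pow, div_le_div_iff₀ (by positivity) (by positivity)]
          have k1 : (k : ℝ) ^ 2 * (1000 ^ a * c) ≤ (c * κ) * (1000 ^ a * c) := by gcongr
          have k2 : (0 : ℝ) ≤ κ * (1000 ^ a * c ^ 2) := by positivity
          nlinarith
        · rw [Nat.succ_eq_add_one, pow_succ] at i3
          have : (θ : ℝ) * (Fintype.card V * p) ^ a ≤ 16 * θ' * (Fintype.card V * p) ^ a := by gcongr
          linarith
    have hθ' : (0 : ℝ) < p * θ' := by
      have : (0 : ℝ) < θ' := by exact_mod_cast t1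
      positivity
    obtain ⟨k', k1, k2, a', b', k3, k4⟩ : ∃ k' ≤ κ, (k' : ℝ) * (p * θ') ≤ 6 * ℓ + p * θ' ∧ ∃ a' b',
        a' + b' = r ∧ (6 * ℓ ≤ k' * (p * θ') ∨ Inv (Fintype.card V) p ℓ K Θ a' b' k' θ') := by
      by_cases hh : 6 * ℓ ≤ κ * (p * θ')
      · refine ⟨⌈6 * ℓ / (p * θ')⌉₊, Nat.ceil_le.mpr (by rwa [div_le_iff₀ hθ']), ?_, r, 0, rfl,
          Or.inl ((div_le_iff₀ hθ').mp (Nat.le_ceil _))⟩
        have := (Nat.ceil_lt_add_one (show 0 ≤ 6 * ℓ / (p * θ') by positivity)).le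
        rw [← sub_le_iff_le_add, le_div_iff₀ hθ'] at this
        linarith
      · obtain ⟨a', b', e1, e2⟩ := hN.resolve_left hh
        exact ⟨κ, le_rfl, by linarith, a', b', e1, Or.inr e2⟩
    refine (adapt h0.le hp1 hc.dR (k' := k') (θ' := θ') (r := 2 * r + 2)
      (β := (r + 1) * (10 / K)) (by positivity) fun A' hA' hc' =>
        ih a' b' k' θ' A' _ k3 hc' t1 t2 ?_ k4).trans ?_
    · have e1 : (univ.biUnion A').card ≤ k' * (2 * θ') := by
        refine card_biUnion_le.trans ?_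
        simpa using sum_le_card_nsmul univ (fun j => (A' j).card) _ fun j _ => (hc'.hi j).le
      have e2 := le_card_sdiff (univ.biUnion A') R
      have e3 : (R.card : ℝ) ≤ (R \ univ.biUnion A').card + k' * (2 * θ') := by
        exact_mod_cast (show R.card ≤ (R \ univ.biUnion A').card + k' * (2 * θ') by omega)
      have e4 : (k' : ℝ) * (2 * θ') ≤ (12 * ℓ + 1) / p := by
        rw [le_div_iff₀ h0]
        have : (θ' : ℝ) ≤ Θ := by exact_mod_cast t2
        nlinarith [h.pt]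
      push_cast at hR
      linarith
    · have e1 := nb_fail h hc.dR hR'
      have e2 := hS k' k1
      have : 1 / K + 8 / K ≤ 10 / K := by rw [← add_div]; gcongr; norm_num
      push_cast
      linarith

end Pool.Agent.H439Z.RG
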