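import Mathlib
import Pool.Agent.H439Z.RG6

set_option autoImplicit false

open Finset Filter

namespace Pool.Agent.H439Z.RG

/-- `G` is defined by a sentence of depth at most `x` -/
def Dfn {n : ℕ} (x : ℝ) (G : SimpleGraph (Fin n)) : Prop :=
  ∃ k : ℕ, (k : ℝ) ≤ x ∧ ∃ φ : FirstOrder.Language.graph.Sentence, Dp 0 φ k ∧
    ∀ (m : ℕ) (H : SimpleGraph (Fin m)),
      @FirstOrder.Language.Sentence.Realize FirstOrder.Language.graph (Fin m) H.structure φ ↔
        Nonempty (G ≃g H)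

theorem fin_bound {n : ℕ} {p ℓ K ε : ℝ} {Θ : ℕ} (h : Par n p ℓ K ε Θ) {a : ℕ}
    (ha1 : 1 ≤ 4 * ε * a) (ha2 : 2 ≤ a) (ha3 : (1000 : ℝ) ^ a ≤ ℓ) {L : ℝ} (hL : 1 ≤ L)
    (hL2 : ℓ ≤ L ^ 4) :
    Pr p (fun ω : Sym2 (Fin n) → Bool => ¬ Dfn ((2 * a + 13 + 10 * 1000 ^ a) * ℓ) (gr ω)) ≤
      (a + 3 + 6 * L) * (10 / K) := by
  have hl := h.l1
  have hK := h.k1
  have hp := h.p0
  have hp1 := h.p1
  have hn := h.n0
  obtain ⟨b, hb1, hb2⟩ : ∃ b : ℕ, ℓ < 2 ^ b ∧ (2 : ℝ) ^ b ≤ 4 * ℓ := by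
    have h0 : ⌈ℓ⌉₊ ≠ 0 := (Nat.ceil_pos.mpr h.l0).ne'
    have h1 : (⌈ℓ⌉₊ : ℝ) < 2 ^ (Nat.log 2 ⌈ℓ⌉₊ + 1) := by
      exact_mod_cast Nat.lt_pow_succ_log_self (b := 2) (by norm_num) _
    have h2 : (2 : ℝ) ^ (Nat.log 2 ⌈ℓ⌉₊) ≤ ⌈ℓ⌉₊ := by exact_mod_cast Nat.pow_log_le_self 2 h0
    refine ⟨Nat.log 2 ⌈ℓ⌉₊ + 1, (Nat.le_ceil ℓ).trans_lt h1, ?_⟩
    have := Nat.ceil_lt_add_one h.l0.le
    rw [pow_succ]
    linarith
  have hb3 : (b : ℝ) ≤ 4 * ℓ := le_trans (by exact_mod_cast Nat.lt_two_pow_self.le) hb2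
  have hb4 : (b : ℝ) ≤ 2 + 6 * L := by
    have k1 : Real.log (2 ^ b) ≤ Real.log (2 ^ 2 * L ^ 4) :=
      Real.log_le_log (by positivity) (by linarith)
    rw [Real.log_mul (by positivity) (by positivity), Real.log_pow, Real.log_pow, Real.log_pow] at k1
    have k2 := Real.log_le_sub_one_of_pos (show 0 < L by linarith)
    have k3 := Real.log_two_gt_d9
    push_cast at k1
    by_contra hc
    push Not at hc
    nlinarith
  have ha4 : (a : ℝ) ≤ ℓ := le_trans (by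
    exact_mod_cast (Nat.lt_pow_self (by norm_num : 1 < 1000)).le) ha3
  have ha5 : (1 : ℝ) ≤ 1000 ^ a := one_le_pow₀ (by norm_num)
  obtain ⟨k, hk1, hk2⟩ : ∃ k : ℕ, 10 * ℓ * 1000 ^ a ≤ k ∧ (k : ℝ) ≤ 10 * ℓ * 1000 ^ a + 1 :=
    ⟨_, Nat.le_ceil _, (Nat.ceil_lt_add_one (by positivity)).le⟩
  have hk3 : (k : ℝ) ≤ 11 * ℓ ^ 2 := by nlinarith
  have hsz : (n : ℝ) / 2 + (a + b : ℕ) * ((12 * ℓ + 1) / p) + k ≤ n := by
    have k1 : ((a + b : ℕ) : ℝ) * (12 * ℓ + 1) ≤ (5 * ℓ) * (13 * ℓ) :=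
      mul_le_mul (by push_cast; linarith) (by linarith) (by positivity) (by positivity)
    have k2 : ((a + b : ℕ) : ℝ) * ((12 * ℓ + 1) / p) ≤ n / 2 - k := by
      rw [← mul_div_assoc, div_le_iff₀ hp]
      have := h.np3
      have k3 : 10 ^ 8 * ℓ ^ 2 ≤ ℓ ^ 3 := by nlinarith [sq_nonneg ℓ]
      have : (k : ℝ) * p ≤ k := by nlinarith [Nat.cast_nonneg (α := ℝ) k]
      nlinarith [sq_nonneg ℓ]
    linarith
  have hkn : k ≤ n := by
    have : (0 : ℝ) ≤ (a + b : ℕ) * ((12 * ℓ + 1) / p) := by positivity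
    exact_mod_cast (show (k : ℝ) ≤ n by linarith)
  let A : Fin k → Finset (Fin n) := fun j => {Fin.castLE hkn j}
  have hc : Coins A (univ \ univ.biUnion A) 1 :=
    ⟨fun i j hij => by simpa [A] using hij,
      fun j => disjoint_sdiff.mono_left (subset_biUnion_of_mem A (mem_univ j)),
      fun j => by simp [A], fun j => by simp [A]⟩
  have hR : (n : ℝ) ≤ (univ \ univ.biUnion A).card + k := by
    have e1 : (univ.biUnion A).card ≤ k := card_biUnion_le.trans (by simp [A])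
    have e2 := le_card_sdiff (univ.biUnion A) univ
    rw [card_univ, Fintype.card_fin] at e2
    exact_mod_cast (show n ≤ (univ \ univ.biUnion A).card + k by omega)
  have hI : Inv n p ℓ K Θ a b k 1 := by
    refine ⟨hk1, ?_, ?_⟩
    · have k1 : Real.exp 1 ≤ k / (1000 ^ a * (2 * 10 ^ 6 * K)) := by
        rw [le_div_iff₀ (by positivity)]
        have k2 : Real.exp 1 * (2 * 10 ^ 6 * K) ≤ 10 * ℓ := by
          nlinarith [Real.exp_one_lt_d9, h.lK]
        nlinarith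
      refine lt_of_lt_of_le ?_ (pow_le_pow_left₀ (Real.exp_pos _).le k1 _)
      rw [← Real.exp_nat_mul, mul_one]
      exact h.nle.trans_lt (Real.exp_lt_exp.mpr (by exact_mod_cast hb1))
    · have k1 : (16 : ℝ) ^ b ≤ (4 * ℓ) ^ 4 := by
        rw [show (16 : ℝ) = 2 ^ 4 by norm_num, ← pow_mul, mul_comm, pow_mul]
        exact pow_le_pow_left₀ (by positivity) hb2 4
      have k2 : (Θ : ℝ) ≤ Real.exp ℓ := by
        refine le_trans ?_ h.nle
        have k3 : p * Θ ≤ p * n := by nlinarith [h.pt, h.np1]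
        exact le_of_mul_le_mul_left k3 hp
      have k3 : Real.exp ℓ * ℓ ^ 6 ≤ (n * p) ^ a := by
        refine le_trans ?_ (pow_le_pow_left₀ (by positivity) h.np a)
        rw [mul_pow, ← Real.exp_nat_mul, ← pow_mul]
        exact mul_le_mul (Real.exp_le_exp.mpr (by nlinarith))
          (pow_le_pow_right₀ (by linarith) (by omega)) (by positivity) (by positivity)
      have k4 : (4 * ℓ) ^ 4 < ℓ ^ 6 := by
        have : 0 < ℓ ^ 4 := by positivity
        have : 256 < ℓ ^ 2 := by nlinarith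
        nlinarith
      have k5 := mul_le_mul k1 k2 (by positivity) (by positivity)
      have k6 := mul_lt_mul_of_pos_left k4 (Real.exp_pos ℓ)
      push_cast
      linarith
  have key := main_ind (V := Fin n) (by simpa using h) (a + b) a b k 1 A _ rfl hc le_rfl h.t1
    (by rw [Fintype.card_fin]; linarith) (Or.inr (by simpa using hI))
  have hp2 : p ≤ 1 := by linarith
  refine le_trans (b := Pr p fun ω : Sym2 (Fin n) → Bool =>
    ¬ Good (gr ω) (2 * (a + b) + 2) A (univ \ univ.biUnion A))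
    (Pr_mono hp.le hp2 fun ω hω hg => hω ?_) (key.trans ?_)
  · unfold Good at hg
    rw [ground_next fun j => subset_univ _, coe_univ] at hg
    obtain ⟨φ, h1, h2⟩ := defined_of_discrete (gr ω) (Fin.castLE hkn) (r := 2 * (a + b) + 2)
      fun u v huv => hg u trivial v trivial (by simpa [A] using huv)
    refine ⟨_, ?_, φ, h1, h2⟩
    push_cast
    nlinarith [Nat.cast_nonneg (α := ℝ) a]
  · push_cast
    exact mul_le_mul_of_nonneg_right (by linarith) (by positivity)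

theorem main (δ : ℝ) (h1 : δ < 1) (h0 : 0 < δ) (p : ℕ → ℝ)
    (hp : ∀ᶠ n : ℕ in atTop, (n : ℝ) ^ (-δ) ≤ p n ∧ p n ≤ 1 / 2) :
    ∃ C : ℝ, 0 < C ∧ Tendsto (fun n : ℕ => Pr (p n) fun ω : Sym2 (Fin n) → Bool =>
      Dfn (C * Real.log n) (gr ω)) atTop (nhds 1) := by
  set ε := (1 - δ) / 8 with hε
  have he : 0 < ε := by linarith
  obtain ⟨a, ha1, ha2⟩ : ∃ a : ℕ, 1 ≤ 4 * ε * a ∧ 2 ≤ a := by
    obtain ⟨a, ha⟩ := exists_nat_ge (1 / (4 * ε))
    rw [div_le_iff₀ (by positivity)] at ha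
    exact ⟨a + 2, by push_cast; nlinarith, by omega⟩
  refine ⟨2 * a + 13 + 10 * 1000 ^ a, by positivity, ?_⟩
  have hl : Tendsto (fun n : ℕ => Real.log n) atTop atTop :=
    Real.tendsto_log_atTop.comp tendsto_natCast_atTop_atTop
  have hK := Real.tendsto_sqrt_atTop.comp hl
  have hL := Real.tendsto_sqrt_atTop.comp hK
  have hE : ∀ᶠ n : ℕ in atTop, Real.log n ^ 3 ≤ Real.exp (4 * ε * Real.log n) := by
    have := (isLittleO_pow_exp_pos_mul_atTop 3 (show 0 < 4 * ε by positivity)).eventuallyLE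
    filter_upwards [hl.eventually this] with n hn
    exact (le_abs_self _).trans (hn.trans (abs_of_pos (Real.exp_pos _)).le)
  have hlim : Tendsto (fun n : ℕ => 1 - (a + 9 : ℝ) * 10 / √(√(Real.log n))) atTop (nhds 1) := by
    simpa using (tendsto_const_nhds (x := (1 : ℝ))).sub (hL.const_div_atTop ((a + 9 : ℝ) * 10))
  refine tendsto_of_tendsto_of_tendsto_of_le_of_le' hlim tendsto_const_nhds ?_ ?_
  · filter_upwards [hp, hE, hK.eventually_ge_atTop (10 ^ 8 / ε ^ 2), hK.eventually_ge_atTop 1,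
      hL.eventually_ge_atTop 1, hl.eventually_ge_atTop (1000 ^ a), eventually_gt_atTop 0,
      hl.eventually_ge_atTop 0] with n hn e1 e2 e3 e4 e5 e6 e7
    simp only [Function.comp] at e2 e3 e4
    have hn0 : (0 : ℝ) < n := by exact_mod_cast e6
    have hp0 : 0 < p n := (Real.rpow_pos_of_pos hn0 _).trans_le hn.1
    set ℓ := Real.log n with hℓ
    have hK2 : √ℓ ^ 2 = ℓ := Real.sq_sqrt e7
    have hL2 : √(√ℓ) ^ 2 = √ℓ := Real.sq_sqrt (Real.sqrt_nonneg _)
    have hΘ1 : 1 / (4 * p n) < (max 1 ⌊1 / (4 * p n)⌋₊ : ℕ) + 1 :=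
      (Nat.lt_floor_add_one _).trans_le (by exact_mod_cast Nat.succ_le_succ (le_max_right _ _))
    have hΘ2 : (1 : ℝ) ≤ (max 1 ⌊1 / (4 * p n)⌋₊ : ℕ) := by exact_mod_cast le_max_left _ _
    have hP : Par n (p n) ℓ (√ℓ) ε (max 1 ⌊1 / (4 * p n)⌋₊) := by
      refine ⟨hp0, le_max_left _ _, ?_, ?_, (Real.exp_log hn0).ge, e3, hK2.le, he, by linarith,
        ?_, ?_⟩
      · rcases max_choice 1 ⌊1 / (4 * p n)⌋₊ with e | e <;> rw [e]
        · norm_num; linarith [hn.2]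
        · have := Nat.floor_le (show 0 ≤ 1 / (4 * p n) by positivity)
          rw [le_div_iff₀ (by positivity)] at this
          linarith
      · rw [div_lt_iff₀ (by positivity)] at hΘ1
        nlinarith
      · rw [div_le_iff₀ (by positivity)] at e2
        nlinarith
      · have k1 : Real.exp (4 * ε * ℓ) * Real.exp (4 * ε * ℓ) = n * (n : ℝ) ^ (-δ) := by
          rw [Real.rpow_def_of_pos hn0, ← Real.exp_add]
          nth_rewrite 1 [← Real.exp_log hn0]
          rw [← Real.exp_add, hε]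
          congr 1
          ring
        exact (mul_le_mul_of_nonneg_left e1 (Real.exp_pos _).le).trans
          (k1.le.trans (mul_le_mul_of_nonneg_left hn.1 hn0.le))
    have key := fin_bound hP ha1 ha2 e5 e4 (by nlinarith)
    rw [Pr_not] at key
    have : (a + 3 + 6 * √(√ℓ)) * (10 / √ℓ) ≤ (a + 9 : ℝ) * 10 / √(√ℓ) := by
      rw [← mul_div_assoc, div_le_div_iff₀ (by linarith) (by linarith)]
      nth_rewrite 3 [← hL2]
      have : (0 : ℝ) ≤ (a + 3) * (√(√ℓ) * (√(√ℓ) - 1)) := by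
        have : 0 ≤ √(√ℓ) - 1 := by linarith
        positivity
      nlinarith
    linarith
  · filter_upwards [hp, eventually_gt_atTop 0] with n hn e6
    have hn0 : (0 : ℝ) < n := by exact_mod_cast e6
    have hp0 : 0 < p n := (Real.rpow_pos_of_pos hn0 _).trans_le hn.1
    rw [← Ex_const (ι := Sym2 (Fin n)) (p := p n) 1]
    exact Ex_mono hp0.le (by linarith [hn.2]) fun ω => ind_le_one _

end Pool.Agent.H439Z.RG
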