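import Mathlib

set_option autoImplicit false

open Complex MeasureTheory Set Filter Metric
open scoped Topology Interval

namespace Pool.Agent.H439Z.SE

/-- the open square of half side `ρ` around the real point `c` -/
def Sq (c ρ : ℝ) : Set ℂ := {u | |u.re - c| < ρ ∧ |u.im| < ρ}

theorem isOpen_Sq (c ρ : ℝ) : IsOpen (Sq c ρ) := by
  have h1 : IsOpen {u : ℂ | |u.re - c| < ρ} := isOpen_lt (by fun_prop) continuous_const
  have h2 : IsOpen {u : ℂ | |u.im| < ρ} := isOpen_lt (by fun_prop) continuous_const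
  exact h1.inter h2

theorem mem_Sq {c ρ x y : ℝ} (hx : |x - c| < ρ) (hy : |y| < ρ) : (x : ℂ) + y * I ∈ Sq c ρ := by
  constructor <;> simpa

theorem abs_uIcc {c ρ a b x : ℝ} (ha : |a - c| < ρ) (hb : |b - c| < ρ) (hx : x ∈ [[a, b]]) :
    |x - c| < ρ := by
  rw [abs_lt] at *
  rcases mem_uIcc.mp hx with h | h <;> constructor <;> linarith [h.1, h.2, ha.1, ha.2, hb.1, hb.2]

theorem abs_uIcc0 {ρ a b x : ℝ} (ha : |a| < ρ) (hb : |b| < ρ) (hx : x ∈ [[a, b]]) :
    |x| < ρ := by
  simpa using abs_uIcc (c := 0) (by simpa using ha) (by simpa using hb) hx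

/-- bounded, holomorphic off the real line, vertically continuous at almost every real point -/
structure Good (F : ℂ → ℂ) (c ρ B : ℝ) : Prop where
  bd : ∀ u ∈ Sq c ρ, ‖F u‖ ≤ B
  diff : ∀ u ∈ Sq c ρ, u.im ≠ 0 → DifferentiableAt ℂ F u
  vert : ∀ᵐ x : ℝ, |x - c| < ρ → ContinuousAt (fun y : ℝ => F (x + y * I)) 0

variable {F : ℂ → ℂ} {c ρ B : ℝ}

theorem int_of_meas {g : ℝ → ℂ} {a b B : ℝ}
    (h1 : AEStronglyMeasurable g (volume.restrict (Ι a b))) (h2 : ∀ x ∈ [[a, b]], ‖g x‖ ≤ B) :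
    IntervalIntegrable g volume a b := by
  rw [intervalIntegrable_iff]
  have : IsFiniteMeasure (volume.restrict (Ι a b)) := ⟨by
    rw [Measure.restrict_apply_univ, Real.volume_uIoc]; exact ENNReal.ofReal_lt_top⟩
  refine Integrable.of_bound h1 B ?_
  rw [ae_restrict_iff' measurableSet_uIoc]
  exact Eventually.of_forall fun x hx => h2 x (uIoc_subset_uIcc hx)

theorem Good.vint (h : Good F c ρ B) {a y1 y2 : ℝ} (ha : |a - c| < ρ) (h1 : |y1| < ρ)
    (h2 : |y2| < ρ) : IntervalIntegrable (fun y : ℝ => F (a + y * I)) volume y1 y2 := by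
  refine int_of_meas ?_ fun y hy => h.bd _ (mem_Sq ha (abs_uIcc0 h1 h2 hy))
  have e : volume.restrict (Ι y1 y2) = volume.restrict (Ι y1 y2 \ {0}) :=
    Measure.restrict_congr_set (diff_null_ae_eq_self (measure_singleton 0)).symm
  rw [e]
  refine ContinuousOn.aestronglyMeasurable (fun y hy => ?_)
    (measurableSet_uIoc.diff (measurableSet_singleton 0))
  have hd := h.diff _ (mem_Sq ha (abs_uIcc0 h1 h2 (uIoc_subset_uIcc hy.1))) (by simpa using hy.2)
  exact (hd.continuousAt.comp (f := fun y : ℝ => (a : ℂ) + y * I) (by fun_prop)).continuousWithinAt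

theorem Good.hmeas (h : Good F c ρ B) {a b y : ℝ} (ha : |a - c| < ρ) (hb : |b - c| < ρ)
    (h1 : |y| < ρ) (hy : y ≠ 0) :
    AEStronglyMeasurable (fun x : ℝ => F (x + y * I)) (volume.restrict (Ι a b)) := by
  refine ContinuousOn.aestronglyMeasurable (fun x hx => ?_) measurableSet_uIoc
  have hd := h.diff _ (mem_Sq (abs_uIcc ha hb (uIoc_subset_uIcc hx)) h1) (by simpa using hy)
  exact (hd.continuousAt.comp (f := fun x : ℝ => (x : ℂ) + y * I) (by fun_prop)).continuousWithinAt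

theorem seq_tendsto (t : ℝ) : Tendsto (fun n : ℕ => t * (1 / ((n : ℝ) + 1))) atTop (𝓝 0) := by
  simpa using tendsto_one_div_add_atTop_nhds_zero_nat.const_mul t

theorem seq_abs {t ρ : ℝ} (ht : |t| < ρ) (n : ℕ) : |t * (1 / ((n : ℝ) + 1))| < ρ := by
  refine lt_of_le_of_lt ?_ ht
  rw [abs_mul, abs_of_pos (by positivity : (0 : ℝ) < 1 / ((n : ℝ) + 1))]
  refine mul_le_of_le_one_right (abs_nonneg _) ?_
  rw [div_le_one (by positivity)]
  have : (0 : ℝ) ≤ n := Nat.cast_nonneg _
  linarith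

theorem Good.hlim (h : Good F c ρ B) {a b : ℝ} (ha : |a - c| < ρ) (hb : |b - c| < ρ) (t : ℝ) :
    ∀ᵐ x : ℝ, x ∈ Ι a b → Tendsto (fun n : ℕ => F (x + (t * (1 / ((n : ℝ) + 1)) : ℝ) * I)) atTop
      (𝓝 (F (x + (0 : ℝ) * I))) := by
  filter_upwards [h.vert] with x hx hxab
  exact (hx (abs_uIcc ha hb (uIoc_subset_uIcc hxab))).tendsto.comp (seq_tendsto t)

theorem Good.hint (h : Good F c ρ B) {a b y : ℝ} (ha : |a - c| < ρ) (hb : |b - c| < ρ)
    (h1 : |y| < ρ) : IntervalIntegrable (fun x : ℝ => F (x + y * I)) volume a b := by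
  refine int_of_meas ?_ fun x hx => h.bd _ (mem_Sq (abs_uIcc ha hb hx) h1)
  by_cases hy : y = 0
  · subst hy
    have hρ : 0 < ρ := by simpa using h1
    have ht : |ρ / 2| < ρ := by rw [abs_of_pos (by positivity)]; linarith
    refine aestronglyMeasurable_of_tendsto_ae atTop
      (f := fun (n : ℕ) (x : ℝ) => F (x + (ρ / 2 * (1 / ((n : ℝ) + 1)) : ℝ) * I))
      (fun n => h.hmeas ha hb (seq_abs ht n) (by positivity)) ?_
    rw [ae_restrict_iff' measurableSet_uIoc]
    exact h.hlim ha hb _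
  · exact h.hmeas ha hb h1 hy

/-- the boundary integral over a rectangle -/
noncomputable def Rect (F : ℂ → ℂ) (a b s t : ℝ) : ℂ :=
  (∫ x : ℝ in a..b, F (x + s * I)) - (∫ x : ℝ in a..b, F (x + t * I)) +
    I • (∫ y : ℝ in s..t, F (b + y * I)) - I • (∫ y : ℝ in s..t, F (a + y * I))

theorem Good.rect0 (h : Good F c ρ B) {a b t : ℝ} (ha : |a - c| < ρ) (hb : |b - c| < ρ)
    (ht : |t| < ρ) : Rect F a b 0 t = 0 := by
  by_cases ht0 : t = 0
  · simp [Rect, ht0]
  have hρ : |(0 : ℝ)| < ρ := by simpa using (abs_nonneg t).trans_lt ht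
  let η : ℕ → ℝ := fun n => t * (1 / ((n : ℝ) + 1))
  have hz : ∀ n, Rect F a b (η n) t = 0 := by
    intro n
    have := integral_boundary_rect_eq_zero_of_differentiableOn F (a + η n * I) (b + t * I) (by
      intro u hu
      have h1 : u.re ∈ [[a, b]] := by simpa using hu.1
      have h2 : u.im ∈ [[η n, t]] := by simpa using hu.2
      refine (h.diff u ⟨abs_uIcc ha hb h1, abs_uIcc0 (seq_abs ht n) ht h2⟩ ?_).differentiableWithinAt
      intro h0
      rw [h0] at h2
      have hp : (0 : ℝ) < 1 / ((n : ℝ) + 1) := by positivity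
      rcases lt_or_gt_of_ne ht0 with h3 | h3
      · have : η n < 0 := mul_neg_of_neg_of_pos h3 hp
        rcases mem_uIcc.mp h2 with h4 | h4 <;> linarith [h4.1, h4.2]
      · have : 0 < η n := mul_pos h3 hp
        rcases mem_uIcc.mp h2 with h4 | h4 <;> linarith [h4.1, h4.2])
    simpa [Rect] using this
  have hv : ∀ x : ℝ, |x - c| < ρ → Tendsto (fun n => ∫ y : ℝ in (η n)..t, F (x + y * I)) atTop
      (𝓝 (∫ y : ℝ in (0 : ℝ)..t, F (x + y * I))) := by
    intro x hx
    rw [tendsto_iff_norm_sub_tendsto_zero]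
    have h0 : Tendsto (fun n => B * |0 - η n|) atTop (𝓝 0) := by
      have := ((seq_tendsto t).const_sub 0).abs.const_mul B
      rw [sub_zero, abs_zero, mul_zero] at this
      exact this
    refine squeeze_zero (fun _ => norm_nonneg _) (fun n => ?_) h0
    rw [← intervalIntegral.integral_add_adjacent_intervals (h.vint hx (seq_abs ht n) hρ)
      (h.vint hx hρ ht), add_sub_cancel_right]
    exact intervalIntegral.norm_integral_le_of_norm_le_const fun y hy =>
      h.bd _ (mem_Sq hx (abs_uIcc0 (seq_abs ht n) hρ (uIoc_subset_uIcc hy)))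
  have hh : Tendsto (fun n => ∫ x : ℝ in a..b, F (x + η n * I)) atTop
      (𝓝 (∫ x : ℝ in a..b, F (x + (0 : ℝ) * I))) := by
    refine intervalIntegral.tendsto_integral_filter_of_dominated_convergence (fun _ => B)
      (Eventually.of_forall fun n => (intervalIntegrable_iff.mp
        (h.hint ha hb (seq_abs ht n))).aestronglyMeasurable)
      (Eventually.of_forall fun n => Eventually.of_forall fun x hx =>
        h.bd _ (mem_Sq (abs_uIcc ha hb (uIoc_subset_uIcc hx)) (seq_abs ht n)))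
      intervalIntegrable_const (h.hlim ha hb t)
  have hlim : Tendsto (fun n => Rect F a b (η n) t) atTop (𝓝 (Rect F a b 0 t)) :=
    ((hh.sub_const _).add ((hv b hb).const_smul I)).sub ((hv a ha).const_smul I)
  simp only [hz] at hlim
  exact tendsto_nhds_unique hlim tendsto_const_nhds

theorem Good.rect (h : Good F c ρ B) {a b s t : ℝ} (ha : |a - c| < ρ) (hb : |b - c| < ρ)
    (hs : |s| < ρ) (ht : |t| < ρ) : Rect F a b s t = 0 := by
  have hρ : |(0 : ℝ)| < ρ := by simpa using (abs_nonneg t).trans_lt ht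
  have h1 := h.rect0 ha hb hs
  have h2 := h.rect0 ha hb ht
  unfold Rect at *
  rw [← intervalIntegral.integral_interval_sub_left (h.vint ha hρ ht) (h.vint ha hρ hs),
    ← intervalIntegral.integral_interval_sub_left (h.vint hb hρ ht) (h.vint hb hρ hs)]
  simp only [smul_eq_mul] at *
  linear_combination h2 - h1

theorem Good.wedge_sub (h : Good F c ρ B) {u w : ℂ} (hu : u ∈ Sq c ρ) (hw : w ∈ Sq c ρ) :
    wedgeIntegral c w F - wedgeIntegral c u F = wedgeIntegral u w F := by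
  have hρ : |(0 : ℝ)| < ρ := by simpa using (abs_nonneg _).trans_lt hu.2
  have hc : |c - c| < ρ := by simpa using hρ
  have h1 := h.rect0 hu.1 hw.1 hu.2
  unfold Rect at h1
  unfold wedgeIntegral
  simp only [ofReal_re, ofReal_im]
  rw [← intervalIntegral.integral_interval_sub_left (h.vint hw.1 hρ hw.2) (h.vint hw.1 hρ hu.2)]
  rw [← intervalIntegral.integral_interval_sub_left (h.hint hc hw.1 hρ) (h.hint hc hu.1 hρ)] at h1
  simp only [smul_eq_mul] at *
  linear_combination h1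

theorem Good.wedge_le (h : Good F c ρ B) {u w : ℂ} (hu : u ∈ Sq c ρ) (hw : w ∈ Sq c ρ) :
    ‖wedgeIntegral u w F‖ ≤ 2 * B * ‖w - u‖ := by
  have hB : 0 ≤ B := (norm_nonneg _).trans (h.bd u hu)
  have h1 : ‖∫ x : ℝ in u.re..w.re, F (x + u.im * I)‖ ≤ B * |w.re - u.re| :=
    intervalIntegral.norm_integral_le_of_norm_le_const fun x hx =>
      h.bd _ (mem_Sq (abs_uIcc hu.1 hw.1 (uIoc_subset_uIcc hx)) hu.2)
  have h2 : ‖∫ y : ℝ in u.im..w.im, F (w.re + y * I)‖ ≤ B * |w.im - u.im| :=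
    intervalIntegral.norm_integral_le_of_norm_le_const fun y hy =>
      h.bd _ (mem_Sq hw.1 (abs_uIcc0 hu.2 hw.2 (uIoc_subset_uIcc hy)))
  have h3 : |w.re - u.re| ≤ ‖w - u‖ := by rw [← sub_re]; exact abs_re_le_norm _
  have h4 : |w.im - u.im| ≤ ‖w - u‖ := by rw [← sub_im]; exact abs_im_le_norm _
  unfold wedgeIntegral
  refine (norm_add_le _ _).trans ?_
  rw [norm_smul, norm_I, one_mul]
  nlinarith [mul_le_mul_of_nonneg_left h3 hB, mul_le_mul_of_nonneg_left h4 hB]

/-- removability of the real line -/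
theorem Good.extend (h : Good F c ρ B) : ∃ G : ℂ → ℂ, DifferentiableOn ℂ G (Sq c ρ) ∧
    (∀ u ∈ Sq c ρ, u.im ≠ 0 → G u = F u) ∧ ∀ u ∈ Sq c ρ, ‖G u‖ ≤ 2 * B := by
  let H : ℂ → ℂ := fun w => wedgeIntegral c w F
  have hlip : ∀ u ∈ Sq c ρ, ∀ w ∈ Sq c ρ, ‖H w - H u‖ ≤ 2 * B * ‖w - u‖ := fun u hu w hw => by
    have := h.wedge_le hu hw
    rwa [← h.wedge_sub hu hw] at this
  have hder : ∀ u ∈ Sq c ρ, u.im ≠ 0 → HasDerivAt H (F u) u := by
    intro u hu hu0
    have ho : IsOpen (Sq c ρ ∩ {w : ℂ | w.im ≠ 0}) :=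
      (isOpen_Sq c ρ).inter (isOpen_ne_fun (by fun_prop) continuous_const)
    obtain ⟨r, hr, hb⟩ := Metric.isOpen_iff.mp ho u ⟨hu, hu0⟩
    have hd : DifferentiableOn ℂ F (ball u r) := fun w hw =>
      (h.diff w (hb hw).1 (hb hw).2).differentiableWithinAt
    have h1 := hd.isConservativeOn.hasDerivAt_wedgeIntegral hd.continuousOn (mem_ball_self hr)
    refine (h1.add_const (H u)).congr_of_eventuallyEq ?_
    filter_upwards [ball_mem_nhds u hr] with w hw
    rw [← h.wedge_sub hu (hb hw).1]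
    simp [H]
  have hcont : ContinuousOn H (Sq c ρ) := by
    intro u hu
    rw [ContinuousWithinAt, tendsto_iff_norm_sub_tendsto_zero]
    have h0 : Tendsto (fun w : ℂ => 2 * B * ‖w - u‖) (𝓝[Sq c ρ] u) (𝓝 0) := by
      have : Continuous fun w : ℂ => 2 * B * ‖w - u‖ := by fun_prop
      have h2 := (this.tendsto u).mono_left (nhdsWithin_le_nhds (s := Sq c ρ))
      simpa using h2
    refine squeeze_zero' (Eventually.of_forall fun _ => norm_nonneg _) ?_ h0
    filter_upwards [self_mem_nhdsWithin] with w hw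
    exact hlip u hu w hw
  have hG : Good H c ρ (2 * B * (2 * ρ)) := by
    refine ⟨fun u hu => ?_, fun u hu hu0 => (hder u hu hu0).differentiableAt,
      Eventually.of_forall fun x hx => ?_⟩
    · have hρ : 0 < ρ := (abs_nonneg _).trans_lt hu.2
      have hB : 0 ≤ B := (norm_nonneg _).trans (h.bd u hu)
      have hc : (c : ℂ) ∈ Sq c ρ := by constructor <;> simpa using hρ
      refine (h.wedge_le hc hu).trans (mul_le_mul_of_nonneg_left ?_ (by positivity))
      refine (norm_le_abs_re_add_abs_im _).trans ?_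
      have h1 := hu.1
      have h2 := hu.2
      simp only [sub_re, ofReal_re, sub_im, ofReal_im, sub_zero]
      linarith
    · have hρ : 0 < ρ := (abs_nonneg _).trans_lt hx
      have hm : (x : ℂ) + (0 : ℝ) * I ∈ Sq c ρ := mem_Sq hx (by simpa using hρ)
      exact ContinuousAt.comp (f := fun y : ℝ => (x : ℂ) + y * I)
        (hcont.continuousAt ((isOpen_Sq c ρ).mem_nhds hm)) (by fun_prop)
  have hcons : IsConservativeOn H (Sq c ρ) := by
    intro z w hzw
    rw [← add_eq_zero_iff_eq_neg, wedgeIntegral_add_wedgeIntegral_eq]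
    have hz : z ∈ Sq c ρ := hzw ⟨left_mem_uIcc, left_mem_uIcc⟩
    have hw : w ∈ Sq c ρ := hzw ⟨right_mem_uIcc, right_mem_uIcc⟩
    exact hG.rect hz.1 hw.1 hz.2 hw.2
  have hdiff : DifferentiableOn ℂ H (Sq c ρ) :=
    (isConservativeOn_and_continuousOn_iff_isDifferentiableOn (isOpen_Sq c ρ)).mp ⟨hcons, hcont⟩
  refine ⟨deriv H, hdiff.deriv (isOpen_Sq c ρ), fun u hu hu0 => (hder u hu hu0).deriv,
    fun u hu => ?_⟩
  have hB : 0 ≤ B := (norm_nonneg _).trans (h.bd u hu)
  refine norm_deriv_le_of_lip' (by positivity) ?_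
  filter_upwards [(isOpen_Sq c ρ).mem_nhds hu] with w hw
  exact hlip u hu w hw

end Pool.Agent.H439Z.SE
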