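import Mathlib
import Pool.Agent.H439Z.SEa

set_option autoImplicit false

open Complex MeasureTheory Set Filter Metric
open scoped Topology Interval ComplexConjugate

namespace Pool.Agent.H439Z.SE

/-- the radial limit at the angle `θ` is the unimodular number `w` -/
def RL (Θ : ℂ → ℂ) (θ : ℝ) (w : ℂ) : Prop :=
  ‖w‖ = 1 ∧ Tendsto (fun r : ℝ => Θ ((r : ℂ) * exp ((θ : ℂ) * I))) (𝓝[<] 1) (𝓝 w)

theorem norm_exp_I (u : ℂ) : ‖exp (u * I)‖ = Real.exp (-u.im) := by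
  rw [norm_exp]; simp

theorem exp_vert (x y : ℝ) :
    exp (((x : ℂ) + y * I) * I) = (Real.exp (-y) : ℝ) * exp ((x : ℂ) * I) := by
  rw [ofReal_exp, ← exp_add]
  congr 1
  push_cast
  linear_combination (y : ℂ) * I_mul_I

theorem tendsto_exp_neg : Tendsto (fun y : ℝ => Real.exp (-y)) (𝓝[>] 0) (𝓝[<] 1) := by
  refine tendsto_nhdsWithin_iff.mpr ⟨?_, ?_⟩
  · have : Continuous fun y : ℝ => Real.exp (-y) := by fun_prop
    simpa using (this.tendsto 0).mono_left (nhdsWithin_le_nhds (s := Ioi 0))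
  · filter_upwards [self_mem_nhdsWithin] with y hy
    exact Real.exp_lt_one_iff.mpr (neg_neg_of_pos hy)

theorem tendsto_exp_pos : Tendsto (fun y : ℝ => Real.exp y) (𝓝[<] 0) (𝓝[<] 1) := by
  refine tendsto_nhdsWithin_iff.mpr ⟨?_, ?_⟩
  · simpa using (Real.continuous_exp.tendsto 0).mono_left (nhdsWithin_le_nhds (s := Iio 0))
  · filter_upwards [self_mem_nhdsWithin] with y hy
    exact Real.exp_lt_one_iff.mpr hy

theorem reflect {Θ : ℂ → ℂ} (hd : DifferentiableOn ℂ Θ (ball 0 1))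
    (hb : ∀ z ∈ ball (0 : ℂ) 1, ‖Θ z‖ ≤ 1) (hr : ∀ᵐ θ : ℝ, ∃ w, RL Θ θ w) {ε d θ : ℝ}
    (hε : 0 < ε) (hε1 : ε ≤ 1) (hd1 : d ≤ 1)
    (hlow : ∀ z ∈ ball (0 : ℂ) 1, ‖z - exp (θ * I)‖ < d → ε ≤ ‖Θ z‖) :
    ∃ G : ℂ → ℂ, DifferentiableOn ℂ G (Sq θ (d / 4)) ∧
      (∀ u ∈ Sq θ (d / 4), 0 < u.im → G u * Θ (exp (u * I)) = 1) ∧
      ∀ u ∈ Sq θ (d / 4), ‖G u‖ ≤ 2 / ε := by
  classical
  let F : ℂ → ℂ := fun u => if 0 < u.im then (Θ (exp (u * I)))⁻¹ else
    if u.im < 0 then conj (Θ (exp (conj u * I))) else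
    if h : ∃ w, RL Θ u.re w then conj h.choose else 0
  have hin : ∀ u : ℂ, 0 < u.im → exp (u * I) ∈ ball (0 : ℂ) 1 := fun u hu => by
    rw [mem_ball_zero_iff, norm_exp_I]
    exact Real.exp_lt_one_iff.mpr (neg_neg_of_pos hu)
  have hlow' : ∀ u ∈ Sq θ (d / 4), 0 < u.im → ε ≤ ‖Θ (exp (u * I))‖ := by
    intro u hu hu0
    refine hlow _ (hin u hu0) ?_
    have h1 : ‖(u - θ) * I‖ < d / 2 := by
      rw [norm_mul, norm_I, mul_one]
      refine (norm_le_abs_re_add_abs_im _).trans_lt ?_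
      have h1 := hu.1
      have h2 := hu.2
      simp only [sub_re, ofReal_re, sub_im, ofReal_im, sub_zero]
      linarith
    have h2 : exp (u * I) - exp (θ * I) = exp (θ * I) * (exp ((u - θ) * I) - 1) := by
      rw [mul_sub, ← exp_add]; congr 1 <;> ring_nf
    rw [h2, norm_mul, norm_exp_ofReal_mul_I, one_mul]
    have h3 := norm_exp_sub_one_le (x := (u - θ) * I) (by linarith)
    linarith
  have hdΘ : ∀ u : ℂ, 0 < u.im → DifferentiableAt ℂ (fun u => Θ (exp (u * I))) u := fun u hu =>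
    (hd.differentiableAt (isOpen_ball.mem_nhds (hin u hu))).comp u (by fun_prop)
  have hε' : 1 ≤ 1 / ε := by rw [le_div_iff₀ hε]; linarith
  have hF : Good F θ (d / 4) (1 / ε) := by
    refine ⟨fun u hu => ?_, fun u hu hu0 => ?_, ?_⟩
    · simp only [F]
      split_ifs with h1 h2 h3
      · rw [norm_inv, one_div]
        exact inv_anti₀ hε (hlow' u hu h1)
      · rw [RCLike.norm_conj]
        exact (hb _ (hin _ (by simpa using h2))).trans hε'
      · rw [RCLike.norm_conj, h3.choose_spec.1]; exact hε'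
      · rw [norm_zero]; positivity
    · rcases lt_or_gt_of_ne hu0 with h1 | h1
      · have h2 : DifferentiableAt ℂ (conj ∘ (fun u => Θ (exp (u * I))) ∘ conj) u :=
          differentiableAt_conj_conj_iff.mpr (hdΘ _ (by simpa using h1))
        refine h2.congr_of_eventuallyEq ?_
        filter_upwards [(isOpen_lt continuous_im continuous_const).mem_nhds h1] with v hv
        have hv' : v.im < 0 := hv
        simp only [F, if_neg (not_lt.mpr hv'.le), if_pos hv', Function.comp_apply]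
      · have h0 : Θ (exp (u * I)) ≠ 0 := norm_pos_iff.mp (hε.trans_le (hlow' u hu h1))
        refine ((hdΘ u h1).inv h0).congr_of_eventuallyEq ?_
        filter_upwards [(isOpen_lt continuous_const continuous_im).mem_nhds h1] with v hv
        have hv' : 0 < v.im := hv
        simp only [F, if_pos hv', Pi.inv_apply]
    · filter_upwards [hr] with x hx _
      have hw := hx.choose_spec
      have h0 : F (x + (0 : ℝ) * I) = conj hx.choose := by
        have e : ((x : ℂ) + (0 : ℝ) * I) = x := by simp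
        simp only [e, F, ofReal_im, lt_irrefl, if_false, ofReal_re, dif_pos hx]
      rw [continuousAt_iff_continuous_left'_right']
      constructor
      · rw [ContinuousWithinAt, h0]
        refine ((continuous_conj.tendsto _).comp (hw.2.comp tendsto_exp_pos)).congr' ?_
        filter_upwards [self_mem_nhdsWithin] with y hy
        have hy' : y < 0 := hy
        have e1 : ((x : ℂ) + y * I).im = y := by simp
        have e2 : conj ((x : ℂ) + y * I) = x + (-y : ℝ) * I := by simp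
        simp only [F, e1, if_neg (not_lt.mpr hy'.le), if_pos hy', Function.comp_apply, e2, exp_vert,
          neg_neg]
      · rw [ContinuousWithinAt, h0]
        have hne : hx.choose ≠ 0 := norm_pos_iff.mp (by rw [hw.1]; exact one_pos)
        have e0 : conj hx.choose = (hx.choose)⁻¹ := (Complex.inv_eq_conj hw.1).symm
        rw [e0]
        refine ((hw.2.comp tendsto_exp_neg).inv₀ hne).congr' ?_
        filter_upwards [self_mem_nhdsWithin] with y hy
        have hy' : 0 < y := hy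
        have e1 : ((x : ℂ) + y * I).im = y := by simp
        simp only [F, e1, if_pos hy', Function.comp_apply, exp_vert]
  obtain ⟨G, h1, h2, h3⟩ := hF.extend
  refine ⟨G, h1, fun u hu hu0 => ?_, fun u hu => by simpa [div_eq_mul_inv] using h3 u hu⟩
  rw [h2 u hu hu0.ne']
  simp only [F, if_pos hu0]
  exact inv_mul_cancel₀ (norm_pos_iff.mp (hε.trans_le (hlow' u hu hu0)))

theorem tendsto_vert (θ : ℝ) : Tendsto (fun y : ℝ => (θ : ℂ) + y * I) (𝓝[>] 0) (𝓝 θ) := by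
  have : Continuous fun y : ℝ => (θ : ℂ) + y * I := by fun_prop
  simpa using (this.tendsto 0).mono_left (nhdsWithin_le_nhds (s := Ioi 0))

/-- analytic continuation and the derivative bound near a boundary point away from the level set -/
theorem continuation {Θ : ℂ → ℂ} (hd : DifferentiableOn ℂ Θ (ball 0 1))
    (hb : ∀ z ∈ ball (0 : ℂ) 1, ‖Θ z‖ ≤ 1) (hr : ∀ᵐ θ : ℝ, ∃ w, RL Θ θ w) {ε d θ : ℝ}
    (hε : 0 < ε) (hε1 : ε ≤ 1) (hd0 : 0 < d) (hd1 : d ≤ 1)
    (hlow : ∀ z ∈ ball (0 : ℂ) 1, ‖z - exp (θ * I)‖ < d → ε ≤ ‖Θ z‖) :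
    (∃ r > (0 : ℝ), ∃ g : ℂ → ℂ, DifferentiableOn ℂ g (ball (exp (θ * I)) r) ∧
      EqOn g Θ (ball (exp (θ * I)) r ∩ ball 0 1)) ∧
    ∀ r > (0 : ℝ), ∀ g : ℂ → ℂ, DifferentiableOn ℂ g (ball (exp (θ * I)) r) →
      EqOn g Θ (ball (exp (θ * I)) r ∩ ball 0 1) → ‖deriv g (exp (θ * I))‖ ≤ 16 / (ε * d) := by
  obtain ⟨G, h1, h2, h3⟩ := reflect hd hb hr hε hε1 hd1 hlow
  have hθ : (θ : ℂ) ∈ Sq θ (d / 4) := by constructor <;> simp <;> positivity
  have hS : Sq θ (d / 4) ∈ 𝓝 (θ : ℂ) := (isOpen_Sq _ _).mem_nhds hθ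
  have hGa : AnalyticAt ℂ G θ := h1.analyticAt hS
  have hin : ∀ u : ℂ, 0 < u.im → exp (u * I) ∈ ball (0 : ℂ) 1 := fun u hu => by
    rw [mem_ball_zero_iff, norm_exp_I]
    exact Real.exp_lt_one_iff.mpr (neg_neg_of_pos hu)
  have hG1 : 1 ≤ ‖G θ‖ := by
    refine ge_of_tendsto (hGa.continuousAt.tendsto.comp (tendsto_vert θ)).norm ?_
    filter_upwards [self_mem_nhdsWithin, (tendsto_vert θ).eventually hS] with y hy hyS
    have hy' : 0 < ((θ : ℂ) + y * I).im := by simpa using hy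
    have e := congrArg norm (h2 _ hyS hy')
    rw [norm_mul, norm_one] at e
    have := mul_le_mul_of_nonneg_left (hb _ (hin _ hy')) (norm_nonneg (G ((θ : ℂ) + y * I)))
    simp only [Function.comp_apply]
    linarith
  have hG0 : G θ ≠ 0 := norm_pos_iff.mp (one_pos.trans_le hG1)
  have hζ0 : exp (θ * I) ≠ 0 := exp_ne_zero _
  constructor
  · let τ : ℂ → ℂ := fun z => θ - I * log (z / exp (θ * I))
    have hτ0 : τ (exp (θ * I)) = θ := by simp [τ, div_self hζ0]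
    have hτ : AnalyticAt ℂ τ (exp (θ * I)) := by
      refine analyticAt_const.sub (analyticAt_const.mul (AnalyticAt.clog (by fun_prop) ?_))
      simp [div_self hζ0]
    have hg : AnalyticAt ℂ (fun z => (G (τ z))⁻¹) (exp (θ * I)) :=
      (AnalyticAt.comp (by rw [hτ0]; exact hGa) hτ).inv (by
        simp only [Function.comp_apply, hτ0]; exact hG0)
    have e1 : ∀ᶠ z in 𝓝 (exp (θ * I)), τ z ∈ Sq θ (d / 4) :=
      hτ.continuousAt.eventually (by rw [hτ0]; exact hS)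
    obtain ⟨r, hr0, hr1⟩ := Metric.eventually_nhds_iff_ball.mp
      ((hg.eventually_analyticAt.and e1).and (eventually_ne_nhds hζ0))
    refine ⟨r, hr0, _, fun z hz => (hr1 z hz).1.1.differentiableAt.differentiableWithinAt,
      fun z hz => ?_⟩
    obtain ⟨⟨_, k1⟩, k2⟩ := hr1 z hz.1
    have k3 : exp (τ z * I) = z := by
      have : τ z * I = θ * I + log (z / exp (θ * I)) := by
        simp only [τ]
        linear_combination (-log (z / exp (θ * I))) * I_mul_I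
      rw [this, exp_add, exp_log (div_ne_zero k2 hζ0)]
      field_simp
    have k4 : 0 < (τ z).im := by
      have := mem_ball_zero_iff.mp hz.2
      rw [← k3, norm_exp_I, Real.exp_lt_one_iff] at this
      linarith
    have k5 := h2 _ k1 k4
    rw [k3] at k5
    exact inv_eq_of_mul_eq_one_right k5
  · intro r hr0 g hg hgΘ
    have hga : AnalyticAt ℂ g (exp (θ * I)) := hg.analyticAt (ball_mem_nhds _ hr0)
    have hE : AnalyticAt ℂ (fun u : ℂ => exp (u * I)) θ := by fun_prop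
    have hp : AnalyticAt ℂ (fun u => G u * g (exp (u * I))) θ :=
      hGa.mul (AnalyticAt.comp (f := fun u : ℂ => exp (u * I)) hga hE)
    have hfreq : ∃ᶠ u in 𝓝[≠] (θ : ℂ), G u * g (exp (u * I)) = 1 := by
      have t1 : Tendsto (fun y : ℝ => (θ : ℂ) + y * I) (𝓝[>] 0) (𝓝[≠] θ) := by
        refine tendsto_nhdsWithin_iff.mpr ⟨tendsto_vert θ, ?_⟩
        filter_upwards [self_mem_nhdsWithin] with y hy
        have hy' : (0 : ℝ) < y := hy
        simpa using hy'.ne'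
      refine t1.frequently (Eventually.frequently ?_)
      filter_upwards [self_mem_nhdsWithin, (tendsto_vert θ).eventually hS,
        (hE.continuousAt.tendsto.comp (tendsto_vert θ)).eventually (ball_mem_nhds _ hr0)]
        with y hy hyS hyb
      have hy' : 0 < ((θ : ℂ) + y * I).im := by simpa using hy
      have e : g (exp (((θ : ℂ) + y * I) * I)) = Θ (exp (((θ : ℂ) + y * I) * I)) :=
        hgΘ ⟨hyb, hin _ hy'⟩
      rw [e]
      exact h2 _ hyS hy'
    have hev := (hp.frequently_eq_iff_eventually_eq analyticAt_const).mp hfreq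
    have hval : G θ * g (exp (θ * I)) = 1 := hev.self_of_nhds
    have hD : HasDerivAt (fun u => G u * g (exp (u * I)))
        (deriv G θ * g (exp (θ * I)) + G θ * (deriv g (exp (θ * I)) * (exp (θ * I) * I))) θ := by
      refine hGa.differentiableAt.hasDerivAt.mul ?_
      refine HasDerivAt.comp (θ : ℂ) (h := fun u : ℂ => exp (u * I))
        hga.differentiableAt.hasDerivAt ?_
      simpa using ((hasDerivAt_id (θ : ℂ)).mul_const I).cexp
    have hz := hD.unique ((hasDerivAt_const (θ : ℂ) (1 : ℂ)).congr_of_eventuallyEq hev)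
    have hG' : ‖deriv G θ‖ ≤ (4 / ε) / (d / 4) := by
      have hsub : ball (θ : ℂ) (d / 4) ⊆ Sq θ (d / 4) := fun u hu => by
        rw [mem_ball, dist_eq_norm] at hu
        constructor
        · simpa using (abs_re_le_norm _).trans_lt hu
        · simpa using (abs_im_le_norm _).trans_lt hu
      refine norm_deriv_le_div_of_mapsTo_ball (h1.mono hsub) (fun u hu => ?_) (by positivity)
      rw [mem_closedBall, dist_eq_norm]
      refine (norm_sub_le _ _).trans ?_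
      have k1 := h3 u (hsub hu)
      have k2 := h3 θ hθ
      have : 4 / ε = 2 / ε + 2 / ε := by ring
      linarith
    have k1 : ‖G θ‖ * ‖g (exp (θ * I))‖ = 1 := by rw [← norm_mul, hval, norm_one]
    have k2 : ‖G θ‖ * ‖deriv g (exp (θ * I))‖ = ‖deriv G θ‖ * ‖g (exp (θ * I))‖ := by
      have := congrArg norm (eq_neg_of_add_eq_zero_right hz)
      simpa [norm_exp_ofReal_mul_I] using this
    have k3 : ‖g (exp (θ * I))‖ ≤ 1 := by nlinarith [norm_nonneg (g (exp (θ * I)))]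
    have k4 : (4 / ε) / (d / 4) = 16 / (ε * d) := by field_simp; ring
    rw [← k4]
    nlinarith [norm_nonneg (deriv g (exp (θ * I))), norm_nonneg (deriv G θ),
      norm_nonneg (g (exp (θ * I)))]

theorem mob_id (a b : ℂ) : ‖1 - conj a * b‖ ^ 2 - ‖b - a‖ ^ 2 = (1 - ‖a‖ ^ 2) * (1 - ‖b‖ ^ 2) := by
  simp only [← normSq_eq_norm_sq, normSq_apply, sub_re, sub_im, mul_re, mul_im, one_re, one_im,
    conj_re, conj_im]
  ring

theorem mob_ne {a b : ℂ} (ha : ‖a‖ < 1) (hb : ‖b‖ ≤ 1) : 1 - conj a * b ≠ 0 := by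
  intro h
  have h1 : conj a * b = 1 := (sub_eq_zero.mp h).symm
  have h2 := congrArg norm h1
  rw [norm_mul, RCLike.norm_conj, norm_one] at h2
  nlinarith [norm_nonneg a, norm_nonneg b]

theorem schwarz_pick {Θ : ℂ → ℂ} (hd : DifferentiableOn ℂ Θ (ball 0 1))
    (hb : ∀ z ∈ ball (0 : ℂ) 1, ‖Θ z‖ ≤ 1) {z w : ℂ} (hz : ‖z‖ < 1) (hw : ‖w‖ < 1)
    (ha : ‖Θ z‖ < 1) :
    ‖Θ w - Θ z‖ * ‖1 - conj z * w‖ ≤ ‖w - z‖ * ‖1 - conj (Θ z) * Θ w‖ := by
  let ψ : ℂ → ℂ := fun u => (u - (-z)) / (1 - conj (-z) * u)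
  have hz' : ‖-z‖ < 1 := by simpa using hz
  have hlt : ∀ a b : ℂ, ‖a‖ < 1 → ‖b‖ < 1 → ‖(b - a) / (1 - conj a * b)‖ < 1 := by
    intro a b h1 h2
    rw [norm_div, div_lt_one (norm_pos_iff.mpr (mob_ne h1 h2.le))]
    have h3 := mob_id a b
    have h4 : 0 < (1 - ‖a‖ ^ 2) * (1 - ‖b‖ ^ 2) :=
      mul_pos (by nlinarith [norm_nonneg a]) (by nlinarith [norm_nonneg b])
    exact lt_of_pow_lt_pow_left₀ 2 (norm_nonneg _) (by linarith)
  have hψ : ∀ u ∈ ball (0 : ℂ) 1, ψ u ∈ ball (0 : ℂ) 1 := fun u hu =>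
    mem_ball_zero_iff.mpr (hlt _ _ hz' (mem_ball_zero_iff.mp hu))
  have hψd : DifferentiableOn ℂ ψ (ball 0 1) := fun u hu =>
    (DifferentiableAt.div (c := fun u => u - (-z)) (d := fun u => 1 - conj (-z) * u)
      (by fun_prop) (by fun_prop)
      (mob_ne hz' (mem_ball_zero_iff.mp hu).le)).differentiableWithinAt
  have hc : DifferentiableOn ℂ (fun u => Θ (ψ u)) (ball 0 1) := hd.comp hψd hψ
  let Φ : ℂ → ℂ := fun u => (Θ (ψ u) - Θ z) / (1 - conj (Θ z) * Θ (ψ u))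
  have hΦd : DifferentiableOn ℂ Φ (ball 0 1) :=
    (hc.sub_const _).div ((hc.const_mul _).const_sub _) fun u hu => mob_ne ha (hb _ (hψ u hu))
  have hΦm : MapsTo Φ (ball 0 1) (closedBall 0 1) := by
    intro u hu
    have h1 := hb _ (hψ u hu)
    rw [mem_closedBall_zero_iff, norm_div, div_le_one (norm_pos_iff.mpr (mob_ne ha h1))]
    have h3 := mob_id (Θ z) (Θ (ψ u))
    have h4 : 0 ≤ (1 - ‖Θ z‖ ^ 2) * (1 - ‖Θ (ψ u)‖ ^ 2) :=
      mul_nonneg (by nlinarith [norm_nonneg (Θ z)]) (by nlinarith [norm_nonneg (Θ (ψ u))])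
    exact le_of_sq_le_sq (by linarith) (norm_nonneg _)
  have h0 : Φ 0 = 0 := by simp [Φ, ψ]
  have h1 := norm_le_norm_of_mapsTo_ball hΦd hΦm h0 (hlt z w hz hw)
  have h2 : ψ ((w - z) / (1 - conj z * w)) = w := by
    have k1 := mob_ne hz hw.le
    have k2 := mob_ne hz hz.le
    have k3 := mob_ne hz' (hlt z w hz hw).le
    simp only [ψ]
    rw [div_eq_iff k3, map_neg]
    have k4 := div_mul_cancel₀ (w - z) k1
    linear_combination k4
  simp only [Φ, h2, norm_div] at h1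
  rwa [div_le_div_iff₀ (norm_pos_iff.mpr (mob_ne ha (hb w (mem_ball_zero_iff.mpr hw))))
    (norm_pos_iff.mpr (mob_ne hz hw.le))] at h1

/-- a consequence of Julia's lemma -/
theorem julia {Θ : ℂ → ℂ} (hd : DifferentiableOn ℂ Θ (ball 0 1))
    (hb : ∀ z ∈ ball (0 : ℂ) 1, ‖Θ z‖ ≤ 1) {z ζ : ℂ} (hz : ‖z‖ < 1) (ha : ‖Θ z‖ < 1 / 2)
    (hζ : ‖ζ‖ = 1) {r : ℝ} (hr : 0 < r) {g : ℂ → ℂ} (hg : DifferentiableOn ℂ g (ball ζ r))
    (hgΘ : EqOn g Θ (ball ζ r ∩ ball 0 1)) (hg1 : ‖g ζ‖ = 1) :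
    1 - ‖z‖ ≤ 8 * ‖deriv g ζ‖ * ‖ζ - z‖ ^ 2 := by
  have hga : HasDerivAt g (deriv g ζ) ζ := (hg.differentiableAt (ball_mem_nhds _ hr)).hasDerivAt
  have t0 : Tendsto (fun t : ℝ => (t : ℂ) * ζ) (𝓝[<] 1) (𝓝 ζ) := by
    have : Continuous fun t : ℝ => (t : ℂ) * ζ := by fun_prop
    simpa using (this.tendsto 1).mono_left (nhdsWithin_le_nhds (s := Iio 1))
  have hn : ∀ t : ℝ, t < 1 → ‖(t : ℂ) * ζ - ζ‖ = 1 - t := fun t ht => by
    have : (t : ℂ) * ζ - ζ = ((t - 1 : ℝ) : ℂ) * ζ := by push_cast; ring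
    rw [this, norm_mul, hζ, mul_one, norm_real, Real.norm_eq_abs, abs_of_neg (by linarith)]
    ring
  have t1 : Tendsto (fun t : ℝ => (t : ℂ) * ζ) (𝓝[<] 1) (𝓝[≠] ζ) := by
    refine tendsto_nhdsWithin_iff.mpr ⟨t0, ?_⟩
    filter_upwards [self_mem_nhdsWithin] with t ht h
    have ht' : t < 1 := ht
    have := hn t ht'
    rw [mem_singleton_iff.mp h, sub_self, norm_zero] at this
    linarith
  have t2 : Tendsto (fun t : ℝ => 8 * ‖slope g ζ ((t : ℂ) * ζ)‖ * ‖1 - conj z * (t * ζ)‖ ^ 2)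
      (𝓝[<] 1) (𝓝 (8 * ‖deriv g ζ‖ * ‖1 - conj z * ζ‖ ^ 2)) :=
    ((hga.tendsto_slope.comp t1).norm.const_mul 8).mul
      ((((t0.const_mul _).const_sub _).norm).pow 2)
  have e : ‖1 - conj z * ζ‖ ^ 2 = ‖ζ - z‖ ^ 2 := by
    have := mob_id z ζ
    rw [hζ] at this
    linarith
  rw [← e]
  refine ge_of_tendsto t2 ?_
  filter_upwards [Ioo_mem_nhdsLT (zero_lt_one' ℝ), t0.eventually (ball_mem_nhds _ hr)] with t ht htb
  have hw : ‖(t : ℂ) * ζ‖ = t := by
    rw [norm_mul, hζ, mul_one, norm_real, Real.norm_eq_abs, abs_of_pos ht.1]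
  have hw1 : ‖(t : ℂ) * ζ‖ < 1 := by rw [hw]; exact ht.2
  have hwb := mem_ball_zero_iff.mpr hw1
  have k0 := schwarz_pick hd hb hz hw1 (by linarith)
  have k1 := mob_id (Θ z) (Θ (t * ζ))
  have k2 := mob_id z (t * ζ)
  rw [hw] at k2
  have k3 : 1 / 2 ≤ ‖1 - conj (Θ z) * Θ (t * ζ)‖ := by
    have h1 := norm_sub_norm_le (1 : ℂ) (conj (Θ z) * Θ (t * ζ))
    rw [norm_one, norm_mul, RCLike.norm_conj] at h1
    nlinarith [hb _ hwb, norm_nonneg (Θ z), norm_nonneg (Θ (t * ζ))]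
  have k4 : 1 - ‖Θ (t * ζ)‖ ≤ ‖slope g ζ ((t : ℂ) * ζ)‖ * (1 - t) := by
    rw [slope_def_field, norm_div, hn t ht.2, div_mul_cancel₀ _ (by linarith [ht.2]),
      ← hgΘ ⟨htb, hwb⟩, norm_sub_rev, ← hg1]
    exact norm_sub_norm_le _ _
  set S := ‖slope g ζ ((t : ℂ) * ζ)‖
  set A := ‖1 - conj z * (t * ζ)‖
  set P := ‖1 - conj (Θ z) * Θ (t * ζ)‖
  set b := ‖Θ (t * ζ)‖
  set a := ‖Θ z‖
  have hb1 : b ≤ 1 := hb _ hwb
  have hb0 : 0 ≤ b := norm_nonneg _
  have hz0 := norm_nonneg z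
  have k5 : (‖Θ (t * ζ) - Θ z‖ * A) ^ 2 ≤ (‖t * ζ - z‖ * P) ^ 2 :=
    pow_le_pow_left₀ (by positivity) k0 2
  have k6 : P ^ 2 * ((1 - ‖z‖ ^ 2) * (1 - t ^ 2)) ≤ (1 - a ^ 2) * (1 - b ^ 2) * A ^ 2 := by
    rw [← k1, ← k2]
    nlinarith
  have k7 : (1 - a ^ 2) * (1 - b ^ 2) ≤ 2 * (S * (1 - t)) := by
    have : (1 - a ^ 2) * (1 - b ^ 2) ≤ 1 * (1 - b ^ 2) :=
      mul_le_mul_of_nonneg_right (by nlinarith [sq_nonneg a]) (by nlinarith)
    nlinarith
  have k8 : 1 / 4 * ((1 - ‖z‖) * (1 - t)) ≤ P ^ 2 * ((1 - ‖z‖ ^ 2) * (1 - t ^ 2)) := by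
    refine mul_le_mul (by nlinarith) ?_ (mul_nonneg (by linarith) (by linarith [ht.2]))
      (by positivity)
    exact mul_le_mul (by nlinarith) (by nlinarith [ht.1, ht.2]) (by linarith [ht.2]) (by nlinarith)
  have k9 : (1 - ‖z‖) * (1 - t) ≤ 8 * S * A ^ 2 * (1 - t) := by
    have := mul_le_mul_of_nonneg_right k7 (sq_nonneg A)
    nlinarith
  exact le_of_mul_le_mul_right k9 (by linarith [ht.2])

end Pool.Agent.H439Z.SE
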