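import Mathlib

set_option autoImplicit false

open Complex MeasureTheory Set Filter Metric
open scoped Topology Interval ComplexConjugate

namespace Pool.Agent.H439Z.SE

theorem jensen_lower {f : ℂ → ℂ} (hd : DifferentiableOn ℂ f (ball 0 1))
    (hne : ∃ z ∈ ball (0 : ℂ) 1, f z ≠ 0) (hc : ContinuousOn f (closedBall 0 1)) :
    ∃ K : ℝ, ∀ η : ℝ, 0 < η → K ≤ Real.circleAverage (fun z => Real.log (‖f z‖ + η)) 0 1 := by
  have han : AnalyticOnNhd ℂ f (ball 0 1) := hd.analyticOnNhd isOpen_ball
  let n : ℤ := (meromorphicOrderAt f 0).untop₀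
  refine ⟨-(|(n : ℝ)| * Real.log 2) + Real.log ‖meromorphicTrailingCoeffAt f 0‖, fun η hη => ?_⟩
  have hcl : ContinuousOn (fun z => Real.log (‖f z‖ + η)) (closedBall 0 1) :=
    (hc.norm.add continuousOn_const).log fun z _ => (add_pos_of_nonneg_of_pos (norm_nonneg _) hη).ne'
  have hcont : ContinuousOn (Real.circleAverage (fun z => Real.log (‖f z‖ + η)) 0) (Icc 0 1) :=
    Real.ContinuousOn.circleAverage (hcl.mono fun z hz => by simpa using hz.2) fun r hr => hr.1
  have ht : Tendsto (Real.circleAverage (fun z => Real.log (‖f z‖ + η)) 0) (𝓝[<] 1)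
      (𝓝 (Real.circleAverage (fun z => Real.log (‖f z‖ + η)) 0 1)) :=
    (hcont 1 ⟨zero_le_one, le_rfl⟩).tendsto.mono_left
      (nhdsWithin_le_iff.mpr (Icc_mem_nhdsLT zero_lt_one))
  refine ge_of_tendsto ht ?_
  filter_upwards [Ioo_mem_nhdsLT (by norm_num : (1 / 2 : ℝ) < 1)] with R hR
  have hR0 : 0 < R := by linarith [hR.1]
  have hsub : closedBall (0 : ℂ) |R| ⊆ ball 0 1 :=
    closedBall_subset_ball (by rw [abs_of_pos hR0]; exact hR.2)
  have han' : AnalyticOnNhd ℂ f (closedBall 0 |R|) := han.mono hsub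
  have hJ := han'.meromorphicOn.circleAverage_log_norm hR0.ne'
  have h1 : 0 ≤ ∑ᶠ u, (MeromorphicOn.divisor f (closedBall 0 |R|) u : ℝ) *
      Real.log (R * ‖0 - u‖⁻¹) := by
    refine finsum_nonneg fun u => ?_
    by_cases hu : u ∈ closedBall (0 : ℂ) |R|
    · refine mul_nonneg (by exact_mod_cast MeromorphicOn.AnalyticOnNhd.divisor_nonneg han' u) ?_
      by_cases hu0 : u = 0
      · simp [hu0]
      · refine Real.log_nonneg ?_
        rw [zero_sub, norm_neg, ← div_eq_mul_inv, one_le_div (norm_pos_iff.mpr hu0)]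
        simpa [abs_of_pos hR0] using hu
    · rw [Function.locallyFinsuppWithin.apply_eq_zero_of_notMem _ hu]; simp
  have h2 : -(|(n : ℝ)| * Real.log 2) ≤
      (MeromorphicOn.divisor f (closedBall 0 |R|) 0 : ℝ) * Real.log R := by
    rw [MeromorphicOn.divisor_apply han'.meromorphicOn (mem_closedBall_self (abs_nonneg R))]
    have k1 : |Real.log R| ≤ Real.log 2 := by
      rw [abs_of_neg (Real.log_neg hR0 hR.2), ← Real.log_inv]
      refine Real.log_le_log (by positivity) ?_
      rw [inv_le_comm₀ hR0 (by norm_num)]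
      linarith [hR.1]
    have k2 : |(n : ℝ) * Real.log R| ≤ |(n : ℝ)| * Real.log 2 := by
      rw [abs_mul]; exact mul_le_mul_of_nonneg_left k1 (abs_nonneg _)
    exact (abs_le.mp k2).1
  have h3 : Real.circleAverage (fun z => Real.log ‖f z‖) 0 R ≤
      Real.circleAverage (fun z => Real.log (‖f z‖ + η)) 0 R := by
    have i1 : CircleIntegrable (fun z => Real.log ‖f z‖) 0 R :=
      (han'.mono sphere_subset_closedBall).meromorphicOn.circleIntegrable_log_norm
    have i2 : CircleIntegrable (fun z => Real.log (‖f z‖ + η)) 0 R :=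
      (hcl.mono (sphere_subset_closedBall.trans
        (hsub.trans ball_subset_closedBall))).circleIntegrable'
    have hz : ∀ᶠ x in codiscreteWithin (ball (0 : ℂ) 1), f x ≠ 0 := by
      refine (han.eqOn_zero_or_eventually_ne_zero_of_preconnected
        (convex_ball _ _).isPreconnected).resolve_left fun h => ?_
      obtain ⟨z, hz, hz'⟩ := hne
      exact hz' (h hz)
    have hz' : ∀ᶠ x in codiscreteWithin (sphere (0 : ℂ) |R|), f x ≠ 0 :=
      codiscreteWithin_mono (sphere_subset_closedBall.trans hsub) hz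
    have hz'' : ∀ᵐ θ ∂(volume.restrict (Icc 0 (2 * Real.pi))), f (circleMap 0 R θ) ≠ 0 := by
      apply ae_restrict_le_codiscreteWithin measurableSet_Icc
      exact codiscreteWithin_mono (subset_univ _) (circleMap_preimage_codiscrete hR0.ne' hz')
    unfold Real.circleAverage
    refine smul_le_smul_of_nonneg_left ?_ (by positivity)
    refine intervalIntegral.integral_mono_ae_restrict Real.two_pi_pos.le i1 i2 ?_
    filter_upwards [hz''] with θ hθ
    exact Real.log_le_log (norm_pos_iff.mpr hθ) (by linarith)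
  rw [hJ] at h3
  linarith

theorem zero_set_null {f : ℂ → ℂ} (hd : DifferentiableOn ℂ f (ball 0 1))
    (hne : ∃ z ∈ ball (0 : ℂ) 1, f z ≠ 0) (hc : ContinuousOn f (closedBall 0 1)) :
    volume {θ : ℝ | f (exp (θ * I)) = 0} = 0 := by
  obtain ⟨K, hK⟩ := jensen_lower hd hne hc
  obtain ⟨M, hM⟩ := (isCompact_closedBall (0 : ℂ) 1).exists_bound_of_continuousOn hc
  have hmem : ∀ θ : ℝ, exp (θ * I) ∈ closedBall (0 : ℂ) 1 := fun θ => by
    simp [norm_exp_ofReal_mul_I]
  have hcf : Continuous fun θ : ℝ => f (exp (θ * I)) :=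
    hc.comp_continuous (by fun_prop) hmem
  set E := {θ : ℝ | f (exp (θ * I)) = 0} with hE
  have hEm : MeasurableSet E := (isClosed_eq hcf continuous_const).measurableSet
  have h0 : volume (E ∩ Ioc 0 (2 * Real.pi)) = 0 := by
    by_contra hne0
    have hfin : volume (E ∩ Ioc 0 (2 * Real.pi)) ≠ ⊤ :=
      ((measure_mono inter_subset_right).trans_lt measure_Ioc_lt_top).ne
    set m := volume.real (E ∩ Ioc 0 (2 * Real.pi)) with hm
    have hm0 : 0 < m := ENNReal.toReal_pos hne0 hfin
    have key : ∀ s : ℝ, s ≤ 0 → 2 * Real.pi * K ≤ s * m + 2 * Real.pi * Real.log (M + 1) := by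
      intro s hs
      have h1 := hK (Real.exp s) (Real.exp_pos s)
      rw [Real.circleAverage_def, smul_eq_mul, le_inv_mul_iff₀ Real.two_pi_pos] at h1
      refine h1.trans ?_
      have i1 : IntervalIntegrable (E.indicator fun _ => s) volume 0 (2 * Real.pi) := by
        rw [intervalIntegrable_iff]
        exact (intervalIntegrable_iff.mp intervalIntegrable_const).indicator hEm
      have e1 : ∫ θ in (0 : ℝ)..2 * Real.pi, (E.indicator (fun _ => s) θ + Real.log (M + 1)) =
          s * m + 2 * Real.pi * Real.log (M + 1) := by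
        rw [intervalIntegral.integral_add i1 intervalIntegrable_const,
          intervalIntegral.integral_const, intervalIntegral.integral_of_le Real.two_pi_pos.le,
          integral_indicator hEm, Measure.restrict_restrict hEm, setIntegral_const]
        simp [hm, mul_comm]
      rw [← e1]
      refine intervalIntegral.integral_mono_on Real.two_pi_pos.le ?_
        (i1.add intervalIntegrable_const) fun θ _ => ?_
      · refine Continuous.intervalIntegrable ?_ _ _
        simp only [circleMap, ofReal_one, one_mul, zero_add]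
        exact (hcf.norm.add continuous_const).log fun _ =>
          (add_pos_of_nonneg_of_pos (norm_nonneg _) (Real.exp_pos s)).ne'
      · simp only [circleMap, ofReal_one, one_mul, zero_add]
        have hM0 := hM _ (hmem θ)
        have hM1 : 0 ≤ M := (norm_nonneg _).trans hM0
        by_cases hθ : θ ∈ E
        · have : f (exp (θ * I)) = 0 := hθ
          rw [indicator_of_mem hθ, this, norm_zero, zero_add, Real.log_exp]
          have := Real.log_nonneg (by linarith : 1 ≤ M + 1)
          linarith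
        · rw [indicator_of_notMem hθ, zero_add]
          refine Real.log_le_log (by positivity) ?_
          have := Real.exp_le_one_iff.mpr hs
          linarith
    have h2 := key (-(|2 * Real.pi * Real.log (M + 1) - 2 * Real.pi * K| + 1) / m)
      (div_nonpos_of_nonpos_of_nonneg (by
        have := abs_nonneg (2 * Real.pi * Real.log (M + 1) - 2 * Real.pi * K)
        linarith) hm0.le)
    rw [div_mul_cancel₀ _ hm0.ne'] at h2
    linarith [le_abs_self (2 * Real.pi * Real.log (M + 1) - 2 * Real.pi * K)]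
  have hsub : E ⊆ ⋃ k : ℤ, (fun θ : ℝ => θ - k • (2 * Real.pi)) ⁻¹' (E ∩ Ioc 0 (2 * Real.pi)) := by
    intro θ hθ
    obtain ⟨k, hk, _⟩ := existsUnique_sub_zsmul_mem_Ioc Real.two_pi_pos θ 0
    refine mem_iUnion.mpr ⟨k, ?_, by simpa using hk⟩
    have h1 : f (exp (θ * I)) = 0 := hθ
    show f (exp (((θ - k • (2 * Real.pi) : ℝ) : ℂ) * I)) = 0
    have : ((θ - k • (2 * Real.pi) : ℝ) : ℂ) * I = θ * I - k * (2 * Real.pi * I) := by
      simp only [zsmul_eq_mul]; push_cast; ring
    rw [this, exp_sub, exp_int_mul_two_pi_mul_I, div_one, h1]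
  refine measure_mono_null hsub (measure_iUnion_null fun k => ?_)
  simp only [sub_eq_add_neg]
  rw [measure_preimage_add_right]
  exact h0

/-- boundary modulus of continuity controls the modulus up to the boundary -/
theorem rst {f : ℂ → ℂ} (hd : DifferentiableOn ℂ f (ball 0 1))
    (hc : ContinuousOn f (closedBall 0 1)) {ζ : ℂ} (hζ : ‖ζ‖ = 1) {A δ : ℝ} (hδ : 0 < δ)
    (hA : 0 ≤ A) (h : ∀ η : ℂ, ‖η‖ = 1 → ‖f η - f ζ‖ ≤ A * max 1 (‖η - ζ‖ / δ)) {z : ℂ}
    (hz : ‖z‖ ≤ 1) : ‖f z - f ζ‖ ≤ A * (1 + ‖z - ζ‖ / δ) := by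
  let q : ℂ → ℂ := fun w => 1 + (1 - conj ζ * w) / δ
  have hn : ∀ w : ℂ, ‖(1 - conj ζ * w) / δ‖ = ‖w - ζ‖ / δ := fun w => by
    have e : ζ * conj ζ = 1 := by rw [mul_conj, normSq_eq_norm_sq, hζ]; simp
    have : w - ζ = -ζ * (1 - conj ζ * w) := by linear_combination (-w) * e
    rw [norm_div, this, norm_mul, norm_neg, hζ, one_mul, norm_real, Real.norm_eq_abs,
      abs_of_pos hδ]
  have hq : ∀ w : ℂ, ‖w‖ ≤ 1 → max 1 (‖w - ζ‖ / δ) ≤ ‖q w‖ := by
    intro w hw
    have h1 : 0 ≤ ((1 - conj ζ * w) / δ).re := by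
      rw [div_ofReal_re]
      refine div_nonneg ?_ hδ.le
      have := re_le_norm (conj ζ * w)
      rw [norm_mul, RCLike.norm_conj, hζ, one_mul] at this
      rw [sub_re, one_re]
      linarith
    have h2 : ‖q w‖ ^ 2 = 1 + 2 * ((1 - conj ζ * w) / δ).re + ‖(1 - conj ζ * w) / δ‖ ^ 2 := by
      simp only [q]
      generalize (1 - conj ζ * w) / δ = a
      simp only [← normSq_eq_norm_sq, normSq_apply, add_re, add_im, one_re, one_im]
      ring
    rw [← hn]
    refine max_le (le_of_sq_le_sq ?_ (norm_nonneg _)) (le_of_sq_le_sq ?_ (norm_nonneg _))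
    · rw [h2]; nlinarith [sq_nonneg ‖(1 - conj ζ * w) / δ‖]
    · rw [h2]; linarith
  have hq0 : ∀ w : ℂ, ‖w‖ ≤ 1 → q w ≠ 0 := fun w hw =>
    norm_pos_iff.mp (lt_of_lt_of_le (lt_max_of_lt_left one_pos) (hq w hw))
  have hqd : Differentiable ℂ q := by fun_prop
  have hdc : DiffContOnCl ℂ (fun w => (f w - f ζ) / q w) (ball 0 1) := by
    constructor
    · exact (hd.sub_const _).div hqd.differentiableOn fun w hw =>
        hq0 w (mem_ball_zero_iff.mp hw).le
    · rw [closure_ball _ one_ne_zero]
      exact (hc.sub continuousOn_const).div hqd.continuous.continuousOn fun w hw =>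
        hq0 w (mem_closedBall_zero_iff.mp hw)
  have h1 := norm_le_of_forall_mem_frontier_norm_le isBounded_ball hdc (C := A) (fun η hη => by
    rw [frontier_ball _ one_ne_zero, mem_sphere_zero_iff_norm] at hη
    rw [norm_div, div_le_iff₀ (norm_pos_iff.mpr (hq0 η hη.le))]
    exact (h η hη).trans (mul_le_mul_of_nonneg_left (hq η hη.le) hA)) (z := z) (by
      rw [closure_ball _ one_ne_zero]; exact mem_closedBall_zero_iff.mpr hz)
  rw [norm_div, div_le_iff₀ (norm_pos_iff.mpr (hq0 z hz))] at h1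
  refine h1.trans (mul_le_mul_of_nonneg_left ?_ hA)
  refine (norm_add_le _ _).trans ?_
  rw [norm_one, hn]

end Pool.Agent.H439Z.SE
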