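import Mathlib
import Pool.Agent.H439Z.SEb
import Pool.Agent.H439Z.SEc

set_option autoImplicit false

open Complex MeasureTheory Set Filter Metric
open scoped Topology Interval ComplexConjugate

namespace Pool.Agent.H439Z.SE

/-- a modulus of continuity on the whole half line -/
structure IsMod (W : ℝ → ℝ) : Prop where
  pos : ∀ t, 0 < t → 0 < W t
  mono : ∀ s t, 0 < s → s ≤ t → W s ≤ W t
  scale : ∀ t K, 0 < t → 1 ≤ K → W (K * t) ≤ K * W t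
  small : Tendsto W (𝓝[>] 0) (𝓝 0)

theorem isMod {ω : ℝ → ℝ} {L : ℝ} (h1 : MonotoneOn ω (Ioo 0 1)) (h2 : ∀ t ∈ Ioo (0 : ℝ) 1, 0 < ω t)
    (h3 : Tendsto ω (𝓝[>] 0) (𝓝 0)) (h4 : AntitoneOn (fun t => ω t / t) (Ioo 0 1))
    (h5 : Tendsto ω (𝓝[<] 1) (𝓝 L)) : IsMod fun t => if t < 1 then ω t else L := by
  have a1 : ∀ t ∈ Ioo (0 : ℝ) 1, ω t ≤ L := fun t ht => by
    refine ge_of_tendsto h5 ?_
    filter_upwards [Ioo_mem_nhdsLT ht.2] with s hs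
    exact h1 ht ⟨ht.1.trans hs.1, hs.2⟩ hs.1.le
  have a2 : ∀ t ∈ Ioo (0 : ℝ) 1, L ≤ ω t / t := fun t ht => by
    refine le_of_tendsto h5 ?_
    filter_upwards [Ioo_mem_nhdsLT ht.2] with s hs
    have hs' : s ∈ Ioo (0 : ℝ) 1 := ⟨ht.1.trans hs.1, hs.2⟩
    refine le_trans ?_ (h4 ht hs' hs.1.le)
    exact le_div_self (h2 s hs').le hs'.1 hs.2.le
  have a3 : 0 < L := (h2 (1 / 2) (by norm_num)).trans_le (a1 _ (by norm_num))
  refine ⟨fun t ht => ?_, fun s t hs hst => ?_, fun t K ht hK => ?_, ?_⟩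
  · split_ifs with h
    · exact h2 t ⟨ht, h⟩
    · exact a3
  · split_ifs with k1 k2 k2
    · exact h1 ⟨hs, k1⟩ ⟨hs.trans_le hst, k2⟩ hst
    · exact a1 s ⟨hs, k1⟩
    · exact absurd (hst.trans_lt k2) k1
    · exact le_rfl
  · have hK0 : 0 < K := by linarith
    have hle : t ≤ K * t := le_mul_of_one_le_left ht.le hK
    split_ifs with k1 k2 k2
    · have := h4 ⟨ht, k2⟩ ⟨mul_pos hK0 ht, k1⟩ hle
      simp only at this
      rw [div_le_div_iff₀ (mul_pos hK0 ht) ht] at this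
      nlinarith
    · exact absurd (hle.trans_lt k1) k2
    · refine (a2 t ⟨ht, k2⟩).trans ?_
      rw [div_le_iff₀ ht]
      nlinarith [h2 t ⟨ht, k2⟩, not_lt.mp k1]
    · nlinarith
  · refine h3.congr' ?_
    filter_upwards [Ioo_mem_nhdsGT (zero_lt_one' ℝ)] with t ht
    rw [if_pos ht.2]

theorem chord {W : ℝ → ℝ} (hW : IsMod W) {f : ℂ → ℂ} (hc : ContinuousOn f (closedBall 0 1))
    {C δ₀ : ℝ} (hδ₀ : 0 < δ₀) (h : ∀ δ ∈ Ioo 0 δ₀, ∀ x h : ℝ, |h| ≤ δ →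
      ‖f (exp (((x + h : ℝ) : ℂ) * I)) - f (exp ((x : ℂ) * I))‖ ≤ C * W δ) :
    ∃ A : ℝ, 0 ≤ A ∧ ∀ ζ η : ℂ, ‖ζ‖ = 1 → ‖η‖ = 1 → η ≠ ζ → ‖f η - f ζ‖ ≤ A * W ‖η - ζ‖ := by
  obtain ⟨M, hM⟩ := (isCompact_closedBall (0 : ℂ) 1).exists_bound_of_continuousOn hc
  have hM0 : 0 ≤ M := (norm_nonneg _).trans (hM 0 (by simp))
  have hp := hW.pos (δ₀ / 2) (by positivity)
  refine ⟨2 * |C| + 2 * M / W (δ₀ / 2), by positivity, fun ζ η hζ hη hne => ?_⟩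
  have ht : 0 < ‖η - ζ‖ := norm_pos_iff.mpr (sub_ne_zero.mpr hne)
  have hWt := hW.pos _ ht
  by_cases hlt : 2 * ‖η - ζ‖ < δ₀
  · have hζ0 : ζ ≠ 0 := norm_pos_iff.mp (by rw [hζ]; exact one_pos)
    have hη0 : η ≠ 0 := norm_pos_iff.mp (by rw [hη]; exact one_pos)
    have e1 : exp ((ζ.arg : ℂ) * I) = ζ := by
      have := norm_mul_exp_arg_mul_I ζ
      rwa [hζ, ofReal_one, one_mul] at this
    have e2 : exp (((ζ.arg + (η / ζ).arg : ℝ) : ℂ) * I) = η := by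
      have := norm_mul_exp_arg_mul_I (η / ζ)
      rw [norm_div, hζ, hη, div_one, ofReal_one, one_mul] at this
      rw [ofReal_add, add_mul, exp_add, e1, this]
      field_simp
    have e3 : |(η / ζ).arg| ≤ 2 * ‖η - ζ‖ := by
      rw [← angle_eq_abs_arg hη0 hζ0]
      refine (angle_le_mul_norm_sub hη hζ).trans (mul_le_mul_of_nonneg_right ?_ ht.le)
      linarith [Real.pi_le_four]
    have k := h _ ⟨by positivity, hlt⟩ ζ.arg _ e3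
    rw [e1, e2] at k
    have k2 := hW.scale _ 2 ht (by norm_num)
    have k3 : C * W (2 * ‖η - ζ‖) ≤ |C| * (2 * W ‖η - ζ‖) :=
      mul_le_mul (le_abs_self C) k2 (hW.pos _ (by positivity)).le (abs_nonneg C)
    have k4 : 0 ≤ 2 * M / W (δ₀ / 2) * W ‖η - ζ‖ := by positivity
    nlinarith
  · have k1 : W (δ₀ / 2) ≤ W ‖η - ζ‖ := hW.mono _ _ (by positivity) (by linarith)
    have k2 : ‖f η - f ζ‖ ≤ 2 * M := by
      have := norm_sub_le (f η) (f ζ)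
      have := hM η (by simp [hη])
      have := hM ζ (by simp [hζ])
      linarith
    have k3 : 2 * M ≤ 2 * M / W (δ₀ / 2) * W ‖η - ζ‖ := by
      rw [div_mul_eq_mul_div, le_div_iff₀ hp]
      exact mul_le_mul_of_nonneg_left k1 (by positivity)
    have k4 : 0 ≤ 2 * |C| * W ‖η - ζ‖ := by positivity
    nlinarith

theorem modulus {W : ℝ → ℝ} (hW : IsMod W) {f : ℂ → ℂ} (hd : DifferentiableOn ℂ f (ball 0 1))
    (hc : ContinuousOn f (closedBall 0 1))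
    {C δ₀ : ℝ} (hδ₀ : 0 < δ₀) (h : ∀ δ ∈ Ioo 0 δ₀, ∀ x h : ℝ, |h| ≤ δ →
      ‖f (exp (((x + h : ℝ) : ℂ) * I)) - f (exp ((x : ℂ) * I))‖ ≤ C * W δ) :
    ∃ A : ℝ, 0 ≤ A ∧ ∀ ζ z : ℂ, ‖ζ‖ = 1 → ‖z‖ ≤ 1 → ∀ δ : ℝ, 0 < δ → ‖z - ζ‖ ≤ 2 * δ →
      ‖f z - f ζ‖ ≤ A * W δ := by
  obtain ⟨A, hA, h1⟩ := chord hW hc hδ₀ h
  refine ⟨3 * A, by positivity, fun ζ z hζ hz δ hδ hzζ => ?_⟩
  have hWδ := hW.pos δ hδ
  have h2 := rst hd hc hζ hδ (A := A * W δ) (by positivity) (fun η hη => by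
    by_cases hne : η = ζ
    · rw [hne, sub_self, norm_zero]; positivity
    have ht : 0 < ‖η - ζ‖ := norm_pos_iff.mpr (sub_ne_zero.mpr hne)
    refine (h1 ζ η hζ hη hne).trans ?_
    rw [mul_assoc]
    refine mul_le_mul_of_nonneg_left ?_ hA
    rw [mul_comm]
    refine le_trans (hW.mono _ _ ht ?_) (hW.scale δ _ hδ (le_max_left _ _))
    rw [← div_le_iff₀ hδ]
    exact le_max_right _ _) hz
  refine h2.trans ?_
  have : ‖z - ζ‖ / δ ≤ 2 := by rwa [div_le_iff₀ hδ]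
  have : 0 ≤ A * W δ := by positivity
  nlinarith

/-- analytic continuation across the boundary point of angle `θ` -/
def Cont (Θ : ℂ → ℂ) (θ : ℝ) : Prop :=
  ∃ r > (0 : ℝ), ∃ g : ℂ → ℂ, DifferentiableOn ℂ g (ball (exp ((θ : ℂ) * I)) r) ∧
    EqOn g Θ (ball (exp ((θ : ℂ) * I)) r ∩ ball 0 1)

theorem s_to_e {W : ℝ → ℝ} (hW : IsMod W) {f Θ : ℂ → ℂ} {A : ℝ}
    (hA : ∀ ζ z : ℂ, ‖ζ‖ = 1 → ‖z‖ ≤ 1 → ∀ δ : ℝ, 0 < δ → ‖z - ζ‖ ≤ 2 * δ →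
      ‖f z - f ζ‖ ≤ A * W δ) (hd : DifferentiableOn ℂ Θ (ball 0 1))
    (hb : ∀ z ∈ ball (0 : ℂ) 1, ‖Θ z‖ ≤ 1) (hr : ∀ᵐ θ : ℝ, ∃ w, RL Θ θ w)
    (hnull : volume {θ : ℝ | ¬ Cont Θ θ} = 0) {C : ℝ}
    (hS : ∀ ζ : ℂ, ‖ζ‖ = 1 → ∀ r > (0 : ℝ), ∀ g : ℂ → ℂ, DifferentiableOn ℂ g (ball ζ r) →
      EqOn g Θ (ball ζ r ∩ ball 0 1) → deriv g ζ ≠ 0 → ‖f ζ‖ ≤ C * W (1 / ‖deriv g ζ‖))
    {z : ℂ} (hz : ‖z‖ < 1) (hΘ : ‖Θ z‖ < 1 / 2) : ‖f z‖ ≤ (32 * |C| + A) * W (1 - ‖z‖) := by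
  have hδ : 0 < 1 - ‖z‖ := by linarith
  have hae : ∀ᵐ θ : ℝ, Cont Θ θ ∧ ∃ w, RL Θ θ w := Eventually.and (ae_iff.mpr hnull) hr
  obtain ⟨θ, ⟨⟨r, hr0, g, hg, hgΘ⟩, w, hw1, hw2⟩, hθ⟩ :=
    (Measure.dense_of_ae hae).exists_dist_lt z.arg (half_pos hδ)
  set ζ := exp ((θ : ℂ) * I) with hζdef
  have hζ : ‖ζ‖ = 1 := norm_exp_ofReal_mul_I θ
  have hdist : ‖z - ζ‖ ≤ 2 * (1 - ‖z‖) := by
    have e1 : z - ζ = ((‖z‖ - 1 : ℝ) : ℂ) * exp (z.arg * I) +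
        ζ * (exp (((z.arg - θ : ℝ) : ℂ) * I) - 1) := by
      rw [mul_sub, hζdef, ← exp_add]
      have : (θ : ℂ) * I + ((z.arg - θ : ℝ) : ℂ) * I = z.arg * I := by push_cast; ring
      rw [this]
      push_cast
      linear_combination -norm_mul_exp_arg_mul_I z
    have e2 : ‖((z.arg - θ : ℝ) : ℂ) * I‖ < (1 - ‖z‖) / 2 := by
      rw [norm_mul, norm_I, mul_one, norm_real, Real.norm_eq_abs, ← Real.dist_eq]
      exact hθ
    have e3 := norm_exp_sub_one_le (x := ((z.arg - θ : ℝ) : ℂ) * I)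
      (by linarith [norm_nonneg z])
    rw [e1]
    refine (norm_add_le _ _).trans ?_
    rw [norm_mul, norm_mul, norm_exp_ofReal_mul_I, hζ, norm_real, Real.norm_eq_abs,
      abs_of_neg (by linarith)]
    linarith
  have t0 : Tendsto (fun t : ℝ => (t : ℂ) * ζ) (𝓝[<] 1) (𝓝 ζ) := by
    have : Continuous fun t : ℝ => (t : ℂ) * ζ := by fun_prop
    simpa using (this.tendsto 1).mono_left (nhdsWithin_le_nhds (s := Iio 1))
  have hg1 : ‖g ζ‖ = 1 := by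
    have k1 := (hg.differentiableAt (ball_mem_nhds _ hr0)).continuousAt.tendsto.comp t0
    have k2 : g ζ = w := by
      refine tendsto_nhds_unique_of_eventuallyEq k1 hw2 ?_
      filter_upwards [Ioo_mem_nhdsLT (zero_lt_one' ℝ), t0.eventually (ball_mem_nhds _ hr0)]
        with t ht htb
      refine hgΘ ⟨htb, ?_⟩
      rw [mem_ball_zero_iff, norm_mul, hζ, mul_one, norm_real, Real.norm_eq_abs, abs_of_pos ht.1]
      exact ht.2
    rw [k2, hw1]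
  have hJ := julia hd hb hz hΘ hζ hr0 hg hgΘ hg1
  have k1 : ‖ζ - z‖ ^ 2 ≤ (2 * (1 - ‖z‖)) ^ 2 := by
    rw [norm_sub_rev]; exact pow_le_pow_left₀ (norm_nonneg _) hdist 2
  have k2 : 1 ≤ 32 * (1 - ‖z‖) * ‖deriv g ζ‖ := by
    have := mul_le_mul_of_nonneg_left k1 (by positivity : 0 ≤ 8 * ‖deriv g ζ‖)
    refine le_of_mul_le_mul_right ?_ hδ
    nlinarith
  have k3 : 0 < ‖deriv g ζ‖ := by
    by_contra h
    have : ‖deriv g ζ‖ = 0 := le_antisymm (not_lt.mp h) (norm_nonneg _)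
    rw [this] at k2
    linarith
  have k4 := hS ζ hζ r hr0 g hg hgΘ (norm_pos_iff.mp k3)
  have k5 : W (1 / ‖deriv g ζ‖) ≤ 32 * W (1 - ‖z‖) :=
    (hW.mono _ _ (by positivity) (by rwa [div_le_iff₀ k3])).trans (hW.scale _ 32 hδ (by norm_num))
  have k6 : C * W (1 / ‖deriv g ζ‖) ≤ |C| * (32 * W (1 - ‖z‖)) :=
    mul_le_mul (le_abs_self C) k5 (hW.pos _ (by positivity)).le (abs_nonneg C)
  have k7 := hA ζ z hζ hz.le _ hδ hdist
  have k8 := norm_le_norm_add_norm_sub' (f z) (f ζ)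
  nlinarith

theorem near_level {W : ℝ → ℝ} (hW : IsMod W) {f Θ : ℂ → ℂ} {A C ε : ℝ}
    (hA : ∀ ζ z : ℂ, ‖ζ‖ = 1 → ‖z‖ ≤ 1 → ∀ δ : ℝ, 0 < δ → ‖z - ζ‖ ≤ 2 * δ →
      ‖f z - f ζ‖ ≤ A * W δ)
    (hE : ∀ z ∈ ball (0 : ℂ) 1, ‖Θ z‖ < ε → ‖f z‖ ≤ C * W (1 - ‖z‖)) {ζ : ℂ} (hζ : ‖ζ‖ = 1)
    {d : ℝ} (hd : 0 < d) (h : ¬ ∀ z ∈ ball (0 : ℂ) 1, ‖z - ζ‖ < d → ε ≤ ‖Θ z‖) :
    ‖f ζ‖ ≤ (|C| + A) * W d := by
  push Not at h
  obtain ⟨z, hz, h1, h2⟩ := h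
  have hz1 := mem_ball_zero_iff.mp hz
  have k1 := hE z hz h2
  have k2 := hA ζ z hζ hz1.le d hd (by linarith)
  have k3 : 1 - ‖z‖ ≤ d := by
    have := norm_sub_norm_le ζ z
    rw [hζ, norm_sub_rev] at this
    linarith
  have k4 : C * W (1 - ‖z‖) ≤ |C| * W d :=
    mul_le_mul (le_abs_self C) (hW.mono _ _ (by linarith) k3) (hW.pos _ (by linarith)).le
      (abs_nonneg C)
  have k8 := norm_le_norm_add_norm_sub' (f ζ) (f z)
  rw [norm_sub_rev] at k8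
  nlinarith

theorem e_to_s {W : ℝ → ℝ} (hW : IsMod W) {f Θ : ℂ → ℂ} {A C ε : ℝ} (hA0 : 0 ≤ A)
    (hfd : DifferentiableOn ℂ f (ball 0 1)) (hne : ∃ z ∈ ball (0 : ℂ) 1, f z ≠ 0)
    (hc : ContinuousOn f (closedBall 0 1))
    (hA : ∀ ζ z : ℂ, ‖ζ‖ = 1 → ‖z‖ ≤ 1 → ∀ δ : ℝ, 0 < δ → ‖z - ζ‖ ≤ 2 * δ →
      ‖f z - f ζ‖ ≤ A * W δ) (hd : DifferentiableOn ℂ Θ (ball 0 1))
    (hb : ∀ z ∈ ball (0 : ℂ) 1, ‖Θ z‖ ≤ 1) (hr : ∀ᵐ θ : ℝ, ∃ w, RL Θ θ w) (hε : 0 < ε)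
    (hε1 : ε ≤ 1) (hE : ∀ z ∈ ball (0 : ℂ) 1, ‖Θ z‖ < ε → ‖f z‖ ≤ C * W (1 - ‖z‖)) :
    volume {θ : ℝ | ¬ Cont Θ θ} = 0 ∧ ∃ K : ℝ,
      ∀ ζ : ℂ, ‖ζ‖ = 1 → ∀ r > (0 : ℝ), ∀ g : ℂ → ℂ, DifferentiableOn ℂ g (ball ζ r) →
      EqOn g Θ (ball ζ r ∩ ball 0 1) →
      ‖f ζ‖ ≤ K * (if 1 < ‖deriv g ζ‖ then W (1 / ‖deriv g ζ‖) else W 1) := by
  constructor
  · refine measure_mono_null (fun θ hθ => ?_) (zero_set_null hfd hne hc)
    have h1 : Tendsto (fun d => (|C| + A) * W d) (𝓝[>] 0) (𝓝 0) := by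
      simpa using hW.small.const_mul (|C| + A)
    have h2 : ‖f (exp (θ * I))‖ ≤ 0 := by
      refine ge_of_tendsto h1 ?_
      filter_upwards [Ioo_mem_nhdsGT (zero_lt_one' ℝ)] with d hd'
      exact near_level hW hA hE (norm_exp_ofReal_mul_I θ) hd'.1 fun hlow =>
        hθ (continuation hd hb hr hε hε1 hd'.1 hd'.2.le hlow).1
    exact norm_le_zero_iff.mp h2
  · obtain ⟨M, hM⟩ := (isCompact_closedBall (0 : ℂ) 1).exists_bound_of_continuousOn hc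
    have hM0 : 0 ≤ M := (norm_nonneg _).trans (hM 0 (by simp))
    have hT : 32 ≤ 32 / ε := by rw [le_div_iff₀ hε]; linarith
    obtain ⟨T, hTdef⟩ : ∃ T, T = 32 / ε := ⟨_, rfl⟩
    rw [← hTdef] at hT
    have hT0 : 0 < T := by linarith
    have hp := hW.pos (1 / T) (by positivity)
    refine ⟨M / W (1 / T) + (|C| + A) * T, fun ζ hζ r hr0 g hg hgΘ => ?_⟩
    set G := ‖deriv g ζ‖ with hG
    by_cases hGT : G ≤ T
    · have k1 : W (1 / T) ≤ if 1 < G then W (1 / G) else W 1 := by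
        split_ifs with h
        · exact hW.mono _ _ (by positivity) (one_div_le_one_div_of_le (by linarith) hGT)
        · exact hW.mono _ _ (by positivity) (by rw [div_le_one hT0]; linarith)
      have k2 : M ≤ M / W (1 / T) * (if 1 < G then W (1 / G) else W 1) := by
        rw [div_mul_eq_mul_div, le_div_iff₀ hp]
        exact mul_le_mul_of_nonneg_left k1 hM0
      have k3 : 0 ≤ (|C| + A) * T * (if 1 < G then W (1 / G) else W 1) :=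
        mul_nonneg (by positivity) (hp.le.trans k1)
      have k4 := hM ζ (by simp [hζ])
      nlinarith
    · push Not at hGT
      have hG0 : 0 < G := hT0.trans hGT
      rw [if_pos (by linarith)]
      have e1 : exp ((ζ.arg : ℂ) * I) = ζ := by
        have := norm_mul_exp_arg_mul_I ζ
        rwa [hζ, ofReal_one, one_mul] at this
      have hd0 : 0 < T * (1 / G) := by positivity
      have k1 := near_level hW hA hE hζ hd0 (fun hlow => by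
        have k := (continuation (θ := ζ.arg) hd hb hr hε hε1 hd0 (by
          rw [mul_one_div, div_le_one hG0]; exact hGT.le) (by rwa [e1])).2 r hr0 g
          (by rwa [e1]) (by rwa [e1])
        rw [e1, ← hG, hTdef] at k
        have : 16 / (ε * (32 / ε * (1 / G))) = G / 2 := by field_simp; norm_num
        rw [this] at k
        linarith)
      have k2 := mul_le_mul_of_nonneg_left (hW.scale (1 / G) T (by positivity) (by linarith))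
        (by positivity : 0 ≤ |C| + A)
      have k3 : 0 ≤ M / W (1 / T) * W (1 / G) :=
        mul_nonneg (by positivity) (hW.pos _ (by positivity)).le
      nlinarith

end Pool.Agent.H439Z.SE
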