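import Mathlib

set_option autoImplicit false

open scoped ComplexOrder Matrix

namespace Pool.Agent.H439Z.Sh

universe u

variable {X : Type u}

/-- The kernel `k^z`: `k(x,y) - k(x,z) k(z,y) / k(z,z)`, and `k` itself if `k(z,z) = 0`. -/
noncomputable def kerAt (k : Matrix X X ℂ) (z : X) : Matrix X X ℂ :=
  Matrix.of fun x y => if k z z = 0 then k x y else k x y - k x z * k z y / k z z

/-- The reproducing kernel Hilbert space `H` of `V`-valued functions on `X` has kernel `k · I`. -/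
def HasKernel (V : Type) [NormedAddCommGroup V] [InnerProductSpace ℂ V] [CompleteSpace V]
    (H : Type u) [NormedAddCommGroup H] [InnerProductSpace ℂ H] [CompleteSpace H] [RKHS ℂ H X V]
    (k : Matrix X X ℂ) : Prop :=
  ∀ x y v, RKHS.kernel H x y v = k x y • v

/-- Whenever `Hk`, `Hl` are reproducing kernel Hilbert spaces of `V`-valued functions on `X` with
kernels `k · I`, `l · I`, for every `f` in `Hk` the function `x ↦ Φ x (f x)` is an element `g`
of `Hl` with `‖g‖ ≤ ‖f‖`. -/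
def IsContrMultOn (V : Type) [NormedAddCommGroup V] [InnerProductSpace ℂ V] [CompleteSpace V]
    (k l : Matrix X X ℂ) (Φ : X → V → V) : Prop :=
  ∀ (Hk Hl : Type u)
    [NormedAddCommGroup Hk] [InnerProductSpace ℂ Hk] [CompleteSpace Hk] [RKHS ℂ Hk X V]
    [NormedAddCommGroup Hl] [InnerProductSpace ℂ Hl] [CompleteSpace Hl] [RKHS ℂ Hl X V],
    HasKernel V Hk k → HasKernel V Hl l →
    ∀ f : Hk, ∃ g : Hl, (∀ x, g x = Φ x (f x)) ∧ ‖g‖ ≤ ‖f‖

/-- The action of a matrix on `ℂ^N`. -/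
def act {N : ℕ} (A : Matrix (Fin N) (Fin N) ℂ) (v : EuclideanSpace ℂ (Fin N)) :
    EuclideanSpace ℂ (Fin N) :=
  WithLp.toLp 2 (A *ᵥ v.ofLp)

/-- `Φ` is a multiplier of norm at most one from `H_k ⊗ ℂ^N` to `H_l ⊗ ℂ^N`. -/
def IsContrMult (k l : Matrix X X ℂ) (N : ℕ) (Φ : X → Matrix (Fin N) (Fin N) ℂ) : Prop :=
  IsContrMultOn (EuclideanSpace ℂ (Fin N)) k l fun x => act (Φ x)

/-- The Pick matrix `[l(z_i,z_j) I - k(z_i,z_j) W_i W_j^*]`. -/
noncomputable def pick (k l : Matrix X X ℂ) {n N : ℕ} (z : Fin n → X)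
    (W : Fin n → Matrix (Fin N) (Fin N) ℂ) : Matrix (Fin n × Fin N) (Fin n × Fin N) ℂ :=
  Matrix.of fun p q => l (z p.1) (z q.1) * (1 : Matrix (Fin N) (Fin N) ℂ) p.2 q.2 -
    k (z p.1) (z q.1) * (W p.1 * (W q.1)ᴴ) p.2 q.2

/-- `(k, l)` is a complete Pick pair (the nodes may repeat). -/
def CPPair (k l : Matrix X X ℂ) : Prop :=
  ∀ n N : ℕ, 1 ≤ n → 1 ≤ N → ∀ (z : Fin n → X) (W : Fin n → Matrix (Fin N) (Fin N) ℂ),
    (pick k l z W).PosSemidef → ∃ Φ, IsContrMult k l N Φ ∧ ∀ i, Φ (z i) = W i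

/-- `(k, l)` has the complete Pick property for pairwise distinct nodes. -/
def CPPairInj (k l : Matrix X X ℂ) : Prop :=
  ∀ n N : ℕ, 1 ≤ n → 1 ≤ N → ∀ (z : Fin n → X) (W : Fin n → Matrix (Fin N) (Fin N) ℂ),
    Function.Injective z →
    (pick k l z W).PosSemidef → ∃ Φ, IsContrMult k l N Φ ∧ ∀ i, Φ (z i) = W i

/-- `(k, l)` has a Shimorin certificate: kernels `p[z]` with `l^z ⪰ p[z] l` and `k^z ⪯ p[z] k`. -/
def HasCertificate (k l : Matrix X X ℂ) : Prop :=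
  ∃ p : X → Matrix X X ℂ, ∀ z, (p z).PosSemidef ∧ (kerAt l z - p z ⊙ l).PosSemidef ∧
    (p z ⊙ k - kerAt k z).PosSemidef

end Pool.Agent.H439Z.Sh
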