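import Mathlib
import Pool.Agent.H439Z.ShDefs

set_option autoImplicit false

open scoped ComplexOrder Matrix InnerProductSpace ComplexConjugate MatrixOrder
open Finset

namespace Pool.Agent.H439Z.Sh

/-- extension of a contraction from a subspace of a finite dimensional semi-inner-product space -/
theorem ext_contr' {D E : Type*} [SeminormedAddCommGroup D] [InnerProductSpace ℂ D]
    [FiniteDimensional ℂ D] [NormedAddCommGroup E] [InnerProductSpace ℂ E]
    (D0 : Submodule ℂ D) (L : D →ₗ[ℂ] E) (h : ∀ ξ ∈ D0, ‖L ξ‖ ≤ ‖ξ‖) :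
    ∃ L' : D →ₗ[ℂ] E, (∀ ξ ∈ D0, L' ξ = L ξ) ∧ ∀ ξ, ‖L' ξ‖ ≤ ‖ξ‖ := by
  let G : D →ₗ[ℂ] SeparationQuotient D := (SeparationQuotient.mkCLM ℂ D).toLinearMap
  have hG : ∀ ξ, ‖G ξ‖ = ‖ξ‖ := fun ξ => SeparationQuotient.norm_mk ξ
  let K : Submodule ℂ (SeparationQuotient D) := D0.map G
  have : FiniteDimensional ℂ K := inferInstance
  let G0 : D0 →ₗ[ℂ] K := G.submoduleMap D0
  have hsurj : LinearMap.range G0 = ⊤ := by
    rw [LinearMap.range_eq_top]
    rintro ⟨_, ξ, hξ, rfl⟩
    exact ⟨⟨ξ, hξ⟩, rfl⟩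
  obtain ⟨σ, hσ⟩ := G0.exists_rightInverse_of_surjective hsurj
  have hσ' : ∀ y : K, G (σ y) = y := fun y => by
    have := LinearMap.congr_fun hσ y
    exact congrArg Subtype.val this
  refine ⟨L ∘ₗ D0.subtype ∘ₗ σ ∘ₗ K.orthogonalProjection.toLinearMap ∘ₗ G, ?_, ?_⟩
  · intro ξ hξ
    have h1 : K.orthogonalProjection (G ξ) = ⟨G ξ, ξ, hξ, rfl⟩ :=
      K.orthogonalProjection_mem_subspace_eq_self ⟨G ξ, ξ, hξ, rfl⟩
    show L (σ (K.orthogonalProjection (G ξ))) = L ξ
    rw [← sub_eq_zero, ← map_sub, ← norm_le_zero_iff]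
    refine (h _ (D0.sub_mem (σ _).2 hξ)).trans ?_
    rw [← hG, map_sub, hσ', h1]
    simp
  · intro ξ
    show ‖L (σ (K.orthogonalProjection (G ξ)))‖ ≤ ‖ξ‖
    refine (h _ (σ _).2).trans ?_
    rw [← hG, hσ', ← hG ξ]
    exact K.norm_orthogonalProjection_apply_le (G ξ)

theorem ext_contr {D E : Type*} [AddCommGroup D] [Module ℂ D]
    [FiniteDimensional ℂ D] [NormedAddCommGroup E] [InnerProductSpace ℂ E]
    (c : PreInnerProductSpace.Core ℂ D)
    (D0 : Submodule ℂ D) (L : D →ₗ[ℂ] E) (h : ∀ ξ ∈ D0, ‖L ξ‖ ^ 2 ≤ (c.inner ξ ξ).re) :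
    ∃ L' : D →ₗ[ℂ] E, (∀ ξ ∈ D0, L' ξ = L ξ) ∧ ∀ ξ, ‖L' ξ‖ ^ 2 ≤ (c.inner ξ ξ).re := by
  letI : SeminormedAddCommGroup D := InnerProductSpace.Core.toSeminormedAddCommGroup (𝕜 := ℂ)
  letI : InnerProductSpace ℂ D := InnerProductSpace.ofCore c
  have hn : ∀ ξ : D, ‖ξ‖ ^ 2 = (c.inner ξ ξ).re := fun ξ => by
    rw [← inner_self_eq_norm_sq (𝕜 := ℂ)]; rfl
  obtain ⟨L', h1, h2⟩ := ext_contr' D0 L (fun ξ hξ => by
    have := h ξ hξ
    rw [← hn] at this
    exact (pow_le_pow_iff_left₀ (norm_nonneg _) (norm_nonneg _) two_ne_zero).mp this)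
  refine ⟨L', h1, fun ξ => ?_⟩
  rw [← hn]
  exact pow_le_pow_left₀ (norm_nonneg _) (h2 ξ) 2

theorem kerAt_apply {X : Type*} (k : Matrix X X ℂ) (z x y : X) :
    kerAt k z x y = k x y - k x z * k z y / k z z := by
  unfold kerAt
  by_cases h : k z z = 0 <;> simp [h]

variable {Y : Type*} [Fintype Y] [DecidableEq Y]
variable {E : Type*} [NormedAddCommGroup E] [InnerProductSpace ℂ E]

/-- the sesquilinear form of an ampliated kernel -/
noncomputable def sform (κ : Matrix Y Y ℂ) (v w : Y → E) : ℂ := ∑ x, ∑ y, κ x y * ⟪v x, w y⟫_ℂ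

/-- the quadratic form of an ampliated kernel -/
noncomputable def form (κ : Matrix Y Y ℂ) (w : Y → E) : ℝ := (sform κ w w).re

omit [DecidableEq Y] in
theorem form_nonneg {κ : Matrix Y Y ℂ} (h : κ.PosSemidef) (w : Y → E) : 0 ≤ form κ w := by
  have h1 := (h.hadamard (Matrix.posSemidef_gram ℂ w)).dotProduct_mulVec_nonneg (fun _ => 1)
  have h2 : star (fun _ : Y => (1 : ℂ)) ⬝ᵥ (κ ⊙ Matrix.gram ℂ w) *ᵥ (fun _ => 1) = sform κ w w := by
    simp [dotProduct, Matrix.mulVec, sform]
  rw [h2] at h1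
  exact (Complex.nonneg_iff.mp h1).1

omit [DecidableEq Y] in
theorem row_zero {X : Type*} {κ : Matrix X X ℂ} (h : κ.PosSemidef) {z : X} (hz : κ z z = 0)
    (y : X) : κ y z = 0 ∧ κ z y = 0 := by
  have h2 := h.submatrix (![z, y] : Fin 2 → X)
  have h3 := (h2.dotProduct_mulVec_zero_iff ![1, 0]).mp (by
    simp [dotProduct, Matrix.mulVec, Fin.sum_univ_two, hz])
  have h4 : κ y z = 0 := by
    have := congrFun h3 1
    simpa [Matrix.mulVec, dotProduct, Fin.sum_univ_two] using this
  refine ⟨h4, ?_⟩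
  rw [← h.isHermitian.apply z y, h4, star_zero]

theorem kerAt_row {X : Type*} {κ : Matrix X X ℂ} (h : κ.PosSemidef) (z y : X) :
    kerAt κ z y z = 0 ∧ kerAt κ z z y = 0 := by
  rw [kerAt_apply, kerAt_apply]
  by_cases hz : κ z z = 0
  · simp [row_zero h hz y, hz]
  · constructor <;> field_simp <;> ring

theorem diag_real {X : Type*} {κ : Matrix X X ℂ} (h : κ.IsHermitian) (z : X) :
    κ z z = ((κ z z).re : ℂ) := by
  have := h.apply z z
  exact (Complex.conj_eq_iff_re.mp this).symm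

theorem kerAt_herm {X : Type*} {κ : Matrix X X ℂ} (h : κ.IsHermitian) (z : X) :
    (kerAt κ z).IsHermitian := by
  ext x y
  rw [Matrix.conjTranspose_apply, kerAt_apply, kerAt_apply, star_sub, star_div₀, star_mul,
    h.apply, h.apply, h.apply, h.apply]

omit [DecidableEq Y] in
theorem form_split {κ : Matrix Y Y ℂ} (h : κ.IsHermitian) (z : Y) (w : Y → E) :
    form κ w = form (kerAt κ z) w + ‖∑ y, κ z y • w y‖ ^ 2 / (κ z z).re := by
  have h1 : ((‖∑ y, κ z y • w y‖ ^ 2 / (κ z z).re : ℝ) : ℂ)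
      = ∑ x, ∑ y, κ x z * κ z y / κ z z * ⟪w x, w y⟫_ℂ := by
    have h0 : ∀ v : E, ((‖v‖ ^ 2 : ℝ) : ℂ) = ⟪v, v⟫_ℂ := fun v => by
      rw [inner_self_eq_norm_sq_to_K]; simp
    rw [Complex.ofReal_div, h0, ← diag_real h z, sum_inner, Finset.sum_div]
    refine Finset.sum_congr rfl fun x _ => ?_
    rw [inner_sum, Finset.sum_div]
    refine Finset.sum_congr rfl fun y _ => ?_
    rw [inner_smul_left, inner_smul_right]
    have : conj (κ z x) = κ x z := h.apply x z
    rw [this]; ring
  have h2 : sform κ w w = sform (kerAt κ z) w w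
      + ((‖∑ y, κ z y • w y‖ ^ 2 / (κ z z).re : ℝ) : ℂ) := by
    rw [h1, sform, sform, ← Finset.sum_add_distrib]
    refine Finset.sum_congr rfl fun x _ => ?_
    rw [← Finset.sum_add_distrib]
    refine Finset.sum_congr rfl fun y _ => ?_
    rw [kerAt_apply]; ring
  rw [form, h2, Complex.add_re, Complex.ofReal_re, form]

omit [DecidableEq Y] in
theorem form_kerAt_le {κ : Matrix Y Y ℂ} (h : κ.PosSemidef) (z : Y) (w : Y → E) :
    form (kerAt κ z) w ≤ form κ w := by
  rw [form_split h.isHermitian z w]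
  have : 0 ≤ (κ z z).re := (Complex.nonneg_iff.mp (h.diag_nonneg (i := z))).1
  have : 0 ≤ ‖∑ y, κ z y • w y‖ ^ 2 / (κ z z).re := by positivity
  linarith

omit [DecidableEq Y] in
theorem form_kerAt_congr {κ : Matrix Y Y ℂ} (h : κ.PosSemidef) (z : Y) {w w' : Y → E}
    (hw : ∀ x, x ≠ z → w x = w' x) : form (kerAt κ z) w = form (kerAt κ z) w' := by
  unfold form sform
  congr 1
  refine Finset.sum_congr rfl fun x _ => Finset.sum_congr rfl fun y _ => ?_
  by_cases hx : x = z
  · rw [hx, (kerAt_row h z y).2]; simp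
  by_cases hy : y = z
  · rw [hy, (kerAt_row h z x).1]; simp
  rw [hw x hx, hw y hy]

/-- contractivity of partial interpolation data -/
def Pos (k l : Matrix Y Y ℂ) (S : Y → Submodule ℂ E) (T : Y → E →ₗ[ℂ] E) : Prop :=
  ∀ ξ : Y → E, (∀ x, ξ x ∈ S x) → form k (fun x => T x (ξ x)) ≤ form l ξ

/-- the row condition is necessary -/
theorem row_of_pos {k l : Matrix Y Y ℂ} (hk : k.PosSemidef) (hl : l.PosSemidef)
    {S : Y → Submodule ℂ E} {T : Y → E →ₗ[ℂ] E} (z : Y) (hz : S z = ⊤) (h : Pos k l S T) :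
    Pos (kerAt k z) (kerAt l z) S T := by
  intro ξ hξ
  let ξ0 : Y → E := Function.update ξ z 0
  let ξ' : Y → E := Function.update ξ z (-((l z z)⁻¹ • ∑ y, l z y • ξ0 y))
  have h1 := h ξ' (fun x => by
    by_cases hx : x = z
    · rw [hx, hz]; trivial
    · simp only [ξ', Function.update_of_ne hx]; exact hξ x)
  have h2 : ∑ y, l z y • ξ' y = 0 := by
    by_cases hlz : l z z = 0
    · exact Finset.sum_eq_zero fun y _ => by rw [(row_zero hl hlz y).2, zero_smul]
    · have e1 : ∑ y, l z y • ξ' y = ∑ y, l z y • ξ0 y + l z z • ξ' z := by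
        rw [← Finset.add_sum_erase _ _ (Finset.mem_univ z),
          ← Finset.add_sum_erase _ _ (Finset.mem_univ z)]
        have : ∑ y ∈ univ.erase z, l z y • ξ' y = ∑ y ∈ univ.erase z, l z y • ξ0 y :=
          Finset.sum_congr rfl fun y hy => by
            have := Finset.ne_of_mem_erase hy
            simp [ξ', ξ0, Function.update_of_ne this]
        rw [this]
        simp only [ξ0, Function.update_self, smul_zero]
        abel
      rw [e1]
      simp only [ξ', Function.update_self, smul_neg, smul_smul, mul_inv_cancel₀ hlz, one_smul]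
      abel
  have h3 : form l ξ' = form (kerAt l z) ξ := by
    rw [form_split hl.isHermitian z ξ', h2]
    simp only [norm_zero, ne_eq, OfNat.ofNat_ne_zero, not_false_eq_true, zero_pow, zero_div,
      add_zero]
    exact form_kerAt_congr hl z fun x hx => by simp [ξ', Function.update_of_ne hx]
  have h4 : form (kerAt k z) (fun x => T x (ξ x)) = form (kerAt k z) (fun x => T x (ξ' x)) :=
    form_kerAt_congr hk z fun x hx => by simp [ξ', Function.update_of_ne hx]
  rw [h4, ← h3]
  exact (form_kerAt_le hk z _).trans h1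

omit [DecidableEq Y] in
theorem sform_conj {κ : Matrix Y Y ℂ} (h : κ.IsHermitian) (v w : Y → E) :
    conj (sform κ w v) = sform κ v w := by
  unfold sform
  rw [map_sum, Finset.sum_comm]
  refine Finset.sum_congr rfl fun x _ => ?_
  rw [map_sum]
  refine Finset.sum_congr rfl fun y _ => ?_
  rw [map_mul, inner_conj_symm]
  have : conj (κ x y) = κ y x := h.apply y x
  rw [this]

omit [DecidableEq Y] in
theorem sform_add (κ : Matrix Y Y ℂ) (u v w : Y → E) :
    sform κ (fun x => u x + v x) w = sform κ u w + sform κ v w := by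
  simp only [sform, inner_add_left, mul_add, Finset.sum_add_distrib]

omit [DecidableEq Y] in
theorem sform_smul (κ : Matrix Y Y ℂ) (r : ℂ) (v w : Y → E) :
    sform κ (fun x => r • v x) w = conj r * sform κ v w := by
  simp only [sform, inner_smul_left, Finset.mul_sum]
  refine Finset.sum_congr rfl fun x _ => Finset.sum_congr rfl fun y _ => ?_
  ring

/-- Parrott extension at one point -/
theorem extend_point [FiniteDimensional ℂ E] {k l : Matrix Y Y ℂ} (hk : k.PosSemidef)
    (hl : l.PosSemidef) {S : Y → Submodule ℂ E} {T : Y → E →ₗ[ℂ] E} (j : Y) (h : Pos k l S T)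
    (hrow : Pos (kerAt k j) (kerAt l j) S T) :
    ∃ T' : Y → E →ₗ[ℂ] E, (∀ x, ∀ e ∈ S x, T' x e = T x e) ∧
      Pos k l (Function.update S j ⊤) T' := by
  let D : Submodule ℂ (Y → E) := Submodule.pi Set.univ (Function.update S j ⊤)
  have hD : ∀ ξ : Y → E, ξ ∈ D ↔ ∀ x, x ≠ j → ξ x ∈ S x := by
    intro ξ
    rw [Submodule.mem_pi]
    constructor
    · intro h x hx
      have := h x trivial
      rwa [Function.update_of_ne hx] at this
    · intro h x _
      by_cases hx : x = j
      · rw [hx, Function.update_self]; trivial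
      · rw [Function.update_of_ne hx]; exact h x hx
  have hq : ∀ ξ : Y → E, ξ ∈ D → form (kerAt k j) (fun x => T x (ξ x)) ≤ form l ξ := by
    intro ξ hξ
    have h1 := hrow (Function.update ξ j 0) (fun x => by
      by_cases hx : x = j
      · rw [hx, Function.update_self]; exact Submodule.zero_mem _
      · rw [Function.update_of_ne hx]; exact (hD ξ).mp hξ x hx)
    rw [form_kerAt_congr hk j (w' := fun x => T x (ξ x))
      (fun x hx => by rw [Function.update_of_ne hx]),
      form_kerAt_congr hl j (w' := ξ) (fun x hx => by rw [Function.update_of_ne hx])] at h1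
    exact h1.trans (form_kerAt_le hl j ξ)
  have hmemD : ∀ ξ : Y → E, (∀ x, ξ x ∈ Function.update S j ⊤ x) → ξ ∈ D :=
    fun ξ hξ => (Submodule.mem_pi).mpr fun x _ => hξ x
  by_cases hkj : k j j = 0
  · refine ⟨T, fun _ _ _ => rfl, fun ξ hξ => ?_⟩
    have : kerAt k j = k := by
      ext x y; rw [kerAt_apply, hkj]; simp
    have h1 := hq ξ (hmemD ξ hξ)
    rwa [this] at h1
  have hkpos : 0 < (k j j).re := by
    have h0 : 0 ≤ (k j j).re := (Complex.nonneg_iff.mp (hk.diag_nonneg (i := j))).1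
    refine lt_of_le_of_ne h0 fun h => hkj ?_
    rw [diag_real hk.isHermitian j, ← h]; simp
  let c : PreInnerProductSpace.Core ℂ D :=
    { inner := fun ξ η => sform l ξ.1 η.1 -
        sform (kerAt k j) (fun x => T x (ξ.1 x)) (fun x => T x (η.1 x))
      conj_inner_symm := fun ξ η => by
        rw [map_sub, sform_conj hl.isHermitian, sform_conj (kerAt_herm hk.isHermitian j)]
      re_inner_nonneg := fun ξ => by
        have := hq ξ.1 ξ.2
        simp only [RCLike.re_to_complex, Complex.sub_re]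
        unfold form at this
        linarith
      add_left := fun ξ η ζ => by
        have e1 : ((ξ + η : D) : Y → E) = fun x => ξ.1 x + η.1 x := rfl
        rw [e1]
        simp only [map_add]
        rw [sform_add, sform_add]; ring
      smul_left := fun ξ η r => by
        have e1 : ((r • ξ : D) : Y → E) = fun x => r • ξ.1 x := rfl
        rw [e1]
        simp only [map_smul]
        rw [sform_smul, sform_smul]; ring }
  have hc : ∀ ξ : D, (c.inner ξ ξ).re = form l ξ.1 - form (kerAt k j) (fun x => T x (ξ.1 x)) :=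
    fun ξ => Complex.sub_re _ _
  obtain ⟨s, hs⟩ : ∃ s : ℝ, s = √((k j j).re) := ⟨_, rfl⟩
  have hs0 : 0 < s := by rw [hs]; exact Real.sqrt_pos.mpr hkpos
  have hs2 : s ^ 2 = (k j j).re := by rw [hs]; exact Real.sq_sqrt hkpos.le
  have hsC : (s : ℂ) ≠ 0 := by exact_mod_cast hs0.ne'
  have hs2C : (s : ℂ) * s = k j j := by
    rw [diag_real hk.isHermitian j, ← hs2]; push_cast; ring
  let L : D →ₗ[ℂ] E := (s : ℂ)⁻¹ • ∑ y, k j y • (T y ∘ₗ LinearMap.proj y ∘ₗ D.subtype)
  have hL : ∀ ξ : D, L ξ = (s : ℂ)⁻¹ • ∑ y, k j y • T y (ξ.1 y) := by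
    intro ξ
    simp [L, LinearMap.sum_apply]
  have hnorm : ∀ e : E, ‖(s : ℂ)⁻¹ • e‖ ^ 2 = ‖e‖ ^ 2 / (k j j).re := by
    intro e
    rw [norm_smul, norm_inv, Complex.norm_real, Real.norm_of_nonneg hs0.le, ← hs2]
    field_simp
  let D0 : Submodule ℂ D := (S j).comap (LinearMap.proj j ∘ₗ D.subtype)
  obtain ⟨L', hL1, hL2⟩ := ext_contr c D0 L (fun ξ hξ => by
    have h1 := h ξ.1 (fun x => by
      by_cases hx : x = j
      · rw [hx]; exact hξ
      · exact (hD _).mp ξ.2 x hx)
    rw [form_split hk.isHermitian j] at h1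
    rw [hc, hL, hnorm]
    linarith)
  let ι : E →ₗ[ℂ] D := (LinearMap.single ℂ (fun _ : Y => E) j).codRestrict D (fun e => by
    rw [hD]
    intro x hx
    simp [Pi.single_eq_of_ne hx])
  have hι : ∀ e, (ι e).1 = Pi.single j e := fun e => rfl
  let Tj : E →ₗ[ℂ] E := (s : ℂ)⁻¹ • (L' ∘ₗ ι)
  refine ⟨Function.update T j Tj, ?_, ?_⟩
  · intro x e he
    by_cases hx : x = j
    · subst hx
      rw [Function.update_self]
      have h1 : ι e ∈ D0 := by
        show (ι e).1 x ∈ S x
        rw [hι]; simpa using he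
      show (s : ℂ)⁻¹ • L' (ι e) = T x e
      rw [hL1 _ h1, hL, hι, Finset.sum_eq_single x]
      · rw [Pi.single_eq_same, smul_smul, smul_smul, ← hs2C]
        have : (s : ℂ)⁻¹ * (s : ℂ)⁻¹ * (s * s) = 1 := by field_simp
        rw [this, one_smul]
      · intro y _ hy
        rw [Pi.single_eq_of_ne hy]; simp
      · simp
    · rw [Function.update_of_ne hx]
  · intro ξ hξ
    let ξD : D := ⟨ξ, hmemD ξ hξ⟩
    have h1 : ξD - ι (ξ j) ∈ D0 := by
      show (ξD - ι (ξ j)).1 j ∈ S j
      have : (ξD - ι (ξ j)).1 j = ξ j - (Pi.single j (ξ j) : Y → E) j := rfl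
      rw [this]; simp
    have h2 : L' ξD = (s : ℂ)⁻¹ • ∑ y, k j y • Function.update T j Tj y (ξ y) := by
      have e1 : L' ξD = L' (ξD - ι (ξ j)) + L' (ι (ξ j)) := by rw [← map_add]; simp
      rw [e1, hL1 _ h1, hL, ← Finset.add_sum_erase _ _ (Finset.mem_univ j),
        ← Finset.add_sum_erase _ _ (Finset.mem_univ j)]
      have e2 : (ξD - ι (ξ j)).1 j = 0 := by
        have : (ξD - ι (ξ j)).1 j = ξ j - (Pi.single j (ξ j) : Y → E) j := rfl
        rw [this]; simp
      have e3 : ∑ y ∈ univ.erase j, k j y • T y ((ξD - ι (ξ j)).1 y)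
          = ∑ y ∈ univ.erase j, k j y • Function.update T j Tj y (ξ y) :=
        Finset.sum_congr rfl fun y hy => by
          have hy' := Finset.ne_of_mem_erase hy
          have : (ξD - ι (ξ j)).1 y = ξ y - (Pi.single j (ξ j) : Y → E) y := rfl
          rw [this, Pi.single_eq_of_ne hy', sub_zero, Function.update_of_ne hy']
      rw [e2, e3, Function.update_self]
      have e4 : Tj (ξ j) = (s : ℂ)⁻¹ • L' (ι (ξ j)) := rfl
      rw [e4, map_zero, smul_zero, zero_add, smul_add, smul_smul, smul_smul, ← hs2C]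
      have : (s : ℂ)⁻¹ * (s * s) * (s : ℂ)⁻¹ = 1 := by field_simp
      rw [this, one_smul, add_comm]
    have h3 := hL2 ξD
    rw [hc, h2, hnorm] at h3
    rw [form_split hk.isHermitian j, form_kerAt_congr hk j (w' := fun x => T x (ξ x))
      (fun x hx => by rw [Function.update_of_ne hx])]
    linarith

/-- full data supported on `F` -/
def full (E : Type*) [NormedAddCommGroup E] [InnerProductSpace ℂ E] (F : Finset Y) :
    Y → Submodule ℂ E := fun x => if x ∈ F then ⊤ else ⊥

/-- the one-point extension property for full data -/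
def Ext1 (E : Type*) [NormedAddCommGroup E] [InnerProductSpace ℂ E] (k l : Matrix Y Y ℂ) : Prop :=
  ∀ (F : Finset Y) (z : Y) (T : Y → E →ₗ[ℂ] E), Pos k l (full E F) T →
    ∃ T' : Y → E →ₗ[ℂ] E, (∀ x ∈ F, T' x = T x) ∧ Pos k l (full E (insert z F)) T'

theorem row_all [FiniteDimensional ℂ E] {k l : Matrix Y Y ℂ} (hk : k.PosSemidef)
    (hl : l.PosSemidef) (hE : Ext1 E k l) (n : ℕ) :
    ∀ (F : Finset Y), F.card ≤ n → ∀ (z : Y) (S : Y → Submodule ℂ E) (T : Y → E →ₗ[ℂ] E),
      (∀ x, x ∉ F → x ≠ z → S x = ⊥) → Pos k l S T → Pos (kerAt k z) (kerAt l z) S T := by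
  induction n using Nat.strong_induction_on with
  | _ n ih =>
  intro F hF z S T hS hpos
  let S0 : Y → Submodule ℂ E := Function.update S z ⊥
  have hS0 : ∀ x, x ∉ F → S0 x = ⊥ := by
    intro x hx
    by_cases hxz : x = z
    · rw [hxz]; exact Function.update_self _ _ _
    · show Function.update S z ⊥ x = ⊥
      rw [Function.update_of_ne hxz]; exact hS x hx hxz
  have hpos0 : Pos k l S0 T := fun ξ hξ => hpos ξ fun x => by
    by_cases hxz : x = z
    · have := hξ x
      rw [hxz] at this ⊢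
      have h2 : S0 z = ⊥ := Function.update_self _ _ _
      rw [h2, Submodule.mem_bot] at this
      rw [this]; exact Submodule.zero_mem _
    · have := hξ x
      have h2 : S0 x = S x := Function.update_of_ne hxz _ _
      rwa [h2] at this
  have hinner : ∀ G : Finset Y, G ⊆ F → ∃ T' : Y → E →ₗ[ℂ] E, (∀ x, ∀ e ∈ S0 x, T' x e = T x e) ∧
      Pos k l (fun x => if x ∈ G then ⊤ else S0 x) T' := by
    intro G
    induction G using Finset.induction_on with
    | empty => intro _; exact ⟨T, fun _ _ _ => rfl, by simpa using hpos0⟩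
    | insert j G hj ihG =>
      intro hsub
      obtain ⟨T1, hT1, hpos1⟩ := ihG ((Finset.subset_insert j G).trans hsub)
      have hjF : j ∈ F := hsub (Finset.mem_insert_self j G)
      have hcard : (F.erase j).card < n := lt_of_lt_of_le (Finset.card_erase_lt_of_mem hjF) hF
      have hrow := ih _ hcard (F.erase j) le_rfl j _ T1 (fun x hx hxj => by
        have hxF : x ∉ F := fun h => hx (Finset.mem_erase.mpr ⟨hxj, h⟩)
        have hxG : x ∉ G := fun h => hxF (hsub (Finset.mem_insert_of_mem h))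
        simp only [hxG, if_false]
        exact hS0 x hxF) hpos1
      obtain ⟨T2, hT2, hpos2⟩ := extend_point hk hl j hpos1 hrow
      refine ⟨T2, fun x e he => ?_, ?_⟩
      · rw [hT2 x e, hT1 x e he]
        by_cases hx : x ∈ G <;> simp [hx, he]
      · convert hpos2 using 1
        funext x
        by_cases hx : x = j
        · rw [hx]; simp
        · rw [Function.update_of_ne hx]; simp [hx]
  obtain ⟨T1, hT1, hpos1⟩ := hinner F subset_rfl
  have e1 : (fun x => if x ∈ F then ⊤ else S0 x) = full E F := by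
    funext x
    by_cases hx : x ∈ F
    · simp [full, hx]
    · simp [full, hx, hS0 x hx]
  rw [e1] at hpos1
  obtain ⟨T2, hT2, hpos2⟩ := hE F z T1 hpos1
  have hrow := row_of_pos hk hl z (by simp [full]) hpos2
  intro ξ hξ
  have hz0 : ∀ x, x ∉ F → x ≠ z → ξ x = 0 := fun x hx hxz => by
    have := hξ x
    rwa [hS x hx hxz, Submodule.mem_bot] at this
  have h1 := hrow ξ (fun x => by
    by_cases hx : x ∈ insert z F
    · simp [full, hx]
    · rw [Finset.mem_insert, not_or] at hx
      rw [hz0 x hx.2 hx.1]; exact Submodule.zero_mem _)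
  rw [form_kerAt_congr hk z (w' := fun x => T x (ξ x)) (fun x hxz => ?_)] at h1
  · exact h1
  · by_cases hx : x ∈ F
    · rw [hT2 x hx, hT1 x]
      have h2 : S0 x = S x := Function.update_of_ne hxz _ _
      rw [h2]; exact hξ x
    · rw [hz0 x hx hxz, map_zero, map_zero]

theorem row_final [FiniteDimensional ℂ E] {k l : Matrix Y Y ℂ} (hk : k.PosSemidef)
    (hl : l.PosSemidef) (hE : Ext1 E k l) (z : Y) (S : Y → Submodule ℂ E) (T : Y → E →ₗ[ℂ] E)
    (h : Pos k l S T) : Pos (kerAt k z) (kerAt l z) S T :=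
  row_all hk hl hE _ univ le_rfl z S T (fun x hx => (hx (Finset.mem_univ x)).elim) h

end Pool.Agent.H439Z.Sh
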