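import Mathlib
import Pool.Agent.H439Z.ShCore

set_option autoImplicit false

open scoped ComplexOrder Matrix InnerProductSpace ComplexConjugate MatrixOrder
open Finset

namespace Pool.Agent.H439Z.Sh

universe u

/-- the adjoint of a matrix as an operator -/
noncomputable def adj {N : ℕ} (W : Matrix (Fin N) (Fin N) ℂ) :
    EuclideanSpace ℂ (Fin N) →ₗ[ℂ] EuclideanSpace ℂ (Fin N) := Matrix.toEuclideanLin Wᴴ

theorem adj_inner {N : ℕ} (W : Matrix (Fin N) (Fin N) ℂ) (v w : EuclideanSpace ℂ (Fin N)) :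
    ⟪adj W v, w⟫_ℂ = ⟪v, Matrix.toEuclideanLin W w⟫_ℂ := by
  rw [adj, Matrix.toEuclideanLin_conjTranspose_eq_adjoint, LinearMap.adjoint_inner_left]

theorem inner_mat {N : ℕ} (A : Matrix (Fin N) (Fin N) ℂ) (v w : EuclideanSpace ℂ (Fin N)) :
    ⟪v, Matrix.toEuclideanLin A w⟫_ℂ = ∑ a, ∑ b, conj (v a) * A a b * w b := by
  rw [PiLp.inner_apply]
  refine Finset.sum_congr rfl fun a _ => ?_
  have : (Matrix.toEuclideanLin A w) a = ∑ b, A a b * w b := rfl
  rw [this, RCLike.inner_apply, Finset.sum_mul]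
  refine Finset.sum_congr rfl fun b _ => ?_
  ring

theorem adj_adj_inner {N : ℕ} (A B : Matrix (Fin N) (Fin N) ℂ) (v w : EuclideanSpace ℂ (Fin N)) :
    ⟪adj A v, adj B w⟫_ℂ = ∑ a, ∑ b, conj (v a) * (A * Bᴴ) a b * w b := by
  rw [adj_inner, ← inner_mat, adj]
  congr 1
  show WithLp.toLp 2 (A *ᵥ (Bᴴ *ᵥ w.ofLp)) = WithLp.toLp 2 ((A * Bᴴ) *ᵥ w.ofLp)
  rw [Matrix.mulVec_mulVec]

theorem inner_one {N : ℕ} (v w : EuclideanSpace ℂ (Fin N)) :
    ⟪v, w⟫_ℂ = ∑ a, ∑ b, conj (v a) * (1 : Matrix (Fin N) (Fin N) ℂ) a b * w b := by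
  rw [← inner_mat]
  congr 1
  show w = WithLp.toLp 2 ((1 : Matrix (Fin N) (Fin N) ℂ) *ᵥ w.ofLp)
  rw [Matrix.one_mulVec]

variable {X : Type u}

theorem pick_dot (k l : Matrix X X ℂ) {n N : ℕ} (z : Fin n → X)
    (W : Fin n → Matrix (Fin N) (Fin N) ℂ) (ξ : Fin n → EuclideanSpace ℂ (Fin N)) :
    star (fun p : Fin n × Fin N => ξ p.1 p.2) ⬝ᵥ (pick k l z W *ᵥ fun p => ξ p.1 p.2) =
      sform (l.submatrix z z) ξ ξ -
        sform (k.submatrix z z) (fun i => adj (W i) (ξ i)) (fun i => adj (W i) (ξ i)) := by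
  simp only [sform, adj_adj_inner, Matrix.submatrix_apply]
  simp only [inner_one, dotProduct, Matrix.mulVec, Fintype.sum_prod_type, pick, Matrix.of_apply,
    Finset.mul_sum, ← Finset.sum_sub_distrib, Pi.star_apply]
  refine Finset.sum_congr rfl fun i _ => ?_
  rw [Finset.sum_comm]
  refine Finset.sum_congr rfl fun j _ => Finset.sum_congr rfl fun a _ =>
    Finset.sum_congr rfl fun b _ => ?_
  rw [RCLike.star_def]
  ring

theorem pick_herm {k l : Matrix X X ℂ} (hk : k.IsHermitian) (hl : l.IsHermitian) {n N : ℕ}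
    (z : Fin n → X) (W : Fin n → Matrix (Fin N) (Fin N) ℂ) : (pick k l z W).IsHermitian := by
  ext p q
  have h1 : star ((W q.1 * (W p.1)ᴴ) q.2 p.2) = (W p.1 * (W q.1)ᴴ) p.2 q.2 := by
    rw [← Matrix.conjTranspose_apply, Matrix.conjTranspose_mul, Matrix.conjTranspose_conjTranspose]
  have h2 : star ((1 : Matrix (Fin N) (Fin N) ℂ) q.2 p.2) = (1 : Matrix (Fin N) (Fin N) ℂ) p.2 q.2 :=
    Matrix.isHermitian_one.apply _ _
  rw [Matrix.conjTranspose_apply]
  simp only [pick, Matrix.of_apply]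
  rw [star_sub, star_mul', star_mul', h1, h2, hk.apply, hl.apply]

theorem pick_psd_iff {k l : Matrix X X ℂ} (hk : k.IsHermitian) (hl : l.IsHermitian) {n N : ℕ}
    (z : Fin n → X) (W : Fin n → Matrix (Fin N) (Fin N) ℂ) : (pick k l z W).PosSemidef ↔
    ∀ ξ : Fin n → EuclideanSpace ℂ (Fin N),
      form (k.submatrix z z) (fun i => adj (W i) (ξ i)) ≤ form (l.submatrix z z) ξ := by
  constructor
  · intro h ξ
    have h1 := h.dotProduct_mulVec_nonneg (fun p : Fin n × Fin N => ξ p.1 p.2)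
    rw [pick_dot] at h1
    have h2 := (Complex.nonneg_iff.mp h1).1
    rw [Complex.sub_re] at h2
    unfold form
    linarith
  · intro h
    refine Matrix.PosSemidef.of_dotProduct_mulVec_nonneg (pick_herm hk hl z W) fun x => ?_
    have h1 := pick_dot k l z W (fun i => WithLp.toLp 2 fun a => x (i, a))
    have h2 := h (fun i => WithLp.toLp 2 fun a => x (i, a))
    have h3 : (fun p : Fin n × Fin N => (WithLp.toLp 2 fun a => x (p.1, a) :
      EuclideanSpace ℂ (Fin N)) p.2) = x := rfl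
    rw [h3] at h1
    rw [h1, Complex.nonneg_iff, Complex.sub_re, Complex.sub_im]
    unfold form at h2
    refine ⟨by linarith, ?_⟩
    have e1 := sform_conj (hl.submatrix z) (fun i => (WithLp.toLp 2 fun a => x (i, a) :
      EuclideanSpace ℂ (Fin N))) (fun i => WithLp.toLp 2 fun a => x (i, a))
    have e2 := sform_conj (hk.submatrix z) (fun i => adj (W i) (WithLp.toLp 2 fun a => x (i, a)))
      (fun i => adj (W i) (WithLp.toLp 2 fun a => x (i, a)))
    rw [Complex.conj_eq_iff_im] at e1 e2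
    rw [e1, e2, sub_zero]

/-- the ampliated kernel -/
noncomputable def amp (k : Matrix X X ℂ) (N : ℕ) :
    Matrix X X (EuclideanSpace ℂ (Fin N) →L[ℂ] EuclideanSpace ℂ (Fin N)) :=
  Matrix.of fun x y => k x y • ContinuousLinearMap.id ℂ (EuclideanSpace ℂ (Fin N))

theorem amp_psd {k : Matrix X X ℂ} (hk : k.PosSemidef) (N : ℕ) : (amp k N).PosSemidef := by
  classical
  have key : ((amp k N).IsHermitian ∧ ∀ (vv : X →₀ EuclideanSpace ℂ (Fin N)),
      0 ≤ RCLike.re (vv.sum fun x w => vv.sum fun x' w' => ⟪amp k N x' x w, w'⟫_ℂ)) →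
      (amp k N).PosSemidef := (RKHS.posSemidef_tfae.out 0 2).mpr
  refine key ⟨?_, fun vv => ?_⟩
  · ext1 x y
    rw [Matrix.conjTranspose_apply]
    simp only [amp, Matrix.of_apply]
    rw [star_smul, hk.isHermitian.apply]
    congr 1
    exact ContinuousLinearMap.adjoint_id
  · have h1 := form_nonneg (hk.submatrix (Subtype.val : vv.support → X)) (fun x => vv x.1)
    unfold form sform at h1
    have h2 : (vv.sum fun x w => vv.sum fun x' w' => ⟪amp k N x' x w, w'⟫_ℂ) =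
        ∑ x : vv.support, ∑ y : vv.support, k.submatrix Subtype.val Subtype.val x y *
          ⟪vv x.1, vv y.1⟫_ℂ := by
      unfold Finsupp.sum
      refine (Finset.sum_coe_sort _ _).symm.trans ?_
      refine Finset.sum_congr rfl fun x _ => ?_
      refine (Finset.sum_coe_sort _ _).symm.trans ?_
      refine Finset.sum_congr rfl fun y _ => ?_
      simp only [amp, Matrix.of_apply, ContinuousLinearMap.smul_apply, ContinuousLinearMap.id_apply,
        inner_smul_left, Matrix.submatrix_apply]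
      have : conj (k y x) = k x y := hk.isHermitian.apply _ _
      rw [this]
    rw [h2]
    exact h1

theorem norm_comb {N : ℕ} {H : Type*} [NormedAddCommGroup H] [InnerProductSpace ℂ H]
    [CompleteSpace H] [RKHS ℂ H X (EuclideanSpace ℂ (Fin N))] {k : Matrix X X ℂ}
    (hH : ∀ x y v, RKHS.kernel H x y v = k x y • v)
    {Y : Type*} [Fintype Y] (z : Y → X) (w : Y → EuclideanSpace ℂ (Fin N)) :
    ‖∑ y, RKHS.kerFun H (z y) (w y)‖ ^ 2 = form (k.submatrix z z) w := by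
  rw [← inner_self_eq_norm_sq (𝕜 := ℂ), form, sform, sum_inner, RCLike.re_to_complex]
  refine congrArg Complex.re ?_
  refine Finset.sum_congr rfl fun x _ => ?_
  rw [inner_sum]
  refine Finset.sum_congr rfl fun y _ => ?_
  rw [RKHS.kerFun_inner, RKHS.kerFun_apply, hH]
  simp [inner_smul_right]

/-- a contractive multiplier has positive Pick forms -/
theorem form_of_mult {k l : Matrix X X ℂ} (hk : k.PosSemidef) (hl : l.PosSemidef) {N : ℕ}
    {Φ : X → Matrix (Fin N) (Fin N) ℂ} (h : IsContrMult k l N Φ)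
    {Y : Type*} [Fintype Y] (z : Y → X) (ξ : Y → EuclideanSpace ℂ (Fin N)) :
    form (k.submatrix z z) (fun y => adj (Φ (z y)) (ξ y)) ≤ form (l.submatrix z z) ξ := by
  have : Fact (amp k N).PosSemidef := ⟨amp_psd hk N⟩
  have : Fact (amp l N).PosSemidef := ⟨amp_psd hl N⟩
  have h1 : ∀ x y v, RKHS.kernel (RKHS.OfKernel (amp k N)) x y v = k x y • v := fun x y v => by
    rw [RKHS.OfKernel.kernel_ofKernel]; rfl
  have h2 : ∀ x y v, RKHS.kernel (RKHS.OfKernel (amp l N)) x y v = l x y • v := fun x y v => by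
    rw [RKHS.OfKernel.kernel_ofKernel]; rfl
  obtain ⟨g, hg, hn⟩ := h _ _ h1 h2
    (∑ y, RKHS.kerFun (RKHS.OfKernel (amp k N)) (z y) (adj (Φ (z y)) (ξ y)))
  rw [← norm_comb h1, ← norm_comb h2]
  set f := ∑ y, RKHS.kerFun (RKHS.OfKernel (amp k N)) (z y) (adj (Φ (z y)) (ξ y)) with hf
  set e := ∑ y, RKHS.kerFun (RKHS.OfKernel (amp l N)) (z y) (ξ y) with he
  have h3 : ⟪e, g⟫_ℂ = ⟪f, f⟫_ℂ := by
    conv_rhs => rw [hf, sum_inner]
    rw [he, sum_inner]
    refine Finset.sum_congr rfl fun y _ => ?_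
    rw [RKHS.kerFun_inner, RKHS.kerFun_inner, hg, adj_inner]
    rfl
  have h4 : ‖f‖ * ‖f‖ ≤ ‖e‖ * ‖f‖ := by
    calc ‖f‖ * ‖f‖ = ‖⟪f, f⟫_ℂ‖ := by rw [inner_self_eq_norm_sq_to_K]; simp [sq]
      _ = ‖⟪e, g⟫_ℂ‖ := by rw [h3]
      _ ≤ ‖e‖ * ‖g‖ := norm_inner_le_norm _ _
      _ ≤ ‖e‖ * ‖f‖ := mul_le_mul_of_nonneg_left hn (norm_nonneg _)
  have h5 : ‖f‖ ≤ ‖e‖ := by
    rcases (norm_nonneg f).eq_or_lt with h0 | h0
    · rw [← h0]; exact norm_nonneg _
    · exact le_of_mul_le_mul_right h4 h0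
  exact pow_le_pow_left₀ (norm_nonneg _) h5 2

theorem riesz_factor {D H : Type*} [AddCommGroup D] [Module ℂ D] [FiniteDimensional ℂ D]
    [NormedAddCommGroup H] [InnerProductSpace ℂ H] (G : D →ₗ[ℂ] H) (φ : D →ₗ[ℂ] ℂ) (C : ℝ)
    (hC : 0 ≤ C) (h : ∀ ξ, ‖φ ξ‖ ≤ C * ‖G ξ‖) :
    ∃ g : H, ‖g‖ ≤ C ∧ ∀ ξ, ⟪g, G ξ⟫_ℂ = φ ξ := by
  let K : Submodule ℂ H := LinearMap.range G
  have : FiniteDimensional ℂ K := inferInstance
  have : CompleteSpace K := FiniteDimensional.complete ℂ K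
  obtain ⟨σ, hσ⟩ := G.rangeRestrict.exists_rightInverse_of_surjective G.range_rangeRestrict
  have hσ' : ∀ y : K, G (σ y) = y := fun y => by
    have := LinearMap.congr_fun hσ y
    exact congrArg Subtype.val this
  have hb : ∀ y : K, ‖(φ ∘ₗ σ) y‖ ≤ C * ‖y‖ := fun y => by
    have := h (σ y)
    rw [hσ'] at this
    exact this
  let ψ : StrongDual ℂ K := (φ ∘ₗ σ).mkContinuous C hb
  refine ⟨((InnerProductSpace.toDual ℂ K).symm ψ : K), ?_, fun ξ => ?_⟩
  · rw [← Submodule.coe_norm, LinearIsometryEquiv.norm_map]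
    exact LinearMap.mkContinuous_norm_le _ hC hb
  · have h1 : ⟪((InnerProductSpace.toDual ℂ K).symm ψ : K), (⟨G ξ, ξ, rfl⟩ : K)⟫_ℂ
        = ψ ⟨G ξ, ξ, rfl⟩ := InnerProductSpace.toDual_symm_apply
    rw [Submodule.coe_inner] at h1
    rw [h1]
    show φ (σ ⟨G ξ, ξ, rfl⟩) = φ ξ
    rw [← sub_eq_zero, ← map_sub, ← norm_le_zero_iff]
    refine (h _).trans ?_
    rw [map_sub, hσ']
    simp

/-- on a finite set positive Pick forms give a contractive multiplier -/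
theorem mult_of_form [Fintype X] {k l : Matrix X X ℂ} {N : ℕ}
    {Φ : X → Matrix (Fin N) (Fin N) ℂ}
    (h : ∀ ξ : X → EuclideanSpace ℂ (Fin N), form k (fun y => adj (Φ y) (ξ y)) ≤ form l ξ) :
    IsContrMult k l N Φ := by
  classical
  intro Hk Hl _ _ _ _ _ _ _ _ h1 h2 f
  let G : (X → EuclideanSpace ℂ (Fin N)) →ₗ[ℂ] Hl :=
    ∑ y, (RKHS.kerFun Hl y).toLinearMap ∘ₗ LinearMap.proj y
  have hG : ∀ ξ, G ξ = ∑ y, RKHS.kerFun Hl y (ξ y) := fun ξ => by
    simp [G, LinearMap.sum_apply]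
  let G' : (X → EuclideanSpace ℂ (Fin N)) →ₗ[ℂ] Hk :=
    ∑ y, (RKHS.kerFun Hk y).toLinearMap ∘ₗ adj (Φ y) ∘ₗ LinearMap.proj y
  have hG' : ∀ ξ, G' ξ = ∑ y, RKHS.kerFun Hk y (adj (Φ y) (ξ y)) := fun ξ => by
    simp [G', LinearMap.sum_apply]
  have hle : ∀ ξ, ‖G' ξ‖ ≤ ‖G ξ‖ := fun ξ => by
    have e1 := norm_comb h1 id (fun y => adj (Φ y) (ξ y))
    have e2 := norm_comb h2 id ξ
    simp only [id, Matrix.submatrix_id_id] at e1 e2
    rw [← pow_le_pow_iff_left₀ (norm_nonneg _) (norm_nonneg _) two_ne_zero, hG, hG', e1, e2]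
    exact h ξ
  obtain ⟨g, hg1, hg2⟩ := riesz_factor G ((innerSL ℂ f).toLinearMap ∘ₗ G') ‖f‖ (norm_nonneg _)
    (fun ξ => (norm_inner_le_norm f (G' ξ)).trans
      (mul_le_mul_of_nonneg_left (hle ξ) (norm_nonneg _)))
  refine ⟨g, fun x => ?_, hg1⟩
  refine ext_inner_right ℂ fun v => ?_
  have h3 := hg2 (Pi.single x v)
  have e1 : G (Pi.single x v) = RKHS.kerFun Hl x v := by
    rw [hG, Finset.sum_eq_single x]
    · simp
    · intro y _ hy; simp [Pi.single_eq_of_ne hy]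
    · simp
  have e2 : G' (Pi.single x v) = RKHS.kerFun Hk x (adj (Φ x) v) := by
    rw [hG', Finset.sum_eq_single x]
    · simp
    · intro y _ hy; simp [Pi.single_eq_of_ne hy]
    · simp
  have h4 : ⟪g, G (Pi.single x v)⟫_ℂ = ⟪f, G' (Pi.single x v)⟫_ℂ := h3
  rw [e1, e2, RKHS.inner_kerFun, RKHS.inner_kerFun] at h4
  rw [h4, ← inner_conj_symm, adj_inner, inner_conj_symm]
  rfl

end Pool.Agent.H439Z.Sh
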