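import Mathlib
import Pool.Agent.H439Z.ShBridge

set_option autoImplicit false

open scoped ComplexOrder Matrix InnerProductSpace ComplexConjugate MatrixOrder Topology
open Finset Filter

namespace Pool.Agent.H439Z.Sh

universe u

section fin

variable {Y : Type*} [Fintype Y]
variable {E : Type*} [NormedAddCommGroup E] [InnerProductSpace ℂ E]

theorem psd_of_form {A : Matrix Y Y ℂ} (hA : A.IsHermitian) (h : ∀ c : Y → ℂ, 0 ≤ form A c) :
    A.PosSemidef := by
  refine Matrix.PosSemidef.of_dotProduct_mulVec_nonneg hA fun c => ?_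
  have h1 : star c ⬝ᵥ (A *ᵥ c) = sform A c c := by
    simp only [dotProduct, Matrix.mulVec, sform, Finset.mul_sum, Pi.star_apply, RCLike.inner_apply,
      RCLike.star_def]
    refine Finset.sum_congr rfl fun x _ => Finset.sum_congr rfl fun y _ => ?_
    ring
  rw [h1, Complex.nonneg_iff]
  refine ⟨h c, ?_⟩
  have := sform_conj hA c c
  rw [Complex.conj_eq_iff_im] at this
  exact this.symm

theorem form_extend {I : Type*} [Fintype I] (κ : Matrix Y Y ℂ) (a : I → Y)
    (ha : Function.Injective a) (w : Y → E) (hw : ∀ y, y ∉ Set.range a → w y = 0) :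
    form κ w = form (κ.submatrix a a) (fun i => w (a i)) := by
  unfold form sform
  refine congrArg Complex.re ?_
  symm
  refine Fintype.sum_of_injective a ha _ _ (fun x hx => ?_) (fun i => ?_)
  · simp [hw x hx]
  · refine Fintype.sum_of_injective a ha _ _ (fun y hy => ?_) (fun j => rfl)
    simp [hw y hy]

theorem form_zero (κ : Matrix Y Y ℂ) : form κ (fun _ => (0 : E)) = 0 := by
  simp [form, sform]

theorem form_hadamard (κ : Matrix Y Y ℂ) (c : Y → ℂ) (w : Y → E) :
    form (Matrix.gram ℂ c ⊙ κ) w = form κ (fun y => c y • w y) := by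
  unfold form sform
  refine congrArg Complex.re ?_
  refine Finset.sum_congr rfl fun x _ => Finset.sum_congr rfl fun y _ => ?_
  rw [Matrix.hadamard_apply, Matrix.gram_apply, inner_smul_left, inner_smul_right,
    RCLike.inner_apply]
  ring

theorem gram_of_functional [DecidableEq Y] (g : (Y → Y → ℂ) →ₗ[ℝ] ℝ)
    (hg : ∀ M : Matrix Y Y ℂ, M.PosSemidef → 0 ≤ g M) :
    ∃ v : Y → EuclideanSpace ℂ (Fin (Fintype.card Y)),
      ∀ M : Matrix Y Y ℂ, M.IsHermitian → g M = form M v := by
  let B : Y → Y → ℂ → (Y → Y → ℂ) := fun x y c => Pi.single x (Pi.single y c)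
  let A' : Matrix Y Y ℂ := Matrix.of fun x y =>
    (g (B x y 1) : ℂ) - Complex.I * (g (B x y Complex.I) : ℂ)
  have h1 : ∀ M : Y → Y → ℂ, g M = (∑ x, ∑ y, M x y * A' x y).re := by
    intro M
    have e : M = ∑ x, ∑ y, ((M x y).re • B x y 1 + (M x y).im • B x y Complex.I) := by
      funext a b
      simp only [Finset.sum_apply, Pi.add_apply, Pi.smul_apply, B]
      rw [Finset.sum_eq_single a, Finset.sum_eq_single b]
      · simp
      · intro y _ hy; simp [Pi.single_eq_of_ne hy.symm]
      · simp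
      · intro x _ hx; simp [Pi.single_eq_of_ne hx.symm]
      · simp
    conv_lhs => rw [e]
    rw [map_sum, Complex.re_sum]
    refine Finset.sum_congr rfl fun x _ => ?_
    rw [map_sum, Complex.re_sum]
    refine Finset.sum_congr rfl fun y _ => ?_
    rw [map_add, map_smul, map_smul]
    simp [A']
  let A : Matrix Y Y ℂ := (1 / 2 : ℂ) • (A' + A'ᴴ)
  have hA : A.IsHermitian := by
    ext x y
    simp [A, add_comm]
  have h2 : ∀ M : Matrix Y Y ℂ, M.IsHermitian → g M = (∑ x, ∑ y, M x y * A x y).re := by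
    intro M hM
    have e1 : ∑ x, ∑ y, M x y * A'ᴴ x y = conj (∑ x, ∑ y, M x y * A' x y) := by
      rw [map_sum, Finset.sum_comm]
      refine Finset.sum_congr rfl fun x _ => ?_
      rw [map_sum]
      refine Finset.sum_congr rfl fun y _ => ?_
      rw [map_mul, Matrix.conjTranspose_apply]
      have : conj (M x y) = M y x := hM.apply y x
      rw [this]; rfl
    have e2 : ∑ x, ∑ y, M x y * A x y =
        (1 / 2 : ℂ) * (∑ x, ∑ y, M x y * A' x y + ∑ x, ∑ y, M x y * A'ᴴ x y) := by
      rw [← Finset.sum_add_distrib, Finset.mul_sum]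
      refine Finset.sum_congr rfl fun x _ => ?_
      rw [← Finset.sum_add_distrib, Finset.mul_sum]
      refine Finset.sum_congr rfl fun y _ => ?_
      simp only [A, Matrix.smul_apply, Matrix.add_apply, smul_eq_mul]
      ring
    rw [e2, e1, Complex.add_conj, h1]
    simp
  have hpsd : A.PosSemidef := psd_of_form hA fun c => by
    have h3 := hg _ (Matrix.posSemidef_gram ℂ c)
    rw [h2 _ (Matrix.isHermitian_gram ℂ c)] at h3
    unfold form sform
    convert h3 using 4 with x _ y _
    rw [Matrix.gram_apply, mul_comm]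
  obtain ⟨R, hR⟩ := CStarAlgebra.nonneg_iff_eq_star_mul_self.mp hpsd.nonneg
  let e := Fintype.equivFin Y
  refine ⟨fun x => WithLp.toLp 2 fun a => R (e.symm a) x, fun M hM => ?_⟩
  rw [h2 M hM]
  unfold form sform
  refine congrArg Complex.re ?_
  refine Finset.sum_congr rfl fun x _ => Finset.sum_congr rfl fun y _ => ?_
  congr 1
  rw [hR, Matrix.mul_apply, PiLp.inner_apply]
  refine Fintype.sum_equiv e _ _ fun a => ?_
  simp [mul_comm]

theorem scale_le {a u : ℝ} (h : ∀ t : ℝ, 0 ≤ t → t * a < u) : a ≤ 0 := by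
  by_contra ha
  push Not at ha
  have h0 := h 0 le_rfl
  have h1 := h (u / a) (by rw [zero_mul] at h0; positivity)
  rw [div_mul_cancel₀ _ ha.ne'] at h1
  exact lt_irrefl _ h1

theorem psd_convex : Convex ℝ {M : Y → Y → ℂ | Matrix.PosSemidef (Matrix.of M)} := by
  intro M hM M' hM' a b ha hb _
  exact (Matrix.PosSemidef.smul hM ha).add (Matrix.PosSemidef.smul hM' hb)

/-- approximate certificates on a finite set -/
theorem approx_cert [DecidableEq Y] {k l : Matrix Y Y ℂ} (hk : k.PosSemidef) (hl : l.PosSemidef)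
    (hE : Ext1 (EuclideanSpace ℂ (Fin (Fintype.card Y))) k l) (z : Y) {ε : ℝ} (hε : 0 < ε) :
    ∃ p M1 M2 : Matrix Y Y ℂ, p.PosSemidef ∧ M1.PosSemidef ∧ M2.PosSemidef ∧
      (∀ x y, ‖kerAt l z x y - p x y * l x y - M1 x y‖ < ε) ∧
      ∀ x y, ‖p x y * k x y - kerAt k z x y - M2 x y‖ < ε := by
  let P : Set (Y → Y → ℂ) := {M | Matrix.PosSemidef (Matrix.of M)}
  let s : Set ((Y → Y → ℂ) × (Y → Y → ℂ)) := Metric.thickening ε (P ×ˢ P)
  let φ : (Y → Y → ℂ) → (Y → Y → ℂ) × (Y → Y → ℂ) := fun p =>
    (fun x y => kerAt l z x y - p x y * l x y, fun x y => p x y * k x y - kerAt k z x y)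
  let t : Set ((Y → Y → ℂ) × (Y → Y → ℂ)) := φ '' P
  have hs : Convex ℝ s := (psd_convex.prod psd_convex).thickening ε
  have ht : Convex ℝ t := by
    rintro _ ⟨p, hp, rfl⟩ _ ⟨q, hq, rfl⟩ a b ha hb hab
    refine ⟨a • p + b • q, psd_convex hp hq ha hb hab, ?_⟩
    have hab' : (a : ℂ) + b = 1 := by exact_mod_cast hab
    ext x y
    · simp only [φ, Prod.fst_add, Prod.smul_fst, Pi.add_apply, Pi.smul_apply, Complex.real_smul]
      linear_combination (-(kerAt l z x y)) * hab'
    · simp only [φ, Prod.snd_add, Prod.smul_snd, Pi.add_apply, Pi.smul_apply, Complex.real_smul]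
      linear_combination (kerAt k z x y) * hab'
  by_cases hd : Disjoint s t
  · exfalso
    obtain ⟨f, u, hf1, hf2⟩ := geometric_hahn_banach_open hs Metric.isOpen_thickening ht hd
    have hP : ∀ M1 M2 : Matrix Y Y ℂ, M1.PosSemidef → M2.PosSemidef → f (M1, M2) < u :=
      fun M1 M2 h1 h2 => hf1 _ (Metric.self_subset_thickening hε _ ⟨h1, h2⟩)
    have hu : 0 < u := by
      have := hP 0 0 Matrix.PosSemidef.zero Matrix.PosSemidef.zero
      have e : f ((0 : Matrix Y Y ℂ), (0 : Matrix Y Y ℂ)) = 0 := map_zero f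
      rwa [e] at this
    let g1 : (Y → Y → ℂ) →ₗ[ℝ] ℝ := -(f.toLinearMap ∘ₗ LinearMap.inl ℝ _ _)
    let g2 : (Y → Y → ℂ) →ₗ[ℝ] ℝ := -(f.toLinearMap ∘ₗ LinearMap.inr ℝ _ _)
    have hsplit : ∀ M1 M2 : Y → Y → ℂ, f (M1, M2) = -g1 M1 - g2 M2 := by
      intro M1 M2
      have : (M1, M2) = (M1, 0) + (0, M2) := by simp
      rw [this, map_add]
      simp [g1, g2]
    obtain ⟨v, hv⟩ := gram_of_functional g1 (fun M hM => by
      have := scale_le (a := -g1 M) (u := u) fun t ht => by
        have h1 := hP (t • M) 0 (hM.smul ht) Matrix.PosSemidef.zero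
        rw [hsplit] at h1
        have e1 : g1 (t • M) = t * g1 M := map_smul g1 t M
        have e2 : g2 (0 : Matrix Y Y ℂ) = 0 := map_zero g2
        rw [e1, e2] at h1
        linarith
      linarith)
    obtain ⟨w, hw⟩ := gram_of_functional g2 (fun M hM => by
      have := scale_le (a := -g2 M) (u := u) fun t ht => by
        have h1 := hP 0 (t • M) Matrix.PosSemidef.zero (hM.smul ht)
        rw [hsplit] at h1
        have e1 : g2 (t • M) = t * g2 M := map_smul g2 t M
        have e2 : g1 (0 : Matrix Y Y ℂ) = 0 := map_zero g1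
        rw [e1, e2] at h1
        linarith
      linarith)
    have hφ : ∀ p : Matrix Y Y ℂ, p.PosSemidef → u ≤ -g1 (kerAt l z) + g1 (p ⊙ l)
        - g2 (p ⊙ k) + g2 (kerAt k z) := by
      intro p hp
      have h1 := hf2 (φ p) ⟨p, hp, rfl⟩
      rw [hsplit] at h1
      have e1 : g1 (fun x y => kerAt l z x y - p x y * l x y) = g1 (kerAt l z) - g1 (p ⊙ l) :=
        map_sub g1 (kerAt l z) (p ⊙ l)
      have e2 : g2 (fun x y => p x y * k x y - kerAt k z x y) = g2 (p ⊙ k) - g2 (kerAt k z) :=
        map_sub g2 (p ⊙ k) (kerAt k z)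
      rw [e1, e2] at h1
      linarith
    have hlt : form (kerAt l z) v < form (kerAt k z) w := by
      have h1 := hφ 0 Matrix.PosSemidef.zero
      have e1 : g1 ((0 : Matrix Y Y ℂ) ⊙ l) = 0 := by rw [Matrix.zero_hadamard]; exact map_zero g1
      have e2 : g2 ((0 : Matrix Y Y ℂ) ⊙ k) = 0 := by rw [Matrix.zero_hadamard]; exact map_zero g2
      rw [e1, e2, hv _ (kerAt_herm hl.isHermitian z), hw _ (kerAt_herm hk.isHermitian z)] at h1
      linarith
    have hle : ∀ c : Y → ℂ, form k (fun y => c y • w y) ≤ form l (fun y => c y • v y) := by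
      intro c
      have hp := Matrix.posSemidef_gram ℂ c
      rw [← form_hadamard, ← form_hadamard, ← hv _ (hp.hadamard hl).isHermitian,
        ← hw _ (hp.hadamard hk).isHermitian]
      have := scale_le (a := g2 (Matrix.gram ℂ c ⊙ k) - g1 (Matrix.gram ℂ c ⊙ l))
        (u := -g1 (kerAt l z) + g2 (kerAt k z)) fun t ht => by
          have h1 := hφ (t • Matrix.gram ℂ c) (hp.smul ht)
          rw [Matrix.smul_hadamard, Matrix.smul_hadamard] at h1
          have e1 : g1 (t • (Matrix.gram ℂ c ⊙ l)) = t * g1 (Matrix.gram ℂ c ⊙ l) := map_smul g1 t _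
          have e2 : g2 (t • (Matrix.gram ℂ c ⊙ k)) = t * g2 (Matrix.gram ℂ c ⊙ k) := map_smul g2 t _
          rw [e1, e2] at h1
          linarith
      linarith
    let S : Y → Submodule ℂ (EuclideanSpace ℂ (Fin (Fintype.card Y))) := fun y => ℂ ∙ v y
    let T : Y → EuclideanSpace ℂ (Fin (Fintype.card Y)) →ₗ[ℂ]
        EuclideanSpace ℂ (Fin (Fintype.card Y)) := fun y =>
      LinearMap.smulRight ((⟪v y, v y⟫_ℂ)⁻¹ • (innerSL ℂ (v y)).toLinearMap) (w y)
    have hT : ∀ y, T y (v y) = (if v y = 0 then (0 : ℂ) else 1) • w y := by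
      intro y
      have : T y (v y) = ((⟪v y, v y⟫_ℂ)⁻¹ * ⟪v y, v y⟫_ℂ) • w y := rfl
      rw [this]
      by_cases h : v y = 0
      · simp [h]
      · rw [inv_mul_cancel₀ (inner_self_ne_zero.mpr h), if_neg h]
    have hpos : Pos k l S T := by
      intro ξ hξ
      choose c hc using fun y => Submodule.mem_span_singleton.mp (hξ y)
      have h1 := hle (fun y => c y * if v y = 0 then (0 : ℂ) else 1)
      have e1 : (fun y => T y (ξ y)) = fun y => (c y * if v y = 0 then (0 : ℂ) else 1) • w y := by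
        funext y
        rw [← hc y, map_smul, hT, smul_smul]
      have e2 : ξ = fun y => (c y * if v y = 0 then (0 : ℂ) else 1) • v y := by
        funext y
        rw [← hc y]
        by_cases h : v y = 0 <;> simp [h]
      rw [e1]
      conv_rhs => rw [e2]
      exact h1
    have hrow := row_final hk hl hE z S T hpos v (fun y => Submodule.mem_span_singleton_self _)
    have hzero : ∀ y, v y = 0 → w y = 0 ∨ k y y = 0 := by
      intro y hy
      have h1 := hle (Pi.single y 1)
      have e1 : (fun x => (Pi.single y 1 : Y → ℂ) x • v x) = fun _ => 0 := by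
        funext x
        by_cases hx : x = y
        · rw [hx, hy, smul_zero]
        · rw [Pi.single_eq_of_ne hx, zero_smul]
      have e2 : form k (fun x => (Pi.single y 1 : Y → ℂ) x • w x) = (k y y).re * ‖w y‖ ^ 2 := by
        rw [form_extend k (fun _ : Unit => y) (fun _ _ _ => rfl) _ (fun x hx => by
          have hx' : x ≠ y := fun h => hx ⟨(), h.symm⟩
          rw [Pi.single_eq_of_ne hx', zero_smul])]
        have h0 : ⟪w y, w y⟫_ℂ = ((‖w y‖ ^ 2 : ℝ) : ℂ) := by
          rw [inner_self_eq_norm_sq_to_K]; simp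
        simp only [form, sform, Finset.univ_unique, Finset.sum_singleton, Matrix.submatrix_apply,
          Pi.single_eq_same, one_smul, h0, Complex.mul_re, Complex.ofReal_re, Complex.ofReal_im,
          mul_zero, sub_zero]
      rw [e1, e2, form_zero] at h1
      have h0 : 0 ≤ (k y y).re := (Complex.nonneg_iff.mp (hk.diag_nonneg (i := y))).1
      by_contra hcon
      push Not at hcon
      have h2 : 0 < (k y y).re := lt_of_le_of_ne h0 fun h => hcon.2 (by
        rw [diag_real hk.isHermitian y, ← h]; simp)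
      have h3 : 0 < ‖w y‖ := norm_pos_iff.mpr hcon.1
      have : 0 < (k y y).re * ‖w y‖ ^ 2 := by positivity
      linarith
    have heq : form (kerAt k z) (fun y => T y (v y)) = form (kerAt k z) w := by
      unfold form sform
      refine congrArg Complex.re ?_
      refine Finset.sum_congr rfl fun x _ => Finset.sum_congr rfl fun y _ => ?_
      by_cases h1 : k x x = 0
      · rw [kerAt_apply, (row_zero hk h1 y).2, (row_zero hk h1 z).2]; simp
      by_cases h2 : k y y = 0
      · rw [kerAt_apply, (row_zero hk h2 x).1, (row_zero hk h2 z).1]; simp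
      have h3 : ∀ a, k a a ≠ 0 → T a (v a) = w a := by
        intro a ha
        rw [hT]
        by_cases h : v a = 0
        · rw [(hzero a h).resolve_right ha, smul_zero]
        · rw [if_neg h, one_smul]
      simp only [h3 x h1, h3 y h2]
    rw [heq] at hrow
    linarith
  · rw [Set.not_disjoint_iff] at hd
    obtain ⟨_, hs1, p, hp, rfl⟩ := hd
    obtain ⟨⟨M1, M2⟩, ⟨h1, h2⟩, h3⟩ := Metric.mem_thickening_iff.mp hs1
    rw [Prod.dist_eq, max_lt_iff] at h3
    refine ⟨p, M1, M2, hp, h1, h2, fun x y => ?_, fun x y => ?_⟩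
    · rw [← dist_eq_norm]
      exact lt_of_le_of_lt ((dist_le_pi_dist ((φ p).1 x) (M1 x) y).trans
        (dist_le_pi_dist (φ p).1 M1 x)) h3.1
    · rw [← dist_eq_norm]
      exact lt_of_le_of_lt ((dist_le_pi_dist ((φ p).2 x) (M2 x) y).trans
        (dist_le_pi_dist (φ p).2 M2 x)) h3.2

end fin

end Pool.Agent.H439Z.Sh
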