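import Mathlib
import Pool.Agent.H439Z.ShSep

set_option autoImplicit false

open scoped ComplexOrder Matrix InnerProductSpace ComplexConjugate MatrixOrder Topology
open Finset

namespace Pool.Agent.H439Z.Sh

variable {E : Type*} [NormedAddCommGroup E] [InnerProductSpace ℂ E]

theorem re_self (v : E) : (⟪v, v⟫_ℂ).re = ‖v‖ ^ 2 := by
  rw [← inner_self_eq_norm_sq (𝕜 := ℂ)]; rfl

theorem re_symm (v w : E) : (⟪w, v⟫_ℂ).re = (⟪v, w⟫_ℂ).re := by
  rw [← inner_conj_symm, Complex.conj_re]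

theorem norm_add_sq' (v w : E) : ‖v + w‖ ^ 2 = ‖v‖ ^ 2 + 2 * (⟪v, w⟫_ℂ).re + ‖w‖ ^ 2 :=
  norm_add_sq (𝕜 := ℂ) v w

theorem form_two (κ : Matrix (Fin 2) (Fin 2) ℂ) (a b c : ℝ) (h00 : κ 0 0 = a) (h01 : κ 0 1 = b)
    (h10 : κ 1 0 = b) (h11 : κ 1 1 = c) (v w : E) :
    form κ ![v, w] = a * ‖v‖ ^ 2 + 2 * b * (⟪v, w⟫_ℂ).re + c * ‖w‖ ^ 2 := by
  simp only [form, sform, Fin.sum_univ_two, h00, h01, h10, h11, Complex.add_re, Complex.re_ofReal_mul,
    Matrix.cons_val_zero, Matrix.cons_val_one, re_self, re_symm v w]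
  ring

/-- the first kernel of the example -/
def kEx : Matrix (Fin 3) (Fin 3) ℂ := !![2, 1, 1; 1, 1, 0; 1, 0, 2]

/-- the second kernel of the example -/
def lEx : Matrix (Fin 3) (Fin 3) ℂ := !![2, 1, 0; 1, 1, 0; 0, 0, 0]

theorem kEx_herm : kEx.IsHermitian := by
  ext i j; fin_cases i <;> fin_cases j <;> simp [kEx]

theorem lEx_herm : lEx.IsHermitian := by
  ext i j; fin_cases i <;> fin_cases j <;> simp [lEx]

theorem form_kEx (w : Fin 3 → E) :
    form kEx w = ‖w 0 + w 1‖ ^ 2 + ‖w 0 + w 2‖ ^ 2 + ‖w 2‖ ^ 2 := by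
  rw [norm_add_sq', norm_add_sq']
  simp [form, sform, Fin.sum_univ_three, kEx, re_self, re_symm (w 0) (w 1), re_symm (w 0) (w 2),
    -inner_self_eq_norm_sq_to_K]
  ring

theorem form_lEx (w : Fin 3 → E) : form lEx w = ‖w 0 + w 1‖ ^ 2 + ‖w 0‖ ^ 2 := by
  rw [norm_add_sq']
  simp [form, sform, Fin.sum_univ_three, lEx, re_self, re_symm (w 0) (w 1),
    -inner_self_eq_norm_sq_to_K]
  ring

theorem kEx_psd : kEx.PosSemidef := psd_of_form kEx_herm fun c => by
  rw [form_kEx]; positivity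

theorem lEx_psd : lEx.PosSemidef := psd_of_form lEx_herm fun c => by
  rw [form_lEx]; positivity

theorem no_cert : ¬ HasCertificate kEx lEx := by
  rintro ⟨p, hp⟩
  obtain ⟨_, h1, h2⟩ := hp 0
  have e1 : (kerAt lEx 0 - p 0 ⊙ lEx) 1 1 = 1 / 2 - p 0 1 1 := by
    rw [Matrix.sub_apply, Matrix.hadamard_apply, kerAt_apply]
    simp [lEx]; norm_num
  have e2 : (p 0 ⊙ kEx - kerAt kEx 0) 1 1 = p 0 1 1 - 1 / 2 := by
    rw [Matrix.sub_apply, Matrix.hadamard_apply, kerAt_apply]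
    simp [kEx]; norm_num
  have e3 : (p 0 ⊙ kEx - kerAt kEx 0) 1 2 = 1 / 2 := by
    rw [Matrix.sub_apply, Matrix.hadamard_apply, kerAt_apply]
    simp [kEx]
  have h3 := h1.diag_nonneg (i := 1)
  have h4 := h2.diag_nonneg (i := 1)
  rw [e1] at h3
  have h5 : (p 0 ⊙ kEx - kerAt kEx 0) 1 1 = 0 := by
    refine le_antisymm ?_ h4
    rw [e2]
    exact sub_nonpos.mpr (sub_nonneg.mp h3)
  have h6 := (row_zero h2 h5 2).2
  rw [e3] at h6
  norm_num at h6

theorem adj_inj {N : ℕ} {A B : Matrix (Fin N) (Fin N) ℂ} (h : ∀ v, adj A v = adj B v) : A = B := by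
  have : Matrix.toEuclideanLin Aᴴ = Matrix.toEuclideanLin Bᴴ := LinearMap.ext h
  exact Matrix.conjTranspose_injective (Matrix.toEuclideanLin.injective this)

theorem adj_zero {N : ℕ} : adj (0 : Matrix (Fin N) (Fin N) ℂ) = 0 := by simp [adj]

theorem cp_ex : CPPair kEx lEx := by
  classical
  intro n N _ _ z W hP
  have H : ∀ (i j : Fin n) (v w : EuclideanSpace ℂ (Fin N)),
      form (kEx.submatrix (z ∘ ![i, j]) (z ∘ ![i, j])) ![adj (W i) v, adj (W j) w] ≤
        form (lEx.submatrix (z ∘ ![i, j]) (z ∘ ![i, j])) ![v, w] := by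
    intro i j v w
    have h1 : (pick kEx lEx (z ∘ ![i, j]) (W ∘ ![i, j])).PosSemidef :=
      hP.submatrix (Prod.map ![i, j] id)
    have h2 := (pick_psd_iff kEx_herm lEx_herm _ _).mp h1 ![v, w]
    convert h2 using 2
    funext a
    fin_cases a <;> rfl
  have Hsame : ∀ i j, z i = z j → ∀ (a b : ℝ), kEx (z i) (z i) = a → lEx (z i) (z i) = b →
      ∀ v w, a * ‖adj (W i) v + adj (W j) w‖ ^ 2 ≤ b * ‖v + w‖ ^ 2 := by
    intro i j hij a b ha hb v w
    have h1 := H i j v w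
    rw [form_two _ a a a (by simpa using ha) (by simpa [← hij] using ha) (by simpa [← hij] using ha)
      (by simpa [← hij] using ha), form_two _ b b b (by simpa using hb) (by simpa [← hij] using hb)
      (by simpa [← hij] using hb) (by simpa [← hij] using hb)] at h1
    rw [norm_add_sq', norm_add_sq']
    linarith
  have hdiag : ∀ x : Fin 3, ∃ a b : ℝ, 0 < a ∧ kEx x x = a ∧ lEx x x = b := by
    intro x
    fin_cases x
    · exact ⟨2, 2, by norm_num, by simp [kEx], by simp [lEx]⟩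
    · exact ⟨1, 1, by norm_num, by simp [kEx], by simp [lEx]⟩
    · exact ⟨2, 0, by norm_num, by simp [kEx], by simp [lEx]⟩
  have Huniq : ∀ i j, z i = z j → W i = W j := by
    intro i j hij
    obtain ⟨a, b, ha, h1, h2⟩ := hdiag (z i)
    refine adj_inj fun v => ?_
    have h3 := Hsame i j hij a b h1 h2 v (-v)
    rw [add_neg_cancel, norm_zero, map_neg, ← sub_eq_add_neg] at h3
    have h4 : ‖adj (W i) v - adj (W j) v‖ ^ 2 ≤ 0 := by
      by_contra hc
      push Not at hc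
      have := mul_pos ha hc
      linarith
    rw [← sub_eq_zero, ← norm_eq_zero]
    exact pow_eq_zero_iff two_ne_zero |>.mp (le_antisymm h4 (by positivity))
  have H2 : ∀ i, z i = 2 → W i = 0 := by
    intro i hi
    refine adj_inj fun v => ?_
    have h3 := Hsame i i rfl 2 0 (by simp [hi, kEx]) (by simp [hi, lEx]) v 0
    rw [map_zero, add_zero, zero_mul] at h3
    rw [adj_zero, LinearMap.zero_apply, ← norm_eq_zero]
    exact pow_eq_zero_iff two_ne_zero |>.mp (le_antisymm (by linarith) (by positivity))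
  have H0 : ∀ i, z i = 0 → ∀ v, ‖adj (W i) v‖ ^ 2 ≤ ‖v‖ ^ 2 := by
    intro i hi v
    have h3 := Hsame i i rfl 2 2 (by simp [hi, kEx]) (by simp [hi, lEx]) v 0
    rw [map_zero, add_zero, add_zero] at h3
    linarith
  have H1 : ∀ i, z i = 1 → ∀ v, ‖adj (W i) v‖ ^ 2 ≤ ‖v‖ ^ 2 := by
    intro i hi v
    have h3 := Hsame i i rfl 1 1 (by simp [hi, kEx]) (by simp [hi, lEx]) v 0
    rw [map_zero, add_zero, add_zero] at h3
    linarith
  have key : ∃ A B : Matrix (Fin N) (Fin N) ℂ, (∀ i, z i = 0 → W i = A) ∧ (∀ i, z i = 1 → W i = B) ∧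
      ∀ v w, ‖adj A v + adj B w‖ ^ 2 + ‖adj A v‖ ^ 2 ≤ ‖v + w‖ ^ 2 + ‖v‖ ^ 2 := by
    by_cases h0 : ∃ i, z i = 0
    · obtain ⟨i, hi⟩ := h0
      by_cases h1 : ∃ j, z j = 1
      · obtain ⟨j, hj⟩ := h1
        refine ⟨W i, W j, fun i' h => Huniq _ _ (h.trans hi.symm),
          fun j' h => Huniq _ _ (h.trans hj.symm), fun v w => ?_⟩
        have h1 := H i j v w
        rw [form_two _ 2 1 1 (by simp [hi, kEx]) (by simp [hi, hj, kEx]) (by simp [hi, hj, kEx])
          (by simp [hj, kEx]), form_two _ 2 1 1 (by simp [hi, lEx]) (by simp [hi, hj, lEx])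
          (by simp [hi, hj, lEx]) (by simp [hj, lEx])] at h1
        rw [norm_add_sq', norm_add_sq']
        linarith
      · refine ⟨W i, W i, fun i' h => Huniq _ _ (h.trans hi.symm),
          fun j' h => (h1 ⟨j', h⟩).elim, fun v w => ?_⟩
        rw [← map_add]
        exact add_le_add (H0 i hi _) (H0 i hi _)
    · by_cases h1 : ∃ j, z j = 1
      · obtain ⟨j, hj⟩ := h1
        refine ⟨W j, W j, fun i' h => (h0 ⟨i', h⟩).elim,
          fun j' h => Huniq _ _ (h.trans hj.symm), fun v w => ?_⟩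
        rw [← map_add]
        exact add_le_add (H1 j hj _) (H1 j hj _)
      · refine ⟨0, 0, fun i' h => (h0 ⟨i', h⟩).elim, fun j' h => (h1 ⟨j', h⟩).elim, fun v w => ?_⟩
        simp only [adj_zero, LinearMap.zero_apply, add_zero, norm_zero]
        nlinarith [sq_nonneg ‖v + w‖, sq_nonneg ‖v‖]
  obtain ⟨A, B, hA, hB, hAB⟩ := key
  refine ⟨![A, B, 0], mult_of_form fun ξ => ?_, fun i => ?_⟩
  · rw [form_kEx, form_lEx]
    have := hAB (ξ 0) (ξ 1)
    simpa [adj_zero] using this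
  · have h : z i = 0 ∨ z i = 1 ∨ z i = 2 := by
      generalize z i = x
      fin_cases x <;> simp
    rcases h with h | h | h
    · rw [h, hA i h]; rfl
    · rw [h, hB i h]; rfl
    · rw [h, H2 i h]; rfl

theorem cex : ∃ k l : Matrix (Fin 3) (Fin 3) ℂ, k.PosSemidef ∧ l.PosSemidef ∧ CPPair k l ∧
    ¬ HasCertificate k l := ⟨kEx, lEx, kEx_psd, lEx_psd, cp_ex, no_cert⟩

end Pool.Agent.H439Z.Sh
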