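import Mathlib
import Pool.Agent.H439Z.ShSep

set_option autoImplicit false

open scoped ComplexOrder Matrix InnerProductSpace ComplexConjugate MatrixOrder Topology
open Finset Filter

namespace Pool.Agent.H439Z.Sh

universe u

variable {X : Type u}

theorem ext1_of_cp {k l : Matrix X X ℂ} (hk : k.PosSemidef) (hl : l.PosSemidef)
    (h : CPPairInj k l) {Y : Type*} [Fintype Y] [DecidableEq Y] (ι : Y → X)
    (hι : Function.Injective ι) {N : ℕ} (hN : 1 ≤ N) :
    Ext1 (EuclideanSpace ℂ (Fin N)) (k.submatrix ι ι) (l.submatrix ι ι) := by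
  intro F z T hpos
  rcases F.eq_empty_or_nonempty with hF | hF
  · refine ⟨fun _ => 0, by simp [hF], fun ξ _ => ?_⟩
    simp only [LinearMap.zero_apply]
    rw [form_zero]
    exact form_nonneg (hl.submatrix ι) ξ
  let e : Fin F.card ≃ F := F.equivFin.symm
  let a : Fin F.card → Y := fun i => (e i).1
  have ha : Function.Injective a := Subtype.val_injective.comp e.injective
  have hrange : ∀ y, y ∈ Set.range a ↔ y ∈ F := fun y =>
    ⟨fun ⟨i, hi⟩ => hi ▸ (e i).2, fun hy => ⟨e.symm ⟨y, hy⟩, by simp [a]⟩⟩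
  let W : Fin F.card → Matrix (Fin N) (Fin N) ℂ := fun i =>
    (Matrix.toEuclideanLin.symm (T (a i)))ᴴ
  have hW : ∀ i, adj (W i) = T (a i) := fun i => by
    simp [adj, W]
  have hpick : (pick k l (ι ∘ a) W).PosSemidef := by
    rw [pick_psd_iff hk.isHermitian hl.isHermitian]
    intro ξ
    let ξ' : Y → EuclideanSpace ℂ (Fin N) := Function.extend a ξ 0
    have h1 : ∀ i, ξ' (a i) = ξ i := fun i => ha.extend_apply _ _ i
    have h2 : ∀ y, y ∉ Set.range a → ξ' y = 0 := fun y hy => Function.extend_apply' _ _ y hy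
    have h3 := hpos ξ' (fun y => by
      by_cases hy : y ∈ F
      · simp [full, hy]
      · rw [h2 y (fun h => hy ((hrange y).mp h))]; exact Submodule.zero_mem _)
    rw [form_extend _ a ha _ (fun y hy => by rw [h2 y hy, map_zero]),
      form_extend _ a ha ξ' h2] at h3
    simp only [h1] at h3
    simp only [hW]
    exact h3
  obtain ⟨Φ, hΦ, hΦW⟩ := h F.card N (Finset.card_pos.mpr hF) hN (ι ∘ a) W (hι.comp ha) hpick
  refine ⟨fun y => adj (Φ (ι y)), fun x hx => ?_, fun ξ _ => form_of_mult hk hl hΦ ι ξ⟩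
  obtain ⟨i, rfl⟩ := (hrange x).mpr hx
  rw [← hW]
  exact congrArg adj (hΦW i)

theorem psd_entry_le {κ : Matrix X X ℂ} (h : κ.PosSemidef) (x y : X) :
    ‖κ x y‖ ≤ (κ x x).re + (κ y y).re := by
  have h1 := (h.submatrix (![x, y] : Fin 2 → X)).det_nonneg
  rw [Matrix.det_fin_two] at h1
  simp only [Matrix.submatrix_apply, Matrix.cons_val_zero, Matrix.cons_val_one] at h1
  have h2 : κ y x = conj (κ x y) := (h.isHermitian.apply y x).symm
  rw [h2, Complex.mul_conj, diag_real h.isHermitian x, diag_real h.isHermitian y,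
    ← Complex.ofReal_mul, ← Complex.ofReal_sub, Complex.zero_le_real, Complex.normSq_eq_norm_sq]
    at h1
  have hx : 0 ≤ (κ x x).re := (Complex.nonneg_iff.mp (h.diag_nonneg (i := x))).1
  have hy : 0 ≤ (κ y y).re := (Complex.nonneg_iff.mp (h.diag_nonneg (i := y))).1
  refine (pow_le_pow_iff_left₀ (norm_nonneg _) (by positivity) two_ne_zero).mp ?_
  nlinarith [mul_nonneg hx hy, sq_nonneg (κ x x).re, sq_nonneg (κ y y).re]

theorem psd_of_limit {ι : Type*} (U : Filter ι) [U.NeBot] (A : ι → Matrix X X ℂ)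
    (B : Matrix X X ℂ) (hlim : ∀ x y, Tendsto (fun i => A i x y) U (𝓝 (B x y)))
    (hpos : ∀ G : Finset X, ∀ᶠ i in U,
      ((A i).submatrix (Subtype.val : G → X) Subtype.val).PosSemidef) : B.PosSemidef := by
  classical
  refine ⟨?_, fun c => ?_⟩
  · ext x y
    rw [Matrix.conjTranspose_apply]
    refine tendsto_nhds_unique_of_eventuallyEq ((continuous_star.tendsto _).comp (hlim y x))
      (hlim x y) ?_
    filter_upwards [hpos {x, y}] with i hi
    exact hi.isHermitian.apply ⟨x, by simp⟩ ⟨y, by simp⟩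
  · have h1 : Tendsto (fun i => c.sum fun x cx => c.sum fun y cy => star cx * A i x y * cy) U
        (𝓝 (c.sum fun x cx => c.sum fun y cy => star cx * B x y * cy)) := by
      unfold Finsupp.sum
      refine tendsto_finset_sum _ fun x _ => tendsto_finset_sum _ fun y _ => ?_
      exact ((hlim x y).const_mul _).mul_const _
    refine ge_of_tendsto h1 ?_
    filter_upwards [hpos c.support] with i hi
    have h2 := hi.dotProduct_mulVec_nonneg (fun x => c x.1)
    convert h2 using 1
    unfold Finsupp.sum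
    refine (Finset.sum_coe_sort _ _).symm.trans ?_
    refine Finset.sum_congr rfl fun x _ => ?_
    refine (Finset.sum_coe_sort _ _).symm.trans ?_
    simp only [Matrix.mulVec, dotProduct, Finset.mul_sum, Pi.star_apply, Matrix.submatrix_apply,
      mul_assoc]

open Classical in
/-- extension by zero -/
noncomputable def ext0 (F : Finset X) (p : Matrix F F ℂ) : Matrix X X ℂ :=
  Matrix.of fun x y => if h : x ∈ F ∧ y ∈ F then p ⟨x, h.1⟩ ⟨y, h.2⟩ else 0

theorem ext0_apply (F : Finset X) (p : Matrix F F ℂ) {x y : X} (hx : x ∈ F) (hy : y ∈ F) :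
    ext0 F p x y = p ⟨x, hx⟩ ⟨y, hy⟩ := by
  simp [ext0, hx, hy]

theorem ext0_psd (F : Finset X) {p : Matrix F F ℂ} (hp : p.PosSemidef) {G : Finset X}
    (hG : G ⊆ F) : ((ext0 F p).submatrix (Subtype.val : G → X) Subtype.val).PosSemidef := by
  have := hp.submatrix (fun x : G => (⟨x.1, hG x.2⟩ : F))
  convert this using 1
  ext x y
  simp only [Matrix.submatrix_apply]
  exact ext0_apply F p _ _

theorem approx_cert' {k l : Matrix X X ℂ} (hk : k.PosSemidef) (hl : l.PosSemidef)
    (h : CPPairInj k l) (hkl : ∀ x, l x x = 0 → k x x = 0) (z : X) (F : Finset X) {ε : ℝ}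
    (hε : 0 < ε) (hε1 : ε ≤ 1) :
    ∃ p M1 M2 : Matrix X X ℂ, (∀ G : Finset X, G ⊆ F →
      (p.submatrix (Subtype.val : G → X) Subtype.val).PosSemidef ∧
      (M1.submatrix (Subtype.val : G → X) Subtype.val).PosSemidef ∧
      (M2.submatrix (Subtype.val : G → X) Subtype.val).PosSemidef) ∧
      (∀ x y, ‖p x y‖ ≤ ((l x x).re + 1) / (l x x).re + ((l y y).re + 1) / (l y y).re) ∧
      ∀ x ∈ F, ∀ y ∈ F, ‖kerAt l z x y - p x y * l x y - M1 x y‖ < ε ∧
        ‖p x y * k x y - kerAt k z x y - M2 x y‖ < ε := by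
  classical
  let F' : Finset X := insert z F
  have hsub : F ⊆ F' := Finset.subset_insert z F
  let z' : F' := ⟨z, Finset.mem_insert_self z F⟩
  have hN : 1 ≤ Fintype.card F' := Fintype.card_pos_iff.mpr ⟨z'⟩
  have hk' := hk.submatrix (Subtype.val : F' → X)
  have hl' := hl.submatrix (Subtype.val : F' → X)
  obtain ⟨p, M1, M2, hp, h1, h2, h3, h4⟩ := approx_cert hk' hl'
    (ext1_of_cp hk hl h Subtype.val Subtype.val_injective hN) z' hε
  have hdl : ∀ x, 0 ≤ (l x x).re := fun x => (Complex.nonneg_iff.mp (hl.diag_nonneg (i := x))).1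
  let c : F' → ℂ := fun x => if l x x = 0 then 0 else 1
  let q : Matrix F' F' ℂ := Matrix.gram ℂ c ⊙ p
  have hq : q.PosSemidef := (Matrix.posSemidef_gram ℂ c).hadamard hp
  have hqa : ∀ x y : F', q x y = c y * conj (c x) * p x y := fun x y => rfl
  have hql : ∀ (κ : Matrix X X ℂ), κ.PosSemidef → (∀ x, l x x = 0 → κ x x = 0) →
      ∀ x y : F', q x y * κ x y = p x y * κ x y := by
    intro κ hκ h0 x y
    rw [hqa]
    by_cases hx : l x x = 0
    · rw [(row_zero hκ (h0 x hx) y).2]; simp
    by_cases hy : l y y = 0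
    · rw [(row_zero hκ (h0 y hy) x).1]; simp
    simp [c, hx, hy]
  have hqd : ∀ x : F', (q x x).re ≤ ((l x x).re + 1) / (l x x).re := by
    intro x
    by_cases hx : l x x = 0
    · rw [hqa, hx]; simp [c, hx]
    have hpos : 0 < (l x x).re := lt_of_le_of_ne (hdl x) fun h => hx (by
      rw [diag_real hl.isHermitian x, ← h]; simp)
    have e1 : q x x = p x x := by rw [hqa]; simp [c, hx]
    rw [e1, le_div_iff₀ hpos]
    have h5 := (Complex.abs_re_le_norm _).trans_lt (h3 x x)
    have h6 : 0 ≤ (M1 x x).re := (Complex.nonneg_iff.mp (h1.diag_nonneg (i := x))).1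
    have h7 : (kerAt (l.submatrix Subtype.val Subtype.val) z' x x).re ≤ (l x x).re := by
      rw [kerAt_apply]
      simp only [Matrix.submatrix_apply]
      have e2 : l z' x = conj (l x z') := (hl.isHermitian.apply _ _).symm
      rw [e2, Complex.mul_conj, diag_real hl.isHermitian z', ← Complex.ofReal_div, Complex.sub_re,
        Complex.ofReal_re]
      have : 0 ≤ Complex.normSq (l x z') / (l z' z').re :=
        div_nonneg (Complex.normSq_nonneg _) (hdl _)
      linarith
    have h8 : (p x x * l.submatrix Subtype.val Subtype.val x x).re = (p x x).re * (l x x).re := by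
      rw [Matrix.submatrix_apply, diag_real hl.isHermitian x]
      simp
    rw [Complex.sub_re, Complex.sub_re, h8, abs_lt] at h5
    linarith [h5.1]
  refine ⟨ext0 F' q, ext0 F' M1, ext0 F' M2, fun G hG => ⟨ext0_psd F' hq (hG.trans hsub),
    ext0_psd F' h1 (hG.trans hsub), ext0_psd F' h2 (hG.trans hsub)⟩, fun x y => ?_,
    fun x hx y hy => ?_⟩
  · by_cases hxy : x ∈ F' ∧ y ∈ F'
    · rw [ext0_apply F' q hxy.1 hxy.2]
      exact (psd_entry_le hq _ _).trans (add_le_add (hqd _) (hqd _))
    · have : ext0 F' q x y = 0 := by simp only [ext0, Matrix.of_apply, dif_neg hxy]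
      rw [this, norm_zero]
      have := hdl x
      have := hdl y
      positivity
  · rw [ext0_apply F' q (hsub hx) (hsub hy), ext0_apply F' M1 (hsub hx) (hsub hy),
      ext0_apply F' M2 (hsub hx) (hsub hy)]
    have e1 := hql l hl (fun _ h => h) ⟨x, hsub hx⟩ ⟨y, hsub hy⟩
    have e2 := hql k hk hkl ⟨x, hsub hx⟩ ⟨y, hsub hy⟩
    simp only at e1 e2
    rw [e1, e2]
    exact ⟨h3 ⟨x, hsub hx⟩ ⟨y, hsub hy⟩, h4 ⟨x, hsub hx⟩ ⟨y, hsub hy⟩⟩

theorem certificate_of_cp {k l : Matrix X X ℂ} (hk : k.PosSemidef) (hl : l.PosSemidef)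
    (hkl : ∀ x, l x x = 0 → k x x = 0) (h : CPPairInj k l) : HasCertificate k l := by
  classical
  have key : ∀ z : X, ∃ p : Matrix X X ℂ, p.PosSemidef ∧ (kerAt l z - p ⊙ l).PosSemidef ∧
      (p ⊙ k - kerAt k z).PosSemidef := by
    intro z
    have h0 : ∀ i : Finset X × ℕ, (0 : ℝ) < 1 / ((i.2 : ℝ) + 1) := fun i => by positivity
    have h0' : ∀ i : Finset X × ℕ, 1 / ((i.2 : ℝ) + 1) ≤ 1 := fun i => by
      rw [div_le_one (by positivity)]
      have : (0 : ℝ) ≤ i.2 := Nat.cast_nonneg _
      linarith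
    choose p M1 M2 hpsd hbd happ using fun i : Finset X × ℕ =>
      approx_cert' hk hl h hkl z i.1 (h0 i) (h0' i)
    let U : Ultrafilter (Finset X × ℕ) := Ultrafilter.of atTop
    have hU : (U : Filter (Finset X × ℕ)) ≤ atTop := Ultrafilter.of_le _
    have hlim : ∀ x y, ∃ a : ℂ, Tendsto (fun i => p i x y) U (𝓝 a) := by
      intro x y
      obtain ⟨a, _, ha⟩ := (isCompact_closedBall (0 : ℂ) (((l x x).re + 1) / (l x x).re +
        ((l y y).re + 1) / (l y y).re)).ultrafilter_le_nhds (U.map fun i => p i x y) (by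
          rw [le_principal_iff, Ultrafilter.coe_map, Filter.mem_map]
          refine Filter.univ_mem' fun i => ?_
          simpa using hbd i x y)
      exact ⟨a, ha⟩
    choose P hP using hlim
    have hev : ∀ G : Finset X, ∀ᶠ i : Finset X × ℕ in U, G ⊆ i.1 := fun G =>
      hU ((eventually_ge_atTop ((G, 0) : Finset X × ℕ)).mono fun i hi => hi.1)
    have hε : Tendsto (fun i : Finset X × ℕ => 1 / ((i.2 : ℝ) + 1)) U (𝓝 0) := by
      have : Tendsto (fun i : Finset X × ℕ => i.2) atTop atTop := by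
        rw [← Filter.prod_atTop_atTop_eq]
        exact tendsto_snd
      exact (tendsto_one_div_add_atTop_nhds_zero_nat.comp this).mono_left hU
    have hsq : ∀ (f g : Finset X × ℕ → ℂ) (a : ℂ), Tendsto f U (𝓝 a) →
        (∀ᶠ i in (U : Filter (Finset X × ℕ)), ‖f i - g i‖ < 1 / ((i.2 : ℝ) + 1)) →
        Tendsto g U (𝓝 a) := by
      intro f g a hf hfg
      have h1 : Tendsto (fun i => f i - g i) U (𝓝 0) :=
        squeeze_zero_norm' (hfg.mono fun i hi => hi.le) hε
      simpa using hf.sub h1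
    refine ⟨Matrix.of P, psd_of_limit U p _ hP fun G => (hev G).mono fun i hi => (hpsd i G hi).1,
      psd_of_limit U M1 _ (fun x y => ?_) fun G => (hev G).mono fun i hi => (hpsd i G hi).2.1,
      psd_of_limit U M2 _ (fun x y => ?_) fun G => (hev G).mono fun i hi => (hpsd i G hi).2.2⟩
    · refine hsq (fun i => kerAt l z x y - p i x y * l x y) _ _
        (((hP x y).mul_const _).const_sub _) ?_
      filter_upwards [hev {x, y}] with i hi
      exact (happ i x (hi (by simp)) y (hi (by simp))).1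
    · refine hsq (fun i => p i x y * k x y - kerAt k z x y) _ _
        (((hP x y).mul_const _).sub_const _) ?_
      filter_upwards [hev {x, y}] with i hi
      exact (happ i x (hi (by simp)) y (hi (by simp))).2
  choose p hp using key
  exact ⟨p, hp⟩

end Pool.Agent.H439Z.Sh
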