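import Mathlib

set_option autoImplicit false

namespace Pool.Agent.H439Z.WF

/-- `K` is saturated for the topology `t`: an intersection of open sets. -/
def Saturated {X : Type*} (t : TopologicalSpace X) (K : Set X) : Prop :=
  ∃ 𝒰 : Set (Set X), (∀ U ∈ 𝒰, @IsOpen X t U) ∧ K = ⋂₀ 𝒰

/-- The space `(X, t)` is well-filtered: it is `T₀`, and whenever the intersection of a filtered
family of compact saturated sets lies in an open set `U`, some member of the family lies in `U`. -/
def WellFiltered {X : Type*} (t : TopologicalSpace X) : Prop :=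
  @T0Space X t ∧
    ∀ 𝒦 : Set (Set X), 𝒦.Nonempty → DirectedOn (· ⊇ ·) 𝒦 →
      (∀ K ∈ 𝒦, @IsCompact X t K ∧ Saturated t K) →
      ∀ U : Set X, @IsOpen X t U → ⋂₀ 𝒦 ⊆ U → ∃ K ∈ 𝒦, K ⊆ U

/-- Every nonempty directed subset has a supremum. -/
def IsDcpo (P : Type*) [PartialOrder P] : Prop :=
  ∀ d : Set P, d.Nonempty → DirectedOn (· ≤ ·) d → ∃ x : P, IsLUB d x

/-- The poset `P` is well-filtered: some topology compatible with the order (the closure of `{x}`
is the principal down-set of `x`) is well-filtered. -/
def WellFilteredPoset (P : Type*) [PartialOrder P] : Prop :=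
  ∃ t : TopologicalSpace P, (∀ x : P, @closure P t {x} = Set.Iic x) ∧ WellFiltered t

end Pool.Agent.H439Z.WF
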