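import Mathlib
import Pool.Agent.H439Z.WFDefs

set_option autoImplicit false

open Set Topology

namespace Pool.Agent.H439Z.WF

/-- topological Rudin lemma: a minimal closed set meeting all members of a family of compact sets -/
theorem rudin {X : Type*} [TopologicalSpace X] (𝒦 : Set (Set X)) (hK : ∀ K ∈ 𝒦, IsCompact K)
    (C : Set X) (hC : IsClosed C) (hCK : ∀ K ∈ 𝒦, (K ∩ C).Nonempty) :
    ∃ A : Set X, A ⊆ C ∧ IsClosed A ∧ (∀ K ∈ 𝒦, (K ∩ A).Nonempty) ∧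
      ∀ V : Set X, IsOpen V → (V ∩ A).Nonempty → ∃ K ∈ 𝒦, K ∩ A ⊆ V := by
  let S : Set (Set X) := {A | IsClosed A ∧ ∀ K ∈ 𝒦, (K ∩ A).Nonempty}
  obtain ⟨A, hAC, hA⟩ := zorn_superset_nonempty S (fun c hcS hc hne => by
    refine ⟨⋂₀ c, ⟨isClosed_sInter fun A hA => (hcS hA).1, fun K hKm => ?_⟩,
      fun s hs => sInter_subset_of_mem hs⟩
    haveI : Nonempty c := hne.to_subtype
    by_contra hcon
    rw [not_nonempty_iff_eq_empty, sInter_eq_iInter] at hcon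
    have hdir : Directed (· ⊇ ·) (fun i : c => (i : Set X)) := by
      intro i j
      rcases hc.total i.2 j.2 with h | h
      · exact ⟨i, subset_rfl, h⟩
      · exact ⟨j, h, subset_rfl⟩
    obtain ⟨i, hi⟩ := (hK K hKm).elim_directed_family_closed (fun i : c => (i : Set X))
      (fun i => (hcS i.2).1) hcon hdir
    exact ((hcS i.2).2 K hKm).ne_empty hi) C ⟨hC, hCK⟩
  refine ⟨A, hAC, hA.prop.1, hA.prop.2, fun V hV hVA => ?_⟩
  by_contra hcon
  push Not at hcon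
  have hmem : A \ V ∈ S := by
    refine ⟨hA.prop.1.sdiff hV, fun K hKm => ?_⟩
    obtain ⟨x, hx, hxV⟩ := not_subset.mp (hcon K hKm)
    exact ⟨x, hx.1, hx.2, hxV⟩
  have := hA.le_of_le hmem diff_subset
  obtain ⟨x, hxV, hxA⟩ := hVA
  exact (this hxA).2 hxV

section
variable {α : Type*} [Preorder α] [TopologicalSpace α] [IsScott α univ]

theorem open_iff {U : Set α} : IsOpen U ↔ IsUpperSet U ∧ DirSupInacc U := by
  rw [IsScott.isOpen_iff_isUpperSet_and_dirSupInaccOn (D := univ), dirSupInaccOn_univ]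

theorem upper_of_saturated {K : Set α} (h : Saturated ‹_› K) : IsUpperSet K := by
  obtain ⟨𝒰, h1, rfl⟩ := h
  exact isUpperSet_sInter fun U hU => (open_iff.mp (h1 U hU)).1

theorem saturated_of_upper {K : Set α} (h : IsUpperSet K) : Saturated ‹_› K := by
  refine ⟨{U | IsOpen U ∧ K ⊆ U}, fun U hU => hU.1, ?_⟩
  apply subset_antisymm
  · exact fun x hx U hU => hU.2 hx
  · intro x hx
    by_contra hxK
    have : (Iic x)ᶜ ∈ {U : Set α | IsOpen U ∧ K ⊆ U} :=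
      ⟨isClosed_Iic.isOpen_compl, fun y hy hyx => hxK (h hyx hy)⟩
    exact hx _ this (le_refl x)

theorem compact_upper {K : Set α} (h : IsCompact K) : IsCompact {x | ∃ y ∈ K, y ≤ x} := by
  refine isCompact_of_finite_subcover fun {ι} U hU hKU => ?_
  obtain ⟨t, ht⟩ := h.elim_finite_subcover U hU (fun y hy => hKU ⟨y, hy, le_rfl⟩)
  refine ⟨t, ?_⟩
  rintro x ⟨y, hy, hyx⟩
  obtain ⟨i, hi, hyi⟩ := mem_iUnion₂.mp (ht hy)
  exact mem_iUnion₂.mpr ⟨i, hi, (open_iff.mp (hU i)).1 hyx hyi⟩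

theorem cont_of_scott {β : Type*} [Preorder β] [TopologicalSpace β] [IsScott β univ] {f : α → β}
    (h : ScottContinuous f) : Continuous f :=
  (IsScott.scottContinuousOn_iff_continuous (D := univ) (fun _ _ _ => mem_univ _)).mp
    h.scottContinuousOn

/-- the image of a Rudin set in a well-filtered Scott space has a generic point -/
theorem exists_generic {X : Type*} [TopologicalSpace X] (hα : WellFiltered (X := α) ‹_›)
    (f : X → α) (hf : Continuous f) (𝒦 : Set (Set X)) (hne : 𝒦.Nonempty)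
    (hdir : DirectedOn (· ⊇ ·) 𝒦) (hK : ∀ K ∈ 𝒦, IsCompact K) (A : Set X) (hA : IsClosed A)
    (hKA : ∀ K ∈ 𝒦, (K ∩ A).Nonempty)
    (hmin : ∀ V : Set X, IsOpen V → (V ∩ A).Nonempty → ∃ K ∈ 𝒦, K ∩ A ⊆ V) :
    ∃ p : α, p ∈ closure (f '' A) ∧ ∀ a ∈ A, f a ≤ p := by
  let F : Set X → Set α := fun K => {x | ∃ y ∈ f '' (K ∩ A), y ≤ x}
  have hF : ∀ L ∈ F '' 𝒦, IsCompact L ∧ Saturated ‹_› L := by
    rintro _ ⟨K, hKm, rfl⟩
    refine ⟨compact_upper (((hK K hKm).inter_right hA).image hf), saturated_of_upper ?_⟩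
    rintro x y hxy ⟨z, hz, hzx⟩
    exact ⟨z, hz, hzx.trans hxy⟩
  have hFd : DirectedOn (· ⊇ ·) (F '' 𝒦) := by
    rintro _ ⟨K, hKm, rfl⟩ _ ⟨L, hLm, rfl⟩
    obtain ⟨M, hM, h1, h2⟩ := hdir K hKm L hLm
    refine ⟨F M, ⟨M, hM, rfl⟩, ?_, ?_⟩
    · rintro x ⟨_, ⟨z, hz, rfl⟩, hzx⟩
      exact ⟨_, ⟨z, ⟨h1 hz.1, hz.2⟩, rfl⟩, hzx⟩
    · rintro x ⟨_, ⟨z, hz, rfl⟩, hzx⟩
      exact ⟨_, ⟨z, ⟨h2 hz.1, hz.2⟩, rfl⟩, hzx⟩
  have hnot : ¬ ⋂₀ (F '' 𝒦) ⊆ (closure (f '' A))ᶜ := by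
    intro h
    obtain ⟨_, ⟨K, hKm, rfl⟩, hKU⟩ := hα.2 (F '' 𝒦) (hne.image F) hFd hF _
      isClosed_closure.isOpen_compl h
    obtain ⟨a, ha⟩ := hKA K hKm
    exact hKU ⟨f a, ⟨a, ha, rfl⟩, le_rfl⟩ (subset_closure ⟨a, ha.2, rfl⟩)
  obtain ⟨p, hp, hpc⟩ := not_subset.mp hnot
  refine ⟨p, not_not.mp hpc, fun a ha => ?_⟩
  by_contra hap
  obtain ⟨K, hKm, hKV⟩ := hmin (f ⁻¹' (Iic p)ᶜ) (isClosed_Iic.isOpen_compl.preimage hf)
    ⟨a, hap, ha⟩
  obtain ⟨_, ⟨z, hz, rfl⟩, hzp⟩ := hp _ ⟨K, hKm, rfl⟩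
  exact hKV hz hzp
end

theorem prod_aux {P Q X : Type*} [PartialOrder P] [PartialOrder Q] [PartialOrder X]
    [tP : TopologicalSpace P] [IsScott P univ] [tQ : TopologicalSpace Q] [IsScott Q univ]
    [tX : TopologicalSpace X] [IsScott X univ]
    (f : X → P) (g : X → Q) (mk : P → Q → X) (hf : ScottContinuous f) (hg : ScottContinuous g)
    (h1 : ∀ q, ScottContinuous fun p => mk p q) (h2 : ∀ p, ScottContinuous fun q => mk p q)
    (hmk : ∀ z, mk (f z) (g z) = z)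
    (hP : WellFiltered tP) (hQ : WellFiltered tQ) : WellFiltered tX := by
  refine ⟨inferInstance, fun 𝒦 hne hdir hK U hU hsub => ?_⟩
  by_contra hcon
  push Not at hcon
  obtain ⟨A, hAC, hA, hKA, hmin⟩ := rudin 𝒦 (fun K h => (hK K h).1) Uᶜ hU.isClosed_compl
    (fun K h => not_subset.mp (hcon K h))
  have hfc := cont_of_scott hf
  have hgc := cont_of_scott hg
  obtain ⟨p, hp, hpA⟩ := exists_generic hP f hfc 𝒦 hne hdir (fun K h => (hK K h).1) A hA hKA hmin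
  obtain ⟨q, hq, hqA⟩ := exists_generic hQ g hgc 𝒦 hne hdir (fun K h => (hK K h).1) A hA hKA hmin
  have hle : ∀ a ∈ A, a ≤ mk p q := by
    intro a ha
    calc a = mk (f a) (g a) := (hmk a).symm
      _ ≤ mk p (g a) := (h1 (g a)).monotone (hpA a ha)
      _ ≤ mk p q := (h2 p).monotone (hqA a ha)
  have hmem : mk p q ∈ A := by
    by_contra hW
    have hWo : IsOpen Aᶜ := hA.isOpen_compl
    let V : P → Set X := fun x => {z | mk x (g z) ∈ Aᶜ}
    have hV : ∀ x, IsOpen (V x) := fun x => (hWo.preimage (cont_of_scott (h2 x))).preimage hgc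
    have hVm : ∀ x y, x ≤ y → V x ⊆ V y := fun x y hxy z hz =>
      (open_iff.mp hWo).1 ((h1 (g z)).monotone hxy) hz
    have hVp : (V p ∩ A).Nonempty := by
      obtain ⟨_, hy, a, ha, rfl⟩ := mem_closure_iff.mp hq _
        (hWo.preimage (cont_of_scott (h2 p))) hW
      exact ⟨a, hy, ha⟩
    obtain ⟨K, hKm, hKV⟩ := hmin _ (hV p) hVp
    let G : Set P := {x | K ∩ A ⊆ V x}
    have hG : IsOpen G := by
      refine open_iff.mpr ⟨fun x y hxy hx => subset_trans hx (hVm x y hxy), ?_⟩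
      intro d hd hdd x hx hxG
      haveI : Nonempty d := hd.to_subtype
      have hcov : K ∩ A ⊆ ⋃ i : d, V i := by
        intro z hz
        obtain ⟨y, hyd, hy⟩ := (open_iff.mp (hWo.preimage (cont_of_scott (h1 (g z))))).2
          hd hdd hx (hxG hz)
        exact mem_iUnion.mpr ⟨⟨y, hyd⟩, hy⟩
      obtain ⟨i, hi⟩ := ((hK K hKm).1.inter_right hA).elim_directed_cover (fun i : d => V i)
        (fun i => hV i) hcov (by
          intro i j
          obtain ⟨k, hk, hik, hjk⟩ := hdd i i.2 j j.2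
          exact ⟨⟨k, hk⟩, hVm _ _ hik, hVm _ _ hjk⟩)
      exact ⟨i, i.2, hi⟩
    have hGA : (f ⁻¹' G ∩ A).Nonempty := by
      obtain ⟨_, hy, a, ha, rfl⟩ := mem_closure_iff.mp hp _ hG hKV
      exact ⟨a, hy, ha⟩
    obtain ⟨L, hLm, hLG⟩ := hmin _ (hG.preimage hfc) hGA
    obtain ⟨M, hMm, hMK, hML⟩ := hdir K hKm L hLm
    obtain ⟨a, haM, haA⟩ := hKA M hMm
    have : a ∈ V (f a) := hLG ⟨hML haM, haA⟩ ⟨hMK haM, haA⟩
    apply this
    show mk (f a) (g a) ∈ A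
    rw [hmk]; exact haA
  apply hAC hmem
  apply hsub
  intro K hKm
  obtain ⟨a, haK, haA⟩ := hKA K hKm
  exact upper_of_saturated (hK K hKm).2 (hle a haA) haK

theorem prod_wf (P Q : Type*) [PartialOrder P] [PartialOrder Q]
    (hP : WellFiltered (Topology.scott P univ)) (hQ : WellFiltered (Topology.scott Q univ)) :
    WellFiltered (Topology.scott (P × Q) univ) :=
  @prod_aux P Q (P × Q) _ _ _ (Topology.scott P univ) (@IsScott.mk _ _ _ (Topology.scott P univ) rfl)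
    (Topology.scott Q univ) (@IsScott.mk _ _ _ (Topology.scott Q univ) rfl)
    (Topology.scott (P × Q) univ) (@IsScott.mk _ _ _ (Topology.scott (P × Q) univ) rfl)
    Prod.fst Prod.snd Prod.mk ScottContinuous.fst ScottContinuous.snd
    (fun q => ScottContinuous.prodMk ScottContinuous.id (ScottContinuous.const q))
    (fun p => ScottContinuous.prodMk (ScottContinuous.const p) ScottContinuous.id)
    (fun _ => rfl) hP hQ

end Pool.Agent.H439Z.WF
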