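import Mathlib
import Pool.Agent.H439Z.WFProd

set_option autoImplicit false

open Set Topology

namespace Pool.Agent.H439Z.WF

/-- Johnstone's dcpo with a new top element -/
inductive JT : Type
  | pt : ℕ → ℕ → JT
  | mx : ℕ → JT
  | top : JT

open JT

def jle : JT → JT → Prop
  | _, .top => True
  | .pt a x, .pt b y => a = b ∧ x ≤ y
  | .pt a x, .mx b => a = b ∨ x ≤ b
  | .mx _, .pt _ _ => False
  | .mx a, .mx b => a = b
  | .top, .pt _ _ => False
  | .top, .mx _ => False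

instance : PartialOrder JT where
  le := jle
  le_refl x := by cases x <;> simp [jle]
  le_trans x y z := by
    cases x <;> cases y <;> cases z <;> simp only [jle] <;> intro h1 h2 <;>
      first | trivial | exact h1.elim | exact h2.elim | omega
  le_antisymm x y := by
    cases x <;> cases y <;> simp only [jle] <;> intro h1 h2 <;> first | exact h1.elim | exact h2.elim | rfl | (congr 1 <;> omega)

@[simp] lemma pt_le_pt {a x b y : ℕ} : pt a x ≤ pt b y ↔ a = b ∧ x ≤ y := Iff.rfl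
@[simp] lemma pt_le_mx {a x b : ℕ} : pt a x ≤ mx b ↔ a = b ∨ x ≤ b := Iff.rfl
@[simp] lemma mx_le_pt {a b y : ℕ} : ¬ mx a ≤ pt b y := fun h => h
@[simp] lemma mx_le_mx {a b : ℕ} : mx a ≤ mx b ↔ a = b := Iff.rfl
@[simp] lemma top_le_pt {b y : ℕ} : ¬ top ≤ pt b y := fun h => h
@[simp] lemma top_le_mx {b : ℕ} : ¬ top ≤ mx b := fun h => h
@[simp] lemma le_jtop (z : JT) : z ≤ top := by cases z <;> trivial

/-- a directed set has a greatest element or is cofinal in a column -/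
theorem directed_cases {d : Set JT} (hne : d.Nonempty) (hd : DirectedOn (· ≤ ·) d) :
    (∃ m ∈ d, ∀ z ∈ d, z ≤ m) ∨
      ∃ a, (∀ z ∈ d, ∃ y, z = pt a y) ∧ ∀ n, ∃ y, n ≤ y ∧ pt a y ∈ d := by
  by_cases h1 : top ∈ d
  · exact Or.inl ⟨top, h1, fun z _ => le_jtop z⟩
  by_cases h2 : ∃ b, mx b ∈ d
  · obtain ⟨b, hb⟩ := h2
    refine Or.inl ⟨mx b, hb, fun z hz => ?_⟩
    obtain ⟨w, hw, h3, h4⟩ := hd _ hb _ hz
    cases w with
    | pt c y => exact h3.elim
    | mx c => rw [mx_le_mx.mp h3]; exact h4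
    | top => exact (h1 hw).elim
  push Not at h2
  obtain ⟨z0, hz0⟩ := hne
  obtain ⟨a, x, rfl⟩ : ∃ a x, z0 = pt a x := by
    cases z0 with
    | pt a x => exact ⟨a, x, rfl⟩
    | mx c => exact (h2 c hz0).elim
    | top => exact (h1 hz0).elim
  have hcol : ∀ z ∈ d, ∃ y, z = pt a y := by
    intro z hz
    obtain ⟨w, hw, h3, h4⟩ := hd _ hz0 _ hz
    cases w with
    | mx c => exact (h2 c hw).elim
    | top => exact (h1 hw).elim
    | pt c y =>
      cases z with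
      | pt e u =>
        obtain ⟨rfl, -⟩ := pt_le_pt.mp h3
        obtain ⟨rfl, -⟩ := pt_le_pt.mp h4
        exact ⟨u, rfl⟩
      | mx e => exact h4.elim
      | top => exact h4.elim
  by_cases h3 : ∀ n, ∃ y, n ≤ y ∧ pt a y ∈ d
  · exact Or.inr ⟨a, hcol, h3⟩
  · push Not at h3
    obtain ⟨n, hn⟩ := h3
    have hb : BddAbove {y | pt a y ∈ d} := ⟨n, fun y hy => by
      by_contra h
      exact hn y (by omega) hy⟩
    refine Or.inl ⟨pt a (sSup {y | pt a y ∈ d}), Nat.sSup_mem ⟨x, hz0⟩ hb, fun z hz => ?_⟩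
    obtain ⟨y, rfl⟩ := hcol z hz
    exact pt_le_pt.mpr ⟨rfl, le_csSup hb hz⟩

theorem isLUB_col {d : Set JT} {a : ℕ} (h1 : ∀ z ∈ d, ∃ y, z = pt a y)
    (h2 : ∀ n, ∃ y, n ≤ y ∧ pt a y ∈ d) : IsLUB d (mx a) := by
  constructor
  · intro z hz
    obtain ⟨y, rfl⟩ := h1 z hz
    simp
  · intro u hu
    cases u with
    | top => simp
    | pt b y =>
      obtain ⟨w, hw, hwd⟩ := h2 (y + 1)
      have := (pt_le_pt.mp (hu hwd)).2
      omega
    | mx b =>
      obtain ⟨w, hw, hwd⟩ := h2 (b + 1)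
      have := pt_le_mx.mp (hu hwd)
      simp only [mx_le_mx]
      omega

theorem dcpo_JT : IsDcpo JT := by
  intro d hne hd
  rcases directed_cases hne hd with ⟨m, hm, h⟩ | ⟨a, h1, h2⟩
  · exact ⟨m, h, fun u hu => hu hm⟩
  · exact ⟨mx a, isLUB_col h1 h2⟩

/-- Scott open sets -/
def SO (U : Set JT) : Prop := IsUpperSet U ∧ ∀ a, mx a ∈ U → ∃ x, pt a x ∈ U

theorem scott_open_iff {U : Set JT} : IsOpen[Topology.scott JT univ] U ↔ SO U := by
  letI : TopologicalSpace JT := Topology.scott JT univ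
  haveI : IsScott JT univ := ⟨rfl⟩
  rw [open_iff]
  constructor
  · rintro ⟨h1, h2⟩
    refine ⟨h1, fun a ha => ?_⟩
    have hl : IsLUB (range (pt a)) (mx a) :=
      isLUB_col (by rintro _ ⟨y, rfl⟩; exact ⟨y, rfl⟩) (fun n => ⟨n, le_rfl, n, rfl⟩)
    obtain ⟨_, ⟨x, rfl⟩, hx⟩ := h2 (range_nonempty _) (by
      rintro _ ⟨x, rfl⟩ _ ⟨y, rfl⟩
      exact ⟨pt a (max x y), ⟨_, rfl⟩, pt_le_pt.mpr ⟨rfl, le_max_left _ _⟩,
        pt_le_pt.mpr ⟨rfl, le_max_right _ _⟩⟩) hl ha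
    exact ⟨x, hx⟩
  · rintro ⟨h1, h2⟩
    refine ⟨h1, fun d hne hd s hs hsU => ?_⟩
    rcases directed_cases hne hd with ⟨m, hm, h⟩ | ⟨a, h3, h4⟩
    · have : IsLUB d m := ⟨h, fun u hu => hu hm⟩
      rw [hs.unique this] at hsU
      exact ⟨m, hm, hsU⟩
    · rw [hs.unique (isLUB_col h3 h4)] at hsU
      obtain ⟨x, hx⟩ := h2 a hsU
      obtain ⟨y, hxy, hy⟩ := h4 x
      exact ⟨pt a y, hy, h1 (pt_le_pt.mpr ⟨rfl, hxy⟩) hx⟩

/-- the coarser compatible topology: the top point alone is not open -/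
@[reducible] def tau : TopologicalSpace JT where
  IsOpen U := SO U ∧ (U.Nonempty → ∃ a x, pt a x ∈ U)
  isOpen_univ := ⟨⟨isUpperSet_univ, fun _ _ => ⟨0, trivial⟩⟩, fun _ => ⟨0, 0, trivial⟩⟩
  isOpen_inter U V hU hV := by
    have key : ∀ a, mx a ∈ U ∩ V → ∃ x, pt a x ∈ U ∩ V := by
      intro a ha
      obtain ⟨x, hx⟩ := hU.1.2 a ha.1
      obtain ⟨y, hy⟩ := hV.1.2 a ha.2
      exact ⟨max x y, hU.1.1 (pt_le_pt.mpr ⟨rfl, le_max_left _ _⟩) hx,
        hV.1.1 (pt_le_pt.mpr ⟨rfl, le_max_right _ _⟩) hy⟩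
    refine ⟨⟨hU.1.1.inter hV.1.1, key⟩, ?_⟩
    rintro ⟨z, hzU, hzV⟩
    obtain ⟨a, x, hx⟩ := hU.2 ⟨z, hzU⟩
    obtain ⟨b, y, hy⟩ := hV.2 ⟨z, hzV⟩
    obtain ⟨w, hw⟩ := key (max x y) ⟨hU.1.1 (pt_le_mx.mpr (Or.inr (le_max_left _ _))) hx,
      hV.1.1 (pt_le_mx.mpr (Or.inr (le_max_right _ _))) hy⟩
    exact ⟨_, w, hw⟩
  isOpen_sUnion s hs := by
    refine ⟨⟨isUpperSet_sUnion fun U hU => (hs U hU).1.1, ?_⟩, ?_⟩
    · rintro a ⟨U, hU, ha⟩
      obtain ⟨x, hx⟩ := (hs U hU).1.2 a ha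
      exact ⟨x, U, hU, hx⟩
    · rintro ⟨z, U, hU, hz⟩
      obtain ⟨a, x, hx⟩ := (hs U hU).2 ⟨z, hz⟩
      exact ⟨a, x, U, hU, hx⟩

theorem tau_open_compl_Iic (p : JT) : IsOpen[tau] (Iic p)ᶜ := by
  refine ⟨⟨(isLowerSet_Iic p).compl, fun a ha => ?_⟩, fun h => ?_⟩
  · cases p with
    | top => exact (ha (le_jtop (mx a))).elim
    | pt b y => exact ⟨y + 1, by simp⟩
    | mx b =>
      have : a ≠ b := fun h => ha (mx_le_mx.mpr h)
      exact ⟨b + 1, by simp [this]⟩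
  · cases p with
    | top => obtain ⟨z, hz⟩ := h; exact (hz (le_jtop z)).elim
    | pt b y => exact ⟨b, y + 1, by simp⟩
    | mx b => exact ⟨b + 1, b + 1, by simp⟩

theorem tau_closure (p : JT) : @closure JT tau {p} = Iic p := by
  letI : TopologicalSpace JT := tau
  apply subset_antisymm
  · exact closure_minimal (singleton_subset_iff.mpr (le_refl p)) ⟨tau_open_compl_Iic p⟩
  · intro z hz
    rw [mem_closure_iff]
    intro o ho hzo
    exact ⟨p, ho.1.1 hz hzo, rfl⟩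

theorem tau_t0 : @T0Space JT tau := by
  letI : TopologicalSpace JT := tau
  refine (t0Space_iff_inseparable JT).2 fun x y h => Iic_injective ?_
  simpa only [inseparable_iff_closure_eq, tau_closure] using h

/-- irreducible-type argument: a Rudin set which is proper has a greatest element -/
theorem tau_wf : WellFiltered tau := by
  letI : TopologicalSpace JT := tau
  refine ⟨tau_t0, fun 𝒦 hne hdir hK U hU hsub => ?_⟩
  have hup : ∀ K ∈ 𝒦, IsUpperSet K := by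
    intro K hKm
    obtain ⟨𝒰, h1, rfl⟩ := (hK K hKm).2
    exact isUpperSet_sInter fun V hV => (h1 V hV).1.1
  by_contra hcon
  push Not at hcon
  obtain ⟨A, hAC, hA, hKA, hmin⟩ := rudin 𝒦 (fun K h => (hK K h).1) Uᶜ hU.isClosed_compl
    (fun K h => not_subset.mp (hcon K h))
  have htop : top ∈ U := by
    apply hsub
    intro K hKm
    obtain ⟨z, hz, -⟩ := hKA K hKm
    exact hup K hKm (le_jtop z) hz
  have hAo : IsOpen Aᶜ := hA.isOpen_compl
  have htA : top ∉ A := fun h => hAC h htop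
  obtain ⟨a0, k, hk⟩ := hAo.2 ⟨top, htA⟩
  have hlow : ∀ {y z : JT}, y ≤ z → z ∈ A → y ∈ A := by
    intro y z hyz hz
    by_contra hy
    exact hAo.1.1 hyz hy hz
  have hmxA : ∀ m, k ≤ m → mx m ∉ A := fun m hm => hAo.1.1 (pt_le_mx.mpr (Or.inr hm)) hk
  -- two open sets meeting `A` meet inside `A`
  have hirr : ∀ V W : Set JT, IsOpen V → IsOpen W → (V ∩ A).Nonempty → (W ∩ A).Nonempty →
      (V ∩ W ∩ A).Nonempty := by
    intro V W hV hW h1 h2
    obtain ⟨K, hKm, hKV⟩ := hmin V hV h1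
    obtain ⟨L, hLm, hLW⟩ := hmin W hW h2
    obtain ⟨M, hMm, hMK, hML⟩ := hdir K hKm L hLm
    obtain ⟨z, hzM, hzA⟩ := hKA M hMm
    exact ⟨z, ⟨hKV ⟨hMK hzM, hzA⟩, hLW ⟨hML hzM, hzA⟩⟩, hzA⟩
  -- it suffices to find a greatest element of `A`
  suffices hgr : ∃ m ∈ A, ∀ z ∈ A, z ≤ m by
    obtain ⟨m, hm, hgr⟩ := hgr
    apply hAC hm
    apply hsub
    intro K hKm
    obtain ⟨z, hzK, hzA⟩ := hKA K hKm
    exact hup K hKm (hgr z hzA) hzK
  by_cases hmx : ∃ b, mx b ∈ A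
  · obtain ⟨b, hb⟩ := hmx
    refine ⟨mx b, hb, fun z hz => ?_⟩
    by_contra hzb
    -- the open set of points of column `b` above height `k`, and what is above them
    let V : Set JT := {w | w = mx b ∨ (∃ x, k ≤ x ∧ w = pt b x) ∨ w ∉ A}
    have hV : IsOpen V := by
      refine ⟨⟨?_, ?_⟩, fun _ => ⟨b, k, Or.inr (Or.inl ⟨k, le_rfl, rfl⟩)⟩⟩
      · rintro u v huv (rfl | ⟨x, hx, rfl⟩ | hu)
        · cases v with
          | pt c y => exact huv.elim
          | mx c => exact Or.inl (by rw [mx_le_mx.mp huv])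
          | top => exact Or.inr (Or.inr htA)
        · cases v with
          | pt c y =>
            obtain ⟨rfl, h⟩ := pt_le_pt.mp huv
            exact Or.inr (Or.inl ⟨y, hx.trans h, rfl⟩)
          | mx c =>
            rcases pt_le_mx.mp huv with rfl | h
            · exact Or.inl rfl
            · exact Or.inr (Or.inr (hmxA c (hx.trans h)))
          | top => exact Or.inr (Or.inr htA)
        · exact Or.inr (Or.inr fun hv => hu (hlow huv hv))
      · rintro a (h | ⟨x, -, h⟩ | h)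
        · cases h; exact ⟨k, Or.inr (Or.inl ⟨k, le_rfl, rfl⟩)⟩
        · cases h
        · obtain ⟨x, hx⟩ := hAo.1.2 a h
          exact ⟨x, Or.inr (Or.inr hx)⟩
    obtain ⟨w, ⟨hwV, hwb⟩, hwA⟩ := hirr V _ hV (tau_open_compl_Iic (mx b)) ⟨mx b, Or.inl rfl, hb⟩
      ⟨z, hzb, hz⟩
    rcases hwV with rfl | ⟨x, -, rfl⟩ | h
    · exact hwb (mem_Iic.mpr le_rfl)
    · exact hwb (pt_le_mx.mpr (Or.inl rfl))
    · exact h hwA
  · push Not at hmx
    obtain ⟨K0, hK0⟩ := hne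
    obtain ⟨z0, -, hz0⟩ := hKA K0 hK0
    obtain ⟨a, x, rfl⟩ : ∃ a x, z0 = pt a x := by
      cases z0 with
      | pt a x => exact ⟨a, x, rfl⟩
      | mx c => exact (hmx c hz0).elim
      | top => exact (htA hz0).elim
    obtain ⟨n, hn⟩ := hAo.1.2 a (hmx a)
    have hb : BddAbove {y | pt a y ∈ A} := ⟨n, fun y hy => by
      by_contra h
      exact hn (hlow (pt_le_pt.mpr ⟨rfl, by omega⟩) hy)⟩
    obtain ⟨s, hs⟩ : ∃ s, s = sSup {y | pt a y ∈ A} := ⟨_, rfl⟩
    have hsA : pt a s ∈ A := by rw [hs]; exact Nat.sSup_mem (s := {y | pt a y ∈ A}) ⟨x, hz0⟩ hb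
    refine ⟨pt a s, hsA, fun z hz => ?_⟩
    by_contra hzb
    let V : Set JT := {w | w = pt a s ∨ w ∉ A}
    have hV : IsOpen V := by
      refine ⟨⟨?_, ?_⟩, fun _ => ⟨a, s, Or.inl rfl⟩⟩
      · rintro u v huv (rfl | hu)
        · cases v with
          | pt c y =>
            obtain ⟨rfl, h⟩ := pt_le_pt.mp huv
            by_cases hy : pt a y ∈ A
            · have : y ≤ s := by rw [hs]; exact le_csSup hb hy
              exact Or.inl (by rw [le_antisymm this h])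
            · exact Or.inr hy
          | mx c => exact Or.inr (hmx c)
          | top => exact Or.inr htA
        · exact Or.inr fun hv => hu (hlow huv hv)
      · rintro c (h | h)
        · cases h
        · obtain ⟨y, hy⟩ := hAo.1.2 c h
          exact ⟨y, Or.inr hy⟩
    obtain ⟨w, ⟨hwV, hwb⟩, hwA⟩ := hirr V _ hV (tau_open_compl_Iic (pt a s))
      ⟨pt a s, Or.inl rfl, hsA⟩ ⟨z, hzb, hz⟩
    rcases hwV with rfl | h
    · exact hwb (mem_Iic.mpr le_rfl)
    · exact h hwA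

theorem wfposet_JT : WellFilteredPoset JT := ⟨tau, tau_closure, tau_wf⟩

theorem tail_compact (n : ℕ) : @IsCompact JT (Topology.scott JT univ) {z | ∃ m, n ≤ m ∧ z = mx m} := by
  letI : TopologicalSpace JT := Topology.scott JT univ
  classical
  refine isCompact_of_finite_subcover fun {ι} U hU hcov => ?_
  have h1 : ∀ m, ∃ i, n ≤ m → mx m ∈ U i := by
    intro m
    obtain ⟨i0, -⟩ := mem_iUnion.mp (hcov ⟨n, le_rfl, rfl⟩)
    by_cases hm : n ≤ m
    · obtain ⟨i, hi⟩ := mem_iUnion.mp (hcov ⟨m, hm, rfl⟩)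
      exact ⟨i, fun _ => hi⟩
    · exact ⟨i0, fun h => (hm h).elim⟩
  choose i hi using h1
  have hSO := scott_open_iff.mp (hU (i n))
  obtain ⟨x, hx⟩ := hSO.2 n (hi n le_rfl)
  refine ⟨insert (i n) ((Finset.range x).image i), ?_⟩
  rintro _ ⟨m, hm, rfl⟩
  by_cases hxm : x ≤ m
  · exact mem_iUnion₂.mpr ⟨i n, Finset.mem_insert_self _ _,
      hSO.1 (pt_le_mx.mpr (Or.inr hxm)) hx⟩
  · exact mem_iUnion₂.mpr ⟨i m, Finset.mem_insert_of_mem
      (Finset.mem_image_of_mem i (Finset.mem_range.mpr (by omega))), hi m hm⟩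

theorem not_wf_prod (Q : Type*) [PartialOrder Q] (q : Q) :
    ¬ WellFiltered (Topology.scott (JT × Q) univ) := by
  intro h
  have hcont : @Continuous JT (JT × Q) (Topology.scott JT univ) (Topology.scott (JT × Q) univ)
      (fun z => (z, q)) :=
    @cont_of_scott JT _ (Topology.scott JT univ) (@IsScott.mk _ _ _ (Topology.scott JT univ) rfl)
      (JT × Q) _ (Topology.scott (JT × Q) univ)
      (@IsScott.mk _ _ _ (Topology.scott (JT × Q) univ) rfl) _
      (ScottContinuous.prodMk ScottContinuous.id (ScottContinuous.const q))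
  have hfst : @Continuous (JT × Q) JT (Topology.scott (JT × Q) univ) (Topology.scott JT univ)
      Prod.fst :=
    @cont_of_scott (JT × Q) _ (Topology.scott (JT × Q) univ)
      (@IsScott.mk _ _ _ (Topology.scott (JT × Q) univ) rfl)
      JT _ (Topology.scott JT univ) (@IsScott.mk _ _ _ (Topology.scott JT univ) rfl) _
      ScottContinuous.fst
  have hc : ∀ n, @IsCompact (JT × Q) (Topology.scott (JT × Q) univ)
      ((fun z => (z, q)) '' {z | ∃ m, n ≤ m ∧ z = mx m}) := fun n =>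
    @IsCompact.image JT (JT × Q) (Topology.scott JT univ) (Topology.scott (JT × Q) univ) _ _
      (tail_compact n) hcont
  have htop : IsOpen[Topology.scott JT univ] {top} := by
    refine scott_open_iff.mpr ⟨?_, fun a ha => by cases ha⟩
    rintro u v huv rfl
    cases v with
    | pt c y => exact huv.elim
    | mx c => exact huv.elim
    | top => rfl
  have hU : IsOpen[Topology.scott (JT × Q) univ] (Prod.fst ⁻¹' {top}) :=
    @IsOpen.preimage (JT × Q) JT (Topology.scott (JT × Q) univ) (Topology.scott JT univ) _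
      hfst _ htop
  letI : TopologicalSpace (JT × Q) := Topology.scott (JT × Q) univ
  haveI : IsScott (JT × Q) univ := ⟨rfl⟩
  let F : ℕ → Set (JT × Q) := fun n =>
    {w | ∃ y ∈ (fun z => (z, q)) '' {z | ∃ m, n ≤ m ∧ z = mx m}, y ≤ w}
  obtain ⟨_, ⟨n, rfl⟩, hn⟩ := h.2 (range F) (range_nonempty F) (by
      rintro _ ⟨a, rfl⟩ _ ⟨b, rfl⟩
      refine ⟨F (max a b), ⟨_, rfl⟩, ?_, ?_⟩
      · rintro w ⟨_, ⟨_, ⟨m, hm, rfl⟩, rfl⟩, hw⟩
        exact ⟨_, ⟨_, ⟨m, (le_max_left _ _).trans hm, rfl⟩, rfl⟩, hw⟩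
      · rintro w ⟨_, ⟨_, ⟨m, hm, rfl⟩, rfl⟩, hw⟩
        exact ⟨_, ⟨_, ⟨m, (le_max_right _ _).trans hm, rfl⟩, rfl⟩, hw⟩)
    (by
      rintro _ ⟨n, rfl⟩
      refine ⟨compact_upper (hc n), saturated_of_upper ?_⟩
      rintro u v huv ⟨y, hy, hyu⟩
      exact ⟨y, hy, hyu.trans huv⟩) _ hU (by
      rintro ⟨z, r⟩ hw
      cases z with
      | top => rfl
      | pt a x =>
        obtain ⟨_, ⟨_, ⟨m, hm, rfl⟩, rfl⟩, hw⟩ := hw _ ⟨0, rfl⟩
        exact hw.1.elim
      | mx a =>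
        obtain ⟨_, ⟨_, ⟨m, hm, rfl⟩, rfl⟩, hw⟩ := hw _ ⟨a + 1, rfl⟩
        have := mx_le_mx.mp hw.1
        omega)
  have : (mx n, q) ∈ F n := ⟨_, ⟨_, ⟨n, le_rfl, rfl⟩, rfl⟩, le_rfl⟩
  have := hn this
  cases this

end Pool.Agent.H439Z.WF
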